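import Mathlib

/-!
Basic definitions for the theorem that almost all orders of (cyclic) Hadamard difference sets are
prime: the scale `2^(2^k)`, the quadratic characters `F D`, and the arithmetic condition `Good`.
-/

namespace Pool.Agent.H95.Gol

open Finset

/-- the scale points `2^(2^k)` -/
def bb (k : ℕ) : ℕ := 2 ^ (2 ^ k)

/-- the primes `l` with `bb k < l ≤ bb (k+1)` -/
def PB (k : ℕ) : Finset ℕ := (Ioc (bb k) (bb (k+1))).filter Nat.Prime

/-- the quadratic character `n ↦ (D|n)` on the odd numbers, extended by `0` -/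
noncomputable def F (D : ℤ) (n : ℕ) : ℝ := if Odd n then ((jacobiSym D n : ℤ) : ℝ) else 0

/-- the sum of `F D l / l` over the primes of the `k`-th block -/
noncomputable def Dk (D : ℤ) (k : ℕ) : ℝ := ∑ l ∈ PB k, F D l / l

/-- the necessary condition on `w` coming from Mann's test: if a prime `p` divides `4w-1` and a
prime `q` divides `w` to an odd power, then `-1` is not a power of `q` modulo `p` -/
def Good (w : ℕ) : Prop :=
  ∀ p q : ℕ, p.Prime → q.Prime → p ∣ 4 * w - 1 → Odd (padicValNat q w) →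
    ∀ m : ℕ, ((q : ℕ) : ZMod p) ^ m ≠ -1

lemma bb_pos (k : ℕ) : 0 < bb k := by unfold bb; positivity

lemma two_le_bb (k : ℕ) : 2 ≤ bb k := by
  unfold bb
  calc 2 = 2 ^ 1 := by norm_num
    _ ≤ 2 ^ (2 ^ k) := Nat.pow_le_pow_right (by norm_num) Nat.one_le_two_pow

lemma bb_succ (k : ℕ) : bb (k+1) = bb k ^ 2 := by
  unfold bb; rw [← pow_mul, pow_succ]

lemma bb_mono : Monotone bb := by
  intro a b h
  exact Nat.pow_le_pow_right (by norm_num) (Nat.pow_le_pow_right (by norm_num) h)

lemma bb_strictMono : StrictMono bb := by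
  intro a b h
  exact Nat.pow_lt_pow_right (by norm_num) (Nat.pow_lt_pow_right (by norm_num) h)

lemma log_bb (k : ℕ) : Real.log (bb k) = 2 ^ k * Real.log 2 := by
  unfold bb; push_cast; rw [Real.log_pow]; push_cast; ring

lemma mem_PB {k l : ℕ} : l ∈ PB k ↔ (bb k < l ∧ l ≤ bb (k+1)) ∧ l.Prime := by
  simp [PB]

end Pool.Agent.H95.Gol
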