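import Mathlib
import Pool.Agent.H12.Brun
import Pool.Agent.H95.Gol.Basic

/-!
Counting integers with prescribed residues modulo squares of primes, and the Brun-Hooley
upper bound sieve in abstract form.
-/

namespace Pool.Agent.H95.Gol

open Finset Classical
open Pool.Agent.H12 (esym tsum' bonferroni esym_le esym_nonneg)

/-- number of residues: product formula -/
lemma card_crt (D : Finset ℕ) (hD : ∀ p ∈ D, p.Prime) (E : ℕ → ℕ → Prop)
    (hE : ∀ p ∈ D, ∀ j, E p j ↔ E p (j % p^2)) :
    ((range (∏ p ∈ D, p^2)).filter (fun j => ∀ p ∈ D, E p j)).card =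
      ∏ p ∈ D, ((range (p^2)).filter (E p)).card := by
  induction D using Finset.induction_on with
  | empty => simp
  | insert q D hq ih =>
    have hD' : ∀ p ∈ D, p.Prime := fun p hp => hD p (mem_insert_of_mem hp)
    have hE' : ∀ p ∈ D, ∀ j, E p j ↔ E p (j % p^2) := fun p hp => hE p (mem_insert_of_mem hp)
    have hqp := hD q (mem_insert_self q D)
    have hEq := hE q (mem_insert_self q D)
    rw [prod_insert hq, prod_insert hq, ← ih hD' hE']
    set M := ∏ p ∈ D, p^2 with hM
    have hM0 : 0 < M := prod_pos fun p hp => pow_pos (hD' p hp).pos 2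
    have hq0 : 0 < q^2 := pow_pos hqp.pos 2
    have hco : Nat.Coprime (q^2) M := by
      rw [hM]
      apply Nat.Coprime.prod_right
      intro p hp
      exact Nat.Coprime.pow 2 2 ((Nat.coprime_primes hqp (hD' p hp)).mpr
        (fun h => hq (h ▸ hp)))
    have hdvd : ∀ p ∈ D, p^2 ∣ M := fun p hp => dvd_prod_of_mem _ hp
    rw [← card_product]
    refine card_nbij' (fun j => (j % q^2, j % M))
      (fun t => (Nat.chineseRemainder hco t.1 t.2 : ℕ)) ?_ ?_ ?_ ?_
    · intro j hj
      simp only [coe_filter, mem_range, Set.mem_ofPred_eq, forall_mem_insert] at hj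
      simp only [coe_product, coe_filter, mem_range, Set.mem_prod, Set.mem_ofPred_eq]
      refine ⟨⟨Nat.mod_lt _ hq0, (hEq j).mp hj.2.1⟩, Nat.mod_lt _ hM0, fun p hp => ?_⟩
      rw [hE' p hp, Nat.mod_mod_of_dvd _ (hdvd p hp), ← hE' p hp]
      exact hj.2.2 p hp
    · rintro ⟨a, b⟩ h
      simp only [coe_product, coe_filter, mem_range, Set.mem_prod, Set.mem_ofPred_eq] at h
      simp only [coe_filter, mem_range, Set.mem_ofPred_eq, forall_mem_insert]
      have h1 := (Nat.chineseRemainder hco a b).2
      refine ⟨Nat.chineseRemainder_lt_mul hco a b hq0.ne' hM0.ne', ?_, fun p hp => ?_⟩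
      · rw [hEq, show (Nat.chineseRemainder hco a b : ℕ) % q^2 = a % q^2 from h1.1, ← hEq]
        exact h.1.2
      · have h2 : (Nat.chineseRemainder hco a b : ℕ) % p^2 = b % p^2 := h1.2.of_dvd (hdvd p hp)
        rw [hE' p hp, h2, ← hE' p hp]
        exact h.2.2 p hp
    · intro j hj
      simp only [coe_filter, mem_range, Set.mem_ofPred_eq] at hj
      have h1 := (Nat.chineseRemainder hco (j % q^2) (j % M)).2
      have h2 : (Nat.chineseRemainder hco (j % q^2) (j % M) : ℕ) ≡ j [MOD q^2 * M] := by
        rw [← Nat.modEq_and_modEq_iff_modEq_mul hco]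
        exact ⟨h1.1.trans (Nat.mod_modEq _ _), h1.2.trans (Nat.mod_modEq _ _)⟩
      exact Nat.ModEq.eq_of_lt_of_lt h2
        (Nat.chineseRemainder_lt_mul hco _ _ hq0.ne' hM0.ne') hj.1
    · rintro ⟨a, b⟩ h
      simp only [coe_product, coe_filter, mem_range, Set.mem_prod, Set.mem_ofPred_eq] at h
      have h1 := (Nat.chineseRemainder hco a b).2
      have e1 : (Nat.chineseRemainder hco a b : ℕ) % q^2 = a := by
        rw [show (Nat.chineseRemainder hco a b : ℕ) % q^2 = a % q^2 from h1.1,
          Nat.mod_eq_of_lt h.1.1]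
      have e2 : (Nat.chineseRemainder hco a b : ℕ) % M = b := by
        rw [show (Nat.chineseRemainder hco a b : ℕ) % M = b % M from h1.2,
          Nat.mod_eq_of_lt h.2.1]
      simp only [e1, e2]

/-- counting in an interval by residues -/
lemma card_interval (J M : ℕ) (hM : 0 < M) (R : ℕ → Prop) (hR : ∀ j, R j ↔ R (j % M)) :
    |(((range J).filter R).card : ℝ) - J * (((range M).filter R).card : ℝ) / M| ≤
      ((range M).filter R).card := by
  have hper : Function.Periodic R M := by
    intro j
    rw [hR (j + M), Nat.add_mod_right, ← hR j]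
  have hcount : ∀ n, ((range n).filter R).card = Nat.count R n := fun n =>
    (Nat.count_eq_card_filter_range R n).symm
  set G := ((range M).filter R).card with hG
  have hGc : Nat.count R M = G := (hcount M).symm
  have h1 : ∀ a, Nat.count R (M * a) = a * G := by
    intro a
    induction a with
    | zero => simp
    | succ a ih =>
      rw [Nat.mul_succ, Nat.count_add, ih]
      have : Nat.count (fun k => R (M * a + k)) M = G := by
        rw [← hGc, Nat.count_eq_card_filter_range, Nat.count_eq_card_filter_range]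
        congr 1
        refine filter_congr fun k _ => ?_
        rw [hR (M * a + k), Nat.mul_add_mod, ← hR k]
      rw [this]; ring
  have hlo : (J / M) * G ≤ Nat.count R J := by
    rw [← h1]; exact Nat.count_monotone R (Nat.mul_div_le J M)
  have hhi : Nat.count R J ≤ (J / M + 1) * G := by
    rw [← h1]
    exact Nat.count_monotone R (Nat.lt_mul_div_succ J hM).le
  clear_value G
  rw [hcount J]
  have hM' : (0:ℝ) < M := by exact_mod_cast hM
  have hG0 : (0:ℝ) ≤ G := by positivity
  have a1 : ((J / M : ℕ) : ℝ) ≤ (J:ℝ) / M := Nat.cast_div_le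
  have a2 : (J:ℝ) / M ≤ ((J / M : ℕ) : ℝ) + 1 := by
    rw [div_le_iff₀ hM']
    have := (Nat.lt_mul_div_succ J hM).le
    have h3 : (J:ℝ) ≤ M * ((J / M : ℕ) + 1 : ℕ) := by exact_mod_cast this
    push_cast at h3
    linarith
  have b1 : ((J / M : ℕ) : ℝ) * G ≤ (Nat.count R J : ℝ) := by exact_mod_cast hlo
  have b2 : (Nat.count R J : ℝ) ≤ (((J / M : ℕ) : ℝ) + 1) * G := by exact_mod_cast hhi
  have e : (J:ℝ) * G / M = (J:ℝ) / M * G := by ring
  rw [e, abs_le]
  have c1 := mul_le_mul_of_nonneg_right a1 hG0
  have c2 := mul_le_mul_of_nonneg_right a2 hG0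
  constructor <;> nlinarith

end Pool.Agent.H95.Gol
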