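import Mathlib
import Pool.Agent.H12.Brun
import Pool.Agent.H95.Gol.Crt

/-!
The Brun-Hooley sieve: a product of truncated inclusion-exclusion sums over blocks.
-/

namespace Pool.Agent.H95.Gol

open Finset Classical
open Pool.Agent.H12 (esym tsum' bonferroni esym_le esym_nonneg)

/-- indicator -/
noncomputable def ind (E : ℕ → ℕ → Prop) (j p : ℕ) : ℝ := if E p j then 1 else 0

lemma ind_range (E : ℕ → ℕ → Prop) (j p : ℕ) : 0 ≤ ind E j p ∧ ind E j p ≤ 1 := by
  unfold ind; split_ifs <;> norm_num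

lemma prod_ind (E : ℕ → ℕ → Prop) (j : ℕ) (D : Finset ℕ) :
    ∏ p ∈ D, ind E j p = if ∀ p ∈ D, E p j then 1 else 0 := by
  unfold ind
  split_ifs with h
  · exact prod_eq_one fun p hp => if_pos (h p hp)
  · push Not at h
    obtain ⟨p, hp, hpe⟩ := h
    exact prod_eq_zero hp (if_neg hpe)

/-- error constant of a block -/
noncomputable def Bd (Q : Finset ℕ) (g : ℕ → ℝ) (r : ℕ) : ℝ := ∑ t ∈ range (r+1), esym Q g t

lemma tsum'_eq (Q : Finset ℕ) (δ : ℕ → ℝ) (r : ℕ) :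
    tsum' Q δ r = ∑ t ∈ range (r+1), ∑ D ∈ Q.powersetCard t, (-1)^t * ∏ p ∈ D, δ p := by
  unfold tsum' esym
  refine sum_congr rfl fun t _ => ?_
  rw [mul_sum]

lemma Bd_eq (Q : Finset ℕ) (δ : ℕ → ℝ) (r : ℕ) :
    Bd Q δ r = ∑ t ∈ range (r+1), ∑ D ∈ Q.powersetCard t, ∏ p ∈ D, δ p := by
  unfold Bd esym; rfl

lemma Bd_nonneg (Q : Finset ℕ) (g : ℕ → ℝ) (hg : ∀ p ∈ Q, 0 ≤ g p) (r : ℕ) : 0 ≤ Bd Q g r :=
  sum_nonneg fun t _ => esym_nonneg Q g hg t

/-- the main identity, with error term -/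
lemma hooley_expand (J : ℕ) (P : Finset ℕ) (hP : ∀ p ∈ P, p.Prime) (E : ℕ → ℕ → Prop)
    (hE : ∀ p ∈ P, ∀ j, E p j ↔ E p (j % p^2)) (g : ℕ → ℝ)
    (hg : ∀ p ∈ P, (((range (p^2)).filter (E p)).card : ℝ) = g p)
    (Q : ℕ → Finset ℕ) (r : ℕ → ℕ) (m : ℕ) : (∀ i < m, Q i ⊆ P) →
    (∀ i < m, ∀ i' < m, i ≠ i' → Disjoint (Q i) (Q i')) → ∀ D0 ⊆ P,
    (∀ i < m, Disjoint D0 (Q i)) →
    |∑ j ∈ range J, (∏ p ∈ D0, ind E j p) * ∏ i ∈ range m, tsum' (Q i) (ind E j) (r i) -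
      J * ((∏ p ∈ D0, g p / p^2) * ∏ i ∈ range m, tsum' (Q i) (fun p => g p / p^2) (r i))| ≤
    (∏ p ∈ D0, g p) * ∏ i ∈ range m, Bd (Q i) g (r i) := by
  have hg0 : ∀ p ∈ P, 0 ≤ g p := fun p hp => by rw [← hg p hp]; exact Nat.cast_nonneg _
  induction m with
  | zero =>
    intro _ _ D0 hD0 _
    simp only [range_zero, prod_empty, mul_one]
    have hD0p : ∀ p ∈ D0, p.Prime := fun p hp => hP p (hD0 hp)
    have hM : 0 < ∏ p ∈ D0, p^2 := prod_pos fun p hp => pow_pos (hD0p p hp).pos 2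
    have h1 : ∑ j ∈ range J, ∏ p ∈ D0, ind E j p =
        (((range J).filter (fun j => ∀ p ∈ D0, E p j)).card : ℝ) := by
      rw [← sum_boole]
      exact sum_congr rfl fun j _ => prod_ind E j D0
    have h2 := card_crt D0 hD0p E (fun p hp => hE p (hD0 hp))
    have h3 : |(((range J).filter (fun j => ∀ p ∈ D0, E p j)).card : ℝ) -
        J * (((range (∏ p ∈ D0, p^2)).filter (fun j => ∀ p ∈ D0, E p j)).card : ℝ) /
          (∏ p ∈ D0, p^2 : ℕ)| ≤
        ((range (∏ p ∈ D0, p^2)).filter (fun j => ∀ p ∈ D0, E p j)).card := by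
      convert card_interval J (∏ p ∈ D0, p^2) hM (fun j => ∀ p ∈ D0, E p j) (by
        intro j
        refine forall₂_congr fun p hp => ?_
        rw [hE p (hD0 hp) (j % _), Nat.mod_mod_of_dvd _ (dvd_prod_of_mem (fun p => p^2) hp),
          ← hE p (hD0 hp) j])
    rw [h2] at h3
    have h4 : ((∏ p ∈ D0, ((range (p^2)).filter (E p)).card : ℕ) : ℝ) = ∏ p ∈ D0, g p := by
      push_cast
      exact prod_congr rfl fun p hp => hg p (hD0 hp)
    rw [h4] at h3
    rw [h1, prod_div_distrib]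
    push_cast at h3
    rw [mul_div_assoc] at h3
    exact h3
  | succ m ih =>
    intro hQ hdisj D0 hD0 hdD
    have ih' := ih (fun i hi => hQ i (by omega)) (fun i hi i' hi' => hdisj i (by omega) i' (by omega))
    -- abbreviations
    set T : ℕ → ℝ := fun i => tsum' (Q i) (fun p => g p / p^2) (r i) with hT
    set S : Finset ℕ → ℝ := fun D => ∑ j ∈ range J, (∏ p ∈ D, ind E j p) *
      ∏ i ∈ range m, tsum' (Q i) (ind E j) (r i) with hS
    have key : ∀ t, ∀ D ∈ (Q m).powersetCard t, D0 ∪ D ⊆ P ∧ Disjoint D0 D ∧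
        (∀ i < m, Disjoint (D0 ∪ D) (Q i)) := by
      intro t D hD
      rw [mem_powersetCard] at hD
      refine ⟨union_subset hD0 (hD.1.trans (hQ m (by omega))),
        (hdD m (by omega)).mono_right hD.1, fun i hi => ?_⟩
      rw [disjoint_union_left]
      exact ⟨hdD i (by omega), (hdisj m (by omega) i (by omega) (by omega)).mono_left hD.1⟩
    have e1 : ∑ j ∈ range J, (∏ p ∈ D0, ind E j p) *
        ∏ i ∈ range (m+1), tsum' (Q i) (ind E j) (r i) =
        ∑ t ∈ range (r m + 1), ∑ D ∈ (Q m).powersetCard t, (-1)^t * S (D0 ∪ D) := by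
      have : ∀ j ∈ range J, (∏ p ∈ D0, ind E j p) *
          ∏ i ∈ range (m+1), tsum' (Q i) (ind E j) (r i) =
          ∑ t ∈ range (r m + 1), ∑ D ∈ (Q m).powersetCard t, (-1)^t *
            ((∏ p ∈ D0 ∪ D, ind E j p) * ∏ i ∈ range m, tsum' (Q i) (ind E j) (r i)) := by
        intro j _
        rw [prod_range_succ, tsum'_eq (Q m), mul_sum, mul_sum]
        refine sum_congr rfl fun t _ => ?_
        rw [mul_sum, mul_sum]
        refine sum_congr rfl fun D hD => ?_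
        rw [prod_union (key t D hD).2.1]
        ring
      rw [sum_congr rfl this, sum_comm]
      refine sum_congr rfl fun t _ => ?_
      rw [sum_comm]
      refine sum_congr rfl fun D _ => ?_
      rw [hS, mul_sum]
    have e2 : (∏ p ∈ D0, g p / (p:ℝ)^2) * ∏ i ∈ range (m+1), T i =
        ∑ t ∈ range (r m + 1), ∑ D ∈ (Q m).powersetCard t, (-1)^t *
          ((∏ p ∈ D0 ∪ D, g p / (p:ℝ)^2) * ∏ i ∈ range m, T i) := by
      rw [prod_range_succ]
      have : T m = ∑ t ∈ range (r m + 1), ∑ D ∈ (Q m).powersetCard t,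
          (-1)^t * ∏ p ∈ D, g p / (p:ℝ)^2 := tsum'_eq (Q m) _ (r m)
      rw [this, mul_sum, mul_sum]
      refine sum_congr rfl fun t _ => ?_
      rw [mul_sum, mul_sum]
      refine sum_congr rfl fun D hD => ?_
      rw [prod_union (key t D hD).2.1]
      ring
    have e3 : (∏ p ∈ D0, g p) * ∏ i ∈ range (m+1), Bd (Q i) g (r i) =
        ∑ t ∈ range (r m + 1), ∑ D ∈ (Q m).powersetCard t,
          ((∏ p ∈ D0 ∪ D, g p) * ∏ i ∈ range m, Bd (Q i) g (r i)) := by
      rw [prod_range_succ, Bd_eq (Q m), mul_sum, mul_sum]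
      refine sum_congr rfl fun t _ => ?_
      rw [mul_sum, mul_sum]
      refine sum_congr rfl fun D hD => ?_
      rw [prod_union (key t D hD).2.1]
      ring
    rw [e1, e2, e3, mul_sum, ← sum_sub_distrib]
    refine (abs_sum_le_sum_abs _ _).trans (sum_le_sum fun t _ => ?_)
    rw [mul_sum, ← sum_sub_distrib]
    refine (abs_sum_le_sum_abs _ _).trans (sum_le_sum fun D hD => ?_)
    obtain ⟨k1, k2, k3⟩ := key t D hD
    have h := ih' (D0 ∪ D) k1 k3
    have e4 : (-1:ℝ)^t * S (D0 ∪ D) - J * ((-1)^t *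
        ((∏ p ∈ D0 ∪ D, g p / (p:ℝ)^2) * ∏ i ∈ range m, T i)) =
        (-1)^t * (S (D0 ∪ D) - J * ((∏ p ∈ D0 ∪ D, g p / (p:ℝ)^2) * ∏ i ∈ range m, T i)) := by
      ring
    rw [e4, abs_mul, abs_pow, abs_neg, abs_one, one_pow, one_mul]
    exact h

/-- the upper bound sieve inequality for blocks -/
lemma hooley_upper (J : ℕ) (P : Finset ℕ) (hP : ∀ p ∈ P, p.Prime) (E : ℕ → ℕ → Prop)
    (hE : ∀ p ∈ P, ∀ j, E p j ↔ E p (j % p^2)) (g : ℕ → ℝ)
    (hg : ∀ p ∈ P, (((range (p^2)).filter (E p)).card : ℝ) = g p)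
    (Q : ℕ → Finset ℕ) (r : ℕ → ℕ) (hr : ∀ i, Even (r i)) (m : ℕ) (hQ : ∀ i < m, Q i ⊆ P)
    (hdisj : ∀ i < m, ∀ i' < m, i ≠ i' → Disjoint (Q i) (Q i')) :
    (((range J).filter (fun j => ∀ p ∈ P, ¬ E p j)).card : ℝ) ≤
      J * ∏ i ∈ range m, tsum' (Q i) (fun p => g p / p^2) (r i) +
        ∏ i ∈ range m, Bd (Q i) g (r i) := by
  have h := hooley_expand J P hP E hE g hg Q r m hQ hdisj ∅ (empty_subset _)
    (fun i _ => disjoint_empty_left _)
  simp only [prod_empty, one_mul] at h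
  have h1 : (((range J).filter (fun j => ∀ p ∈ P, ¬ E p j)).card : ℝ) ≤
      ∑ j ∈ range J, ∏ i ∈ range m, tsum' (Q i) (ind E j) (r i) := by
    rw [← sum_boole (R := ℝ)]
    refine sum_le_sum fun j _ => ?_
    have hpos : ∀ i, ∏ p ∈ Q i, (1 - ind E j p) ≤ tsum' (Q i) (ind E j) (r i) := by
      intro i
      have := (bonferroni (Q i) (ind E j) (fun p _ => ind_range E j p) (r i)).1
      rw [(hr i).neg_one_pow, one_mul] at this
      linarith
    have hnn : ∀ i, 0 ≤ ∏ p ∈ Q i, (1 - ind E j p) := fun i =>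
      prod_nonneg fun p _ => by linarith [(ind_range E j p).2]
    split_ifs with hc
    · refine le_trans ?_ (prod_le_prod (fun i _ => hnn i) (fun i _ => hpos i))
      refine le_of_eq ?_
      symm
      refine prod_eq_one fun i hi => prod_eq_one fun p hp => ?_
      have : ind E j p = 0 := if_neg (hc p (hQ i (mem_range.mp hi) hp))
      rw [this, sub_zero]
    · exact prod_nonneg fun i _ => (hnn i).trans (hpos i)
  have h2 := (abs_le.mp h).2
  linarith

end Pool.Agent.H95.Gol
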