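import Mathlib
import Pool.Agent.H12.Brun
import Pool.Agent.H95.Gol.Hooley

/-!
The Brun-Hooley sieve with numerical parameters, given a bound for the sums of `1/l` over the
blocks.
-/

namespace Pool.Agent.H95.Gol

open Finset Classical
open Pool.Agent.H12 (esym tsum' bonferroni esym_le esym_nonneg)

lemma pow_div_fact_le (L : ℝ) (hL : 0 ≤ L) (n : ℕ) (s : Finset ℕ) :
    ∑ t ∈ s, L^t / (t.factorial : ℝ) ≤ Real.exp L := by
  rw [Real.exp_eq_exp_ℝ]
  have h := NormedSpace.expSeries_div_hasSum_exp (𝔸 := ℝ) L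
  rw [← h.tsum_eq]
  exact h.summable.sum_le_tsum s (fun i _ => by positivity)

/-- main term of one block -/
lemma block_main (Q : Finset ℕ) (δ : ℕ → ℝ) (hδ : ∀ p ∈ Q, 0 ≤ δ p ∧ δ p ≤ 1) (r : ℕ)
    (hr : Even r) (L : ℝ) (hL : ∑ p ∈ Q, δ p ≤ L) :
    tsum' Q δ r ≤ Real.exp (-∑ p ∈ Q, δ p) *
      (1 + Real.exp L * (L^(r+1) / ((r+1).factorial : ℝ))) := by
  have h := (bonferroni Q δ hδ r).2
  rw [hr.neg_one_pow, one_mul] at h
  have h5 := esym_le Q δ (fun p hp => (hδ p hp).1) (r+1)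
  have hS0 : 0 ≤ ∑ p ∈ Q, δ p := sum_nonneg fun p hp => (hδ p hp).1
  have hprod : ∏ p ∈ Q, (1 - δ p) ≤ Real.exp (-∑ p ∈ Q, δ p) := by
    rw [← sum_neg_distrib, Real.exp_sum]
    refine prod_le_prod (fun p hp => by linarith [(hδ p hp).2]) (fun p hp => ?_)
    have := Real.add_one_le_exp (-δ p)
    linarith
  have h6 : (∑ p ∈ Q, δ p)^(r+1) / ((r+1).factorial : ℝ) ≤ L^(r+1) / ((r+1).factorial : ℝ) :=
    div_le_div_of_nonneg_right (pow_le_pow_left₀ hS0 hL _) (by positivity)
  have h7 : 1 ≤ Real.exp (-∑ p ∈ Q, δ p) * Real.exp L := by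
    rw [← Real.exp_add]
    exact Real.one_le_exp (by linarith)
  have hL0 : 0 ≤ L := hS0.trans hL
  have h8 : 0 ≤ L^(r+1) / ((r+1).factorial : ℝ) := by positivity
  calc tsum' Q δ r ≤ ∏ p ∈ Q, (1 - δ p) + L^(r+1) / ((r+1).factorial : ℝ) := by linarith
    _ ≤ Real.exp (-∑ p ∈ Q, δ p) + (Real.exp (-∑ p ∈ Q, δ p) * Real.exp L) *
        (L^(r+1) / ((r+1).factorial : ℝ)) := by
        have := mul_le_mul_of_nonneg_right h7 h8
        linarith
    _ = _ := by ring

/-- error term of one block -/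
lemma block_err (Q : Finset ℕ) (g : ℕ → ℝ) (hg : ∀ p ∈ Q, 0 ≤ g p) (r : ℕ) (B : ℝ)
    (hB : 1 + ∑ p ∈ Q, g p ≤ B) : Bd Q g r ≤ B ^ r := by
  have hS0 : 0 ≤ ∑ p ∈ Q, g p := sum_nonneg hg
  have h1 : Bd Q g r ≤ (1 + ∑ p ∈ Q, g p)^r := by
    unfold Bd
    rw [add_comm (1:ℝ), add_pow]
    refine sum_le_sum fun t ht => ?_
    rw [mem_range] at ht
    refine (esym_le Q g hg t).trans ?_
    rw [one_pow, mul_one]
    have h2 : (1:ℝ) ≤ (r.choose t : ℝ) := by exact_mod_cast Nat.choose_pos (by omega)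
    have h3 : (1:ℝ) ≤ (t.factorial : ℝ) := by exact_mod_cast Nat.factorial_pos t
    have h4 : 0 ≤ (∑ p ∈ Q, g p)^t := by positivity
    calc (∑ p ∈ Q, g p)^t / (t.factorial : ℝ) ≤ (∑ p ∈ Q, g p)^t := div_le_self h4 h3
      _ ≤ (∑ p ∈ Q, g p)^t * (r.choose t : ℝ) := le_mul_of_one_le_right h4 h2
  exact h1.trans (pow_le_pow_left₀ (by linarith) hB r)

/-- `∑_{i<K} (i+1) 2^(K-i) ≤ 4 * 2^K` -/
lemma geom_exp (K : ℕ) : ∑ i ∈ range K, (i+1) * 2^(K-i) + (2 * K + 4) ≤ 4 * 2^K + 0 := by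
  induction K with
  | zero => simp
  | succ K ih =>
    have h1 : ∀ i ∈ range K, (i+1) * 2^(K+1-i) = 2 * ((i+1) * 2^(K-i)) := by
      intro i hi
      rw [mem_range] at hi
      rw [show K + 1 - i = (K - i) + 1 by omega, pow_succ]
      ring
    rw [sum_range_succ, sum_congr rfl h1, ← mul_sum, show K + 1 - K = 1 by omega, pow_succ]
    omega

/-- the sieve up to `bb K` for odd primes, in terms of the block sums -/
theorem sieve_blocks (Lb : ℝ) (hLb : ∀ k : ℕ, ∑ l ∈ PB k, (1:ℝ) / l ≤ Lb) (P : Finset ℕ)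
    (K J : ℕ) (E : ℕ → ℕ → Prop) (g : ℕ → ℕ) (hP : ∀ p ∈ P, p.Prime ∧ 2 < p ∧ p ≤ bb K)
    (hE : ∀ p ∈ P, ∀ j, E p j ↔ E p (j % p^2))
    (hg : ∀ p ∈ P, ((range (p^2)).filter (E p)).card = g p)
    (hg2 : ∀ p ∈ P, g p ≤ 2 * p) :
    (((range J).filter (fun j => ∀ p ∈ P, ¬ E p j)).card : ℝ) ≤
      J * (Real.exp (Real.exp (4 * Lb)) * Real.exp (- ∑ p ∈ P, (g p : ℝ) / p^2)) +
        (bb K : ℝ)^32 := by
  -- blocks, from the top
  set Q : ℕ → Finset ℕ := fun i => P ∩ PB (K - 1 - i) with hQ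
  set r : ℕ → ℕ := fun i => 2 * (i + 1) with hr
  have hprime : ∀ p ∈ P, p.Prime := fun p hp => (hP p hp).1
  have hgr : ∀ p ∈ P, (((range (p^2)).filter (E p)).card : ℝ) = (fun p => (g p : ℝ)) p :=
    fun p hp => by rw [hg p hp]
  have hdisjB : ∀ a b : ℕ, a ≠ b → Disjoint (PB a) (PB b) := by
    intro a b hab
    rw [disjoint_left]
    intro l h1 h2
    rw [mem_PB] at h1 h2
    rcases lt_or_gt_of_ne hab with h | h
    · have := bb_mono (show a + 1 ≤ b by omega)
      omega
    · have := bb_mono (show b + 1 ≤ a by omega)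
      omega
  have hup := hooley_upper J P hprime E hE (fun p => (g p : ℝ)) hgr Q r
    (fun i => ⟨i+1, by simp only [hr]; ring⟩) K (fun i _ => inter_subset_left)
    (fun i hi i' hi' hne => (hdisjB _ _ (by omega)).mono inter_subset_right inter_subset_right)
  have hPunion : P = (range K).biUnion Q := by
    ext p
    rw [mem_biUnion]
    constructor
    · intro hp
      obtain ⟨h1, h2, h3⟩ := hP p hp
      -- find the block
      have hex : ∃ k, p ≤ bb (k+1) ∧ k < K := by
        rcases Nat.eq_zero_or_pos K with h0 | h0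
        · subst h0
          have : bb 0 = 2 := rfl
          omega
        · exact ⟨K - 1, by rw [Nat.sub_add_cancel h0]; exact h3, by omega⟩
      have hfind := Nat.find_spec hex
      set k := Nat.find hex with hk
      refine ⟨K - 1 - k, mem_range.mpr (by omega), ?_⟩
      simp only [hQ, mem_inter]
      refine ⟨hp, ?_⟩
      rw [show K - 1 - (K - 1 - k) = k by omega, mem_PB]
      refine ⟨⟨?_, hfind.1⟩, h1⟩
      rcases Nat.eq_zero_or_pos k with h0 | h0
      · rw [h0]; exact h2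
      · have hmin := Nat.find_min hex (m := k - 1) (by omega)
        push Not at hmin
        by_contra hcon
        push Not at hcon
        have := hmin (by rw [Nat.sub_add_cancel h0]; exact hcon)
        omega
    · rintro ⟨i, -, hi⟩
      exact (mem_inter.mp hi).1
  have hdisjQ : ∀ i ∈ (range K : Finset ℕ), ∀ i' ∈ (range K : Finset ℕ), i ≠ i' →
      Disjoint (Q i) (Q i') := by
    intro i hi i' hi' hne
    rw [mem_range] at hi hi'
    exact (hdisjB _ _ (by omega)).mono inter_subset_right inter_subset_right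
  have hδ : ∀ p ∈ P, 0 ≤ (g p : ℝ) / (p:ℝ)^2 ∧ (g p : ℝ) / (p:ℝ)^2 ≤ 2 / p := by
    intro p hp
    have hp0 : (0:ℝ) < p := by exact_mod_cast (hprime p hp).pos
    refine ⟨by positivity, ?_⟩
    rw [div_le_div_iff₀ (by positivity) hp0]
    have : (g p : ℝ) ≤ 2 * p := by exact_mod_cast hg2 p hp
    nlinarith
  have hδ1 : ∀ p ∈ P, (g p : ℝ) / (p:ℝ)^2 ≤ 1 := by
    intro p hp
    refine (hδ p hp).2.trans ?_
    have : (2:ℝ) ≤ p := by exact_mod_cast (hP p hp).2.1.le
    rw [div_le_one (by linarith)]; exact this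
  have hLb0 : 0 ≤ Lb := le_trans (sum_nonneg fun l _ => by positivity) (hLb 0)
  have hS : ∀ i, ∑ p ∈ Q i, (g p : ℝ) / (p:ℝ)^2 ≤ 2 * Lb := by
    intro i
    calc ∑ p ∈ Q i, (g p : ℝ) / (p:ℝ)^2 ≤ ∑ p ∈ Q i, 2 * ((1:ℝ) / p) := by
          refine sum_le_sum fun p hp => ?_
          have := (hδ p (mem_inter.mp hp).1).2
          rw [mul_one_div]; exact this
      _ ≤ ∑ p ∈ PB (K - 1 - i), 2 * ((1:ℝ) / p) :=
          sum_le_sum_of_subset_of_nonneg inter_subset_right fun p _ _ => by positivity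
      _ = 2 * ∑ p ∈ PB (K - 1 - i), (1:ℝ) / p := by rw [mul_sum]
      _ ≤ 2 * Lb := by linarith [hLb (K - 1 - i)]
  -- main term
  have hmain : ∏ i ∈ range K, tsum' (Q i) (fun p => (g p : ℝ) / (p:ℝ)^2) (r i) ≤
      Real.exp (Real.exp (4 * Lb)) * Real.exp (- ∑ p ∈ P, (g p : ℝ) / p^2) := by
    set x : ℕ → ℝ := fun i => Real.exp (2 * Lb) * ((2 * Lb)^(r i + 1) / ((r i + 1).factorial : ℝ))
      with hx
    have hx0 : ∀ i, 0 ≤ x i := fun i => by positivity
    have h1 : ∏ i ∈ range K, tsum' (Q i) (fun p => (g p : ℝ) / (p:ℝ)^2) (r i) ≤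
        ∏ i ∈ range K, (Real.exp (-∑ p ∈ Q i, (g p : ℝ) / (p:ℝ)^2) * (1 + x i)) := by
      refine prod_le_prod (fun i _ => ?_) (fun i _ => ?_)
      · have hb := (bonferroni (Q i) (fun p => (g p : ℝ) / (p:ℝ)^2) (fun p hp =>
          ⟨(hδ p (mem_inter.mp hp).1).1, hδ1 p (mem_inter.mp hp).1⟩) (r i)).1
        rw [(show Even (r i) from ⟨i+1, by simp only [hr]; ring⟩).neg_one_pow, one_mul] at hb
        have : 0 ≤ ∏ p ∈ Q i, (1 - (g p : ℝ) / (p:ℝ)^2) :=
          prod_nonneg fun p hp => by linarith [hδ1 p (mem_inter.mp hp).1]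
        linarith
      · exact block_main (Q i) _ (fun p hp => ⟨(hδ p (mem_inter.mp hp).1).1,
          hδ1 p (mem_inter.mp hp).1⟩) (r i) ⟨i+1, by simp only [hr]; ring⟩ (2 * Lb) (hS i)
    refine h1.trans ?_
    rw [prod_mul_distrib, ← Real.exp_sum, sum_neg_distrib, ← sum_biUnion hdisjQ, ← hPunion, mul_comm]
    refine mul_le_mul_of_nonneg_right ?_ (Real.exp_pos _).le
    calc ∏ i ∈ range K, (1 + x i) ≤ ∏ i ∈ range K, Real.exp (x i) :=
          prod_le_prod (fun i _ => by linarith [hx0 i]) (fun i _ => by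
            have := Real.add_one_le_exp (x i); linarith)
      _ = Real.exp (∑ i ∈ range K, x i) := by rw [Real.exp_sum]
      _ ≤ Real.exp (Real.exp (4 * Lb)) := by
          apply Real.exp_le_exp.mpr
          rw [hx, ← mul_sum]
          have h2 : ∑ i ∈ range K, (2 * Lb)^(r i + 1) / ((r i + 1).factorial : ℝ) ≤
              Real.exp (2 * Lb) := by
            have hinj : Set.InjOn (fun i => r i + 1) (range K : Finset ℕ) := by
              intro a _ b _ hab
              simp only [hr] at hab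
              omega
            rw [← sum_image (f := fun t : ℕ => (2 * Lb)^t / (t.factorial : ℝ)) hinj]
            exact pow_div_fact_le (2 * Lb) (by positivity) 0 _
          calc Real.exp (2 * Lb) * ∑ i ∈ range K, (2 * Lb)^(r i + 1) / ((r i + 1).factorial : ℝ)
              ≤ Real.exp (2 * Lb) * Real.exp (2 * Lb) :=
                mul_le_mul_of_nonneg_left h2 (Real.exp_pos _).le
            _ = Real.exp (4 * Lb) := by rw [← Real.exp_add]; congr 1; ring
  -- error term
  have herr : ∏ i ∈ range K, Bd (Q i) (fun p => (g p : ℝ)) (r i) ≤ (bb K : ℝ)^32 := by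
    have h1 : ∀ i ∈ range K, Bd (Q i) (fun p => (g p : ℝ)) (r i) ≤
        (2:ℝ)^(8 * ((i+1) * 2^(K-i))) := by
      intro i hi
      rw [mem_range] at hi
      set y : ℕ := bb (K - i) with hy
      have hy2 : 2 ≤ y := two_le_bb _
      have hsub : Q i ⊆ range (y + 1) := by
        intro p hp
        have := (mem_PB.mp (mem_inter.mp hp).2).1.2
        rw [show K - 1 - i + 1 = K - i by omega] at this
        rw [mem_range]; omega
      have hsum : 1 + ∑ p ∈ Q i, (g p : ℝ) ≤ ((y:ℝ)^4) := by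
        have h2 : ∑ p ∈ Q i, (g p : ℝ) ≤ ∑ p ∈ Q i, (2 * (y:ℝ)) := by
          refine sum_le_sum fun p hp => ?_
          have h3 : (g p : ℝ) ≤ 2 * p := by exact_mod_cast hg2 p (mem_inter.mp hp).1
          have h4 : (p:ℝ) ≤ y := by
            have := mem_range.mp (hsub hp)
            exact_mod_cast (by omega : p ≤ y)
          linarith
        rw [sum_const, nsmul_eq_mul] at h2
        have h5 : ((Q i).card : ℝ) ≤ y := by
          have h6 : Q i ⊆ Ioc 0 y := by
            intro p hp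
            have a := mem_range.mp (hsub hp)
            have b := (hprime p (mem_inter.mp hp).1).pos
            rw [mem_Ioc]; omega
          have := card_le_card h6
          rw [Nat.card_Ioc] at this
          exact_mod_cast (by omega : (Q i).card ≤ y)
        have hyr : (2:ℝ) ≤ y := by exact_mod_cast hy2
        have h7 : ((Q i).card : ℝ) * (2 * (y:ℝ)) ≤ y * (2 * y) :=
          mul_le_mul_of_nonneg_right h5 (by positivity)
        nlinarith [mul_self_nonneg ((y:ℝ)^2 - 4), pow_pos (show (0:ℝ) < y by linarith) 2,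
          mul_le_mul hyr hyr (by norm_num) (by linarith)]
      refine (block_err (Q i) _ (fun p _ => Nat.cast_nonneg _) (r i) _ hsum).trans (le_of_eq ?_)
      rw [hy]
      unfold bb
      push_cast
      rw [← pow_mul, ← pow_mul]
      congr 1
      simp only [hr]
      ring
    calc ∏ i ∈ range K, Bd (Q i) (fun p => (g p : ℝ)) (r i) ≤
          ∏ i ∈ range K, (2:ℝ)^(8 * ((i+1) * 2^(K-i))) :=
          prod_le_prod (fun i _ => Bd_nonneg _ _ (fun p _ => Nat.cast_nonneg _) _) h1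
      _ = (2:ℝ)^(∑ i ∈ range K, 8 * ((i+1) * 2^(K-i))) := by rw [prod_pow_eq_pow_sum]
      _ ≤ (2:ℝ)^(32 * 2^K) := by
          refine pow_le_pow_right₀ (by norm_num) ?_
          rw [← mul_sum]
          have := geom_exp K
          omega
      _ = (bb K : ℝ)^32 := by
          unfold bb
          push_cast
          rw [← pow_mul]
          congr 1
          ring
  have hJ : (0:ℝ) ≤ J := Nat.cast_nonneg _
  have := mul_le_mul_of_nonneg_left hmain hJ
  linarith

end Pool.Agent.H95.Gol
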