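import Mathlib
import Pool.Agent.H95.Gol.SieveAux

/-!
The upper bound sieve in final form, from Mertens' theorem in blocks.
-/

namespace Pool.Agent.H95.Gol

open Finset Classical

lemma two_mul_le_two_pow (K : ℕ) : 2 * K ≤ 2 ^ K := by
  induction K with
  | zero => simp
  | succ K ih =>
    rw [pow_succ]
    rcases Nat.eq_zero_or_pos K with h | h
    · subst h; simp
    · have : 2 ≤ 2 ^ K := by
        calc 2 = 2 ^ 1 := by norm_num
          _ ≤ 2 ^ K := Nat.pow_le_pow_right (by norm_num) h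
      omega

lemma four_pow_le_bb (K : ℕ) : 4 ^ K ≤ bb K := by
  unfold bb
  rw [show (4:ℕ) = 2 ^ 2 by norm_num, ← pow_mul]
  exact Nat.pow_le_pow_right (by norm_num) (two_mul_le_two_pow K)

/-- the odd primes up to `bb K` are the union of the first `K` blocks -/
lemma exists_block {K p : ℕ} (hp : p.Prime) (h2 : 2 < p) (hK : p ≤ bb K) :
    ∃ k < K, p ∈ PB k := by
  have hex : ∃ k, p ≤ bb (k+1) ∧ k < K := by
    rcases Nat.eq_zero_or_pos K with h0 | h0
    · subst h0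
      have : bb 0 = 2 := rfl
      omega
    · exact ⟨K - 1, by rw [Nat.sub_add_cancel h0]; exact hK, by omega⟩
  have hfind := Nat.find_spec hex
  set k := Nat.find hex with hk
  refine ⟨k, hfind.2, ?_⟩
  rw [mem_PB]
  refine ⟨⟨?_, hfind.1⟩, hp⟩
  rcases Nat.eq_zero_or_pos k with h0 | h0
  · rw [h0]; exact h2
  · have hmin := Nat.find_min hex (m := k - 1) (by omega)
    push Not at hmin
    by_contra hcon
    push Not at hcon
    have := hmin (by rw [Nat.sub_add_cancel h0]; exact hcon)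
    omega

lemma PB_disjoint {a b : ℕ} (hab : a ≠ b) : Disjoint (PB a) (PB b) := by
  rw [disjoint_left]
  intro l h1 h2
  rw [mem_PB] at h1 h2
  rcases lt_or_gt_of_ne hab with h | h
  · have := bb_mono (show a + 1 ≤ b by omega)
    omega
  · have := bb_mono (show b + 1 ≤ a by omega)
    omega

lemma geom_half (a K : ℕ) : ∑ k ∈ Ico a (a + K), (1:ℝ) / 2 ^ k ≤ 2 / 2 ^ a := by
  have h : ∀ K : ℕ, ∑ k ∈ Ico a (a + K), (1:ℝ) / 2 ^ k = 2 / 2 ^ a - 2 / 2 ^ (a + K) := by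
    intro K
    induction K with
    | zero => simp
    | succ K ih =>
      rw [← add_assoc, sum_Ico_succ_top (by omega), ih, pow_succ (2:ℝ) (a + K)]
      field_simp
      ring
  rw [h K]
  have : (0:ℝ) ≤ 2 / 2 ^ (a + K) := by positivity
  linarith

lemma geom_half' (a b : ℕ) : ∑ k ∈ Ico a b, (1:ℝ) / 2 ^ k ≤ 2 / 2 ^ a := by
  rcases le_or_gt a b with h | h
  · obtain ⟨K, rfl⟩ := Nat.exists_eq_add_of_le h
    exact geom_half a K
  · rw [Ico_eq_empty (by omega), sum_empty]; positivity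

/-- Brun-Hooley upper bound sieve of dimension 2 with events periodic modulo `p^2` -/
theorem sieve_of_blk (hblk : ∃ C : ℝ, 0 < C ∧ ∀ k : ℕ,
      |∑ l ∈ PB k, (1:ℝ) / l - Real.log 2| ≤ C / 2 ^ k) :
    ∃ (A : ℕ) (C : ℝ), 0 < C ∧ ∀ (P : Finset ℕ) (z J : ℕ) (E : ℕ → ℕ → Prop)
    (g : ℕ → ℕ), 2 ≤ z → z ^ A ≤ J → (∀ p ∈ P, p.Prime ∧ p ≤ z) →
    (∀ p ∈ P, ∀ j, E p j ↔ E p (j % p^2)) →
    (∀ p ∈ P, ((range (p^2)).filter (E p)).card = g p) →
    (∀ p ∈ P, g p ≤ 2 * p ∧ 4 * g p ≤ 3 * p^2) →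
    (((range J).filter (fun j => ∀ p ∈ P, ¬ E p j)).card : ℝ) ≤
      C * J * Real.exp (- ∑ p ∈ P, (g p : ℝ) / p^2) := by
  obtain ⟨C0, hC0, hb⟩ := hblk
  set Lb : ℝ := Real.log 2 + C0 with hLb
  have hbu : ∀ k, ∑ l ∈ PB k, (1:ℝ) / l ≤ Real.log 2 + C0 / 2 ^ k := fun k => by
    have := (abs_le.mp (hb k)).2
    linarith
  have hLbk : ∀ k : ℕ, ∑ l ∈ PB k, (1:ℝ) / l ≤ Lb := fun k => by
    refine (hbu k).trans ?_
    have h1 : (1:ℝ) ≤ 2 ^ k := one_le_pow₀ (by norm_num)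
    have : C0 / 2 ^ k ≤ C0 := div_le_self hC0.le h1
    linarith
  set E0 : ℝ := Real.exp (Real.exp (4 * Lb)) with hE0
  have hE0pos : 0 < E0 := Real.exp_pos _
  refine ⟨66, E0 * Real.exp (3/4) + Real.exp (3/4 + 4 * C0), by positivity, ?_⟩
  intro P z J E g hz hJ hP hE hg hg2
  -- the scale
  have hex : ∃ K, z ≤ bb K := ⟨z, by
    unfold bb
    exact (Nat.lt_two_pow_self).le.trans (Nat.pow_le_pow_right (by norm_num) (Nat.lt_two_pow_self).le)⟩
  have hzK := Nat.find_spec hex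
  set K := Nat.find hex with hK
  have hbz : bb K ≤ z ^ 2 := by
    rcases Nat.eq_zero_or_pos K with h0 | h0
    · rw [h0]
      have : bb 0 = 2 := rfl
      rw [this]; nlinarith
    · have hmin := Nat.find_min hex (m := K - 1) (by omega)
      push Not at hmin
      have h1 : bb K = bb (K-1) ^ 2 := by
        rw [← bb_succ, Nat.sub_add_cancel h0]
      rw [h1]
      exact Nat.pow_le_pow_left hmin.le 2
  -- drop the prime 2
  set P' := P.filter (fun p => 2 < p) with hP'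
  have hP'P : P' ⊆ P := filter_subset _ _
  have hs := sieve_blocks Lb hLbk P' K J E g
    (fun p hp => ⟨(hP p (hP'P hp)).1, (mem_filter.mp hp).2, (hP p (hP'P hp)).2.trans hzK⟩)
    (fun p hp => hE p (hP'P hp)) (fun p hp => hg p (hP'P hp)) (fun p hp => (hg2 p (hP'P hp)).1)
  have hcard : (((range J).filter (fun j => ∀ p ∈ P, ¬ E p j)).card : ℝ) ≤
      (((range J).filter (fun j => ∀ p ∈ P', ¬ E p j)).card : ℝ) := by
    refine Nat.cast_le.mpr (card_le_card fun j hj => ?_)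
    rw [mem_filter] at hj ⊢
    exact ⟨hj.1, fun p hp => hj.2 p (hP'P hp)⟩
  -- the sum
  have hδ0 : ∀ p ∈ P, 0 ≤ (g p : ℝ) / (p:ℝ)^2 := fun p _ => by positivity
  have hsplit : ∑ p ∈ P, (g p : ℝ) / (p:ℝ)^2 ≤ ∑ p ∈ P', (g p : ℝ) / (p:ℝ)^2 + 3/4 := by
    have h1 : ∑ p ∈ P, (g p : ℝ) / (p:ℝ)^2 = ∑ p ∈ P', (g p : ℝ) / (p:ℝ)^2 +
        ∑ p ∈ P.filter (fun p => ¬ 2 < p), (g p : ℝ) / (p:ℝ)^2 :=
      (sum_filter_add_sum_filter_not P _ _).symm
    have h2 : P.filter (fun p => ¬ 2 < p) ⊆ {2} := by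
      intro p hp
      rw [mem_filter] at hp
      have := (hP p hp.1).1.two_le
      rw [mem_singleton]; omega
    have h3 : ∑ p ∈ P.filter (fun p => ¬ 2 < p), (g p : ℝ) / (p:ℝ)^2 ≤ 3/4 := by
      rcases Finset.subset_singleton_iff.mp h2 with h | h
      · rw [h, sum_empty]; norm_num
      · have h2P : 2 ∈ P := (mem_filter.mp (h ▸ mem_singleton_self 2)).1
        have h4 : (4:ℝ) * g 2 ≤ 3 * 2^2 := by exact_mod_cast (hg2 2 h2P).2
        rw [h, sum_singleton]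
        push_cast
        rw [div_le_iff₀ (by norm_num)]
        linarith
    linarith
  have hP'sum : ∑ p ∈ P', (g p : ℝ) / (p:ℝ)^2 ≤ 2 * (K * Real.log 2 + 2 * C0) := by
    have h1 : P' ⊆ (range K).biUnion PB := by
      intro p hp
      obtain ⟨k, hk, hpk⟩ := exists_block (hP p (hP'P hp)).1 (mem_filter.mp hp).2
        ((hP p (hP'P hp)).2.trans hzK)
      exact mem_biUnion.mpr ⟨k, mem_range.mpr hk, hpk⟩
    calc ∑ p ∈ P', (g p : ℝ) / (p:ℝ)^2 ≤ ∑ p ∈ P', 2 * ((1:ℝ) / p) := by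
          refine sum_le_sum fun p hp => ?_
          have hp0 : (0:ℝ) < p := by exact_mod_cast (hP p (hP'P hp)).1.pos
          rw [mul_one_div, div_le_div_iff₀ (by positivity) hp0]
          have : (g p : ℝ) ≤ 2 * p := by exact_mod_cast (hg2 p (hP'P hp)).1
          nlinarith
      _ ≤ ∑ p ∈ (range K).biUnion PB, 2 * ((1:ℝ) / p) :=
          sum_le_sum_of_subset_of_nonneg h1 fun p _ _ => by positivity
      _ ≤ ∑ k ∈ range K, ∑ p ∈ PB k, 2 * ((1:ℝ) / p) :=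
          le_of_eq (sum_biUnion fun a _ b _ hab => PB_disjoint hab)
      _ = 2 * ∑ k ∈ range K, ∑ p ∈ PB k, (1:ℝ) / p := by
          rw [mul_sum]
          exact sum_congr rfl fun k _ => by rw [mul_sum]
      _ ≤ 2 * ∑ k ∈ range K, (Real.log 2 + C0 * (1 / 2 ^ k)) := by
          refine mul_le_mul_of_nonneg_left (sum_le_sum fun k _ => ?_) (by norm_num)
          have := hbu k
          rw [mul_one_div]; exact this
      _ = 2 * (K * Real.log 2 + C0 * ∑ k ∈ Ico 0 K, 1 / 2 ^ k) := by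
          rw [sum_add_distrib, sum_const, card_range, nsmul_eq_mul, ← mul_sum,
            Nat.Ico_zero_eq_range]
      _ ≤ 2 * (K * Real.log 2 + 2 * C0) := by
          have := geom_half' 0 K
          rw [pow_zero, div_one] at this
          nlinarith
  have hexp : Real.exp (-(3/4 + 4 * C0)) * (4:ℝ)^(-(K:ℤ)) ≤
      Real.exp (- ∑ p ∈ P, (g p : ℝ) / (p:ℝ)^2) := by
    have h4 : (4:ℝ)^(-(K:ℤ)) = Real.exp (-(2 * K * Real.log 2)) := by
      rw [zpow_neg, zpow_natCast, Real.exp_neg]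
      congr 1
      rw [show (2 * (K:ℝ) * Real.log 2) = K * Real.log 4 by
        rw [show (4:ℝ) = 2^2 by norm_num, Real.log_pow]; push_cast; ring,
        Real.exp_nat_mul, Real.exp_log (by norm_num)]
    rw [h4, ← Real.exp_add]
    apply Real.exp_le_exp.mpr
    linarith
  have hJ' : (z:ℝ)^66 ≤ J := by exact_mod_cast hJ
  have hz0 : (2:ℝ) ≤ z := by exact_mod_cast hz
  have herr : (bb K : ℝ)^32 ≤ J * (4:ℝ)^(-(K:ℤ)) := by
    have h1 : (bb K : ℝ) ≤ (z:ℝ)^2 := by exact_mod_cast hbz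
    have h2 : ((4:ℝ)^K) ≤ (z:ℝ)^2 := by
      have : ((4:ℝ)^K) ≤ bb K := by exact_mod_cast four_pow_le_bb K
      linarith
    rw [zpow_neg, zpow_natCast, ← div_eq_mul_inv, le_div_iff₀ (by positivity)]
    calc (bb K : ℝ)^32 * 4^K ≤ ((z:ℝ)^2)^32 * (z:ℝ)^2 :=
          mul_le_mul (pow_le_pow_left₀ (by positivity) h1 32) h2 (by positivity) (by positivity)
      _ = (z:ℝ)^66 := by ring
      _ ≤ J := hJ'
  have hJ0 : (0:ℝ) ≤ J := Nat.cast_nonneg _
  set X : ℝ := Real.exp (- ∑ p ∈ P, (g p : ℝ) / (p:ℝ)^2) with hX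
  have hmain : Real.exp (- ∑ p ∈ P', (g p : ℝ) / (p:ℝ)^2) ≤ Real.exp (3/4) * X := by
    rw [hX, ← Real.exp_add]
    apply Real.exp_le_exp.mpr
    linarith
  have herr2 : (4:ℝ)^(-(K:ℤ)) ≤ Real.exp (3/4 + 4 * C0) * X := by
    have h1 : Real.exp (3/4 + 4 * C0) * (Real.exp (-(3/4 + 4 * C0)) * (4:ℝ)^(-(K:ℤ))) =
        (4:ℝ)^(-(K:ℤ)) := by
      rw [← mul_assoc, ← Real.exp_add, add_neg_cancel, Real.exp_zero, one_mul]
    rw [← h1]
    exact mul_le_mul_of_nonneg_left hexp (Real.exp_pos _).le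
  calc (((range J).filter (fun j => ∀ p ∈ P, ¬ E p j)).card : ℝ)
      ≤ J * (E0 * Real.exp (- ∑ p ∈ P', (g p : ℝ) / (p:ℝ)^2)) + (bb K : ℝ)^32 := hcard.trans hs
    _ ≤ J * (E0 * (Real.exp (3/4) * X)) + J * (Real.exp (3/4 + 4 * C0) * X) := by
        refine add_le_add (mul_le_mul_of_nonneg_left
          (mul_le_mul_of_nonneg_left hmain hE0pos.le) hJ0) (herr.trans
          (mul_le_mul_of_nonneg_left herr2 hJ0))
    _ = (E0 * Real.exp (3/4) + Real.exp (3/4 + 4 * C0)) * J * X := by ring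

end Pool.Agent.H95.Gol
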