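import Mathlib
import Pool.Agent.H95.Gol.Sieve

/-!
Two applications of the sieve: the numbers `w` with `P ∣ 4w-1`, `q ∣ w` (`countG`) and the rough
numbers `t` with `4u²t-1` free of a set of primes (`countRough`).
-/

namespace Pool.Agent.H95.Gol

open Finset Classical

lemma card_mod_eq (l : ℕ) (c : ℕ) (hc : c < l) :
    ((range (l^2)).filter (fun x => x % l = c)).card = l := by
  have h : (range (l^2)).filter (fun x => x % l = c) = (range l).image (fun i => c + l * i) := by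
    ext x
    simp only [mem_filter, mem_range, mem_image]
    constructor
    · rintro ⟨h1, h2⟩
      refine ⟨x / l, ?_, ?_⟩
      · rw [Nat.div_lt_iff_lt_mul (by omega)]; rwa [sq] at h1
      · rw [← h2]; exact Nat.mod_add_div x l
    · rintro ⟨i, hi, rfl⟩
      constructor
      · have : l * i + l ≤ l ^ 2 := by nlinarith
        omega
      · rw [Nat.add_mul_mod_self_left, Nat.mod_eq_of_lt hc]
  rw [h, card_image_of_injective, card_range]
  intro a b hab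
  simp only at hab
  exact Nat.eq_of_mul_eq_mul_left (by omega) (Nat.add_left_cancel hab)

lemma card_exact (l : ℕ) (hl : 0 < l) :
    ((range (l^2)).filter (fun x => l ∣ x ∧ ¬ l^2 ∣ x)).card = l - 1 := by
  have h : (range (l^2)).filter (fun x => l ∣ x ∧ ¬ l^2 ∣ x) =
      ((range (l^2)).filter (fun x => x % l = 0)).erase 0 := by
    ext x
    simp only [mem_filter, mem_range, mem_erase]
    constructor
    · rintro ⟨h1, h2, h3⟩
      refine ⟨?_, h1, Nat.mod_eq_zero_of_dvd h2⟩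
      rintro rfl
      exact h3 (dvd_zero _)
    · rintro ⟨h1, h2, h3⟩
      exact ⟨h2, Nat.dvd_of_mod_eq_zero h3, fun h => h1 (Nat.eq_zero_of_dvd_of_lt h h2)⟩
  rw [h, card_erase_of_mem, card_mod_eq l 0 hl]
  simp only [mem_filter, mem_range, Nat.zero_mod, and_true]
  positivity

lemma card_affine (a w0 N : ℕ) (ha : Nat.Coprime a N) (E : ℕ → Prop)
    (hE : ∀ x, E x ↔ E (x % N)) :
    ((range N).filter (fun j => E (w0 + a * j))).card = ((range N).filter E).card := by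
  rcases Nat.eq_zero_or_pos N with h0 | h0
  · subst h0; simp
  set f : ℕ → ℕ := fun j => (w0 + a * j) % N with hf
  have hinj : Set.InjOn f (range N : Finset ℕ) := by
    intro x hx y hy hxy
    rw [mem_coe, mem_range] at hx hy
    have h1 : w0 + a * x ≡ w0 + a * y [MOD N] := hxy
    have h2 : a * x ≡ a * y [MOD N] := Nat.ModEq.add_left_cancel' w0 h1
    have h3 : x ≡ y [MOD N] := Nat.ModEq.cancel_left_of_coprime (by rwa [Nat.gcd_comm]) h2
    rw [Nat.ModEq, Nat.mod_eq_of_lt hx, Nat.mod_eq_of_lt hy] at h3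
    exact h3
  have hmaps : (range N).image f ⊆ range N := by
    intro y hy
    obtain ⟨x, -, rfl⟩ := mem_image.mp hy
    exact mem_range.mpr (Nat.mod_lt _ h0)
  have himg : (range N).image f = range N :=
    eq_of_subset_of_card_le hmaps (by rw [card_image_of_injOn hinj])
  have h : (range N).filter E = ((range N).filter (fun j => E (w0 + a * j))).image f := by
    ext y
    simp only [mem_filter, mem_image, mem_range]
    constructor
    · rintro ⟨h1, h2⟩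
      have : y ∈ (range N).image f := by rw [himg]; exact mem_range.mpr h1
      obtain ⟨x, hx, rfl⟩ := mem_image.mp this
      exact ⟨x, ⟨mem_range.mp hx, (hE _).mpr h2⟩, rfl⟩
    · rintro ⟨x, ⟨hx, hxE⟩, rfl⟩
      exact ⟨Nat.mod_lt _ h0, (hE _).mp hxE⟩
  rw [h, card_image_of_injOn]
  exact hinj.mono (by
    intro x hx
    exact filter_subset _ _ hx)

lemma sum_inv_sq_le (S : Finset ℕ) (hS : ∀ l ∈ S, 2 ≤ l) : ∑ l ∈ S, (1:ℝ) / (l:ℝ)^2 ≤ 1 := by
  have h1 : S ⊆ Ioc 1 (S.sup id + 1) := by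
    intro l hl
    rw [mem_Ioc]
    have := le_sup (f := id) hl
    simp only [id] at this
    exact ⟨hS l hl, by omega⟩
  calc ∑ l ∈ S, (1:ℝ) / (l:ℝ)^2 ≤ ∑ l ∈ Ioc 1 (S.sup id + 1), (1:ℝ) / (l:ℝ)^2 :=
        sum_le_sum_of_subset_of_nonneg h1 fun _ _ _ => by positivity
    _ = ∑ l ∈ Ioc 1 (S.sup id + 1), ((l:ℝ)^2)⁻¹ := sum_congr rfl fun l _ => by rw [one_div]
    _ ≤ ((1:ℕ):ℝ)⁻¹ - ((S.sup id + 1 : ℕ) : ℝ)⁻¹ :=
        sum_Ioc_inv_sq_le_sub (by norm_num) (by omega)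
    _ ≤ 1 := by
        have : (0:ℝ) ≤ ((S.sup id + 1 : ℕ) : ℝ)⁻¹ := by positivity
        rw [Nat.cast_one, inv_one]; linarith

/-- the sum over blocks is at most the sum over all primes `≤ bb K` -/
lemma block_sum_le (K : ℕ) (h : ℕ → ℝ) (hh : ∀ l, 0 ≤ h l) :
    ∑ k ∈ range K, ∑ l ∈ PB k, h l ≤ ∑ l ∈ (range (bb K + 1)).filter Nat.Prime, h l := by
  rw [← sum_biUnion fun a _ b _ hab => PB_disjoint hab]
  refine sum_le_sum_of_subset_of_nonneg (fun l hl => ?_) fun _ _ _ => hh _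
  obtain ⟨k, hk, hl⟩ := mem_biUnion.mp hl
  rw [mem_PB] at hl
  rw [mem_range] at hk
  have := bb_mono (show k + 1 ≤ K by omega)
  rw [mem_filter, mem_range]
  exact ⟨by omega, hl.2⟩

lemma card_mul_eq_one (l a : ℕ) (hl : 2 ≤ l) (ha : Nat.Coprime a l) :
    ((range (l^2)).filter (fun x => (a * x) % l = 1)).card = l := by
  obtain ⟨c, hc, hc4⟩ := Nat.exists_mul_mod_eq_one_of_coprime ha (by omega)
  have h : (range (l^2)).filter (fun x => (a * x) % l = 1) =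
      (range (l^2)).filter (fun x => x % l = c) := by
    refine filter_congr fun x _ => ?_
    constructor
    · intro hx
      have h5 : a * x ≡ a * c [MOD l] := by rw [Nat.ModEq, hx, hc4]
      have h6 : x ≡ c [MOD l] :=
        Nat.ModEq.cancel_left_of_coprime (by rw [Nat.gcd_comm]; exact ha) h5
      rw [Nat.ModEq, Nat.mod_eq_of_lt hc] at h6
      exact h6
    · intro hx
      have h6 : x ≡ c [MOD l] := by rw [Nat.ModEq, hx, Nat.mod_eq_of_lt hc]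
      have h5 : a * x ≡ a * c [MOD l] := h6.mul_left a
      rw [Nat.ModEq] at h5
      rw [h5, hc4]
  rw [h]
  exact card_mod_eq l c hc

/-- the number of residues excluded by `l` in `countG` -/
noncomputable def gG (A₁ B₁ : ℕ → Prop) (l : ℕ) : ℕ :=
  (if A₁ l then l else 0) + (if B₁ l then l - 1 else 0)

/-- the events of `countG` -/
def EG (A₁ B₁ : ℕ → Prop) (w0 M l j : ℕ) : Prop :=
  (A₁ l ∧ (4 * (w0 + M * j)) % l = 1) ∨ (B₁ l ∧ l ∣ (w0 + M * j) ∧ ¬ l^2 ∣ (w0 + M * j))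

lemma EG_per (A₁ B₁ : ℕ → Prop) (w0 M l j : ℕ) :
    EG A₁ B₁ w0 M l j ↔ EG A₁ B₁ w0 M l (j % l^2) := by
  have hmod : w0 + M * j ≡ w0 + M * (j % l^2) [MOD l^2] :=
    (Nat.ModEq.mul_left M (Nat.mod_modEq j (l^2)).symm).add_left w0
  have hmodl : w0 + M * j ≡ w0 + M * (j % l^2) [MOD l] := hmod.of_dvd ⟨l, by ring⟩
  unfold EG
  have e1 : (4 * (w0 + M * j)) % l = (4 * (w0 + M * (j % l^2))) % l := hmodl.mul_left 4
  have e2 : l ∣ w0 + M * j ↔ l ∣ w0 + M * (j % l^2) := hmodl.dvd_iff (dvd_refl l)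
  have e3 : l^2 ∣ w0 + M * j ↔ l^2 ∣ w0 + M * (j % l^2) := hmod.dvd_iff (dvd_refl _)
  rw [e1, e2, e3]

lemma EG_card (A₁ B₁ : ℕ → Prop) (w0 M l : ℕ) (hl : l.Prime) (hl3 : 3 ≤ l) (hM : ¬ l ∣ M) :
    ((range (l^2)).filter (EG A₁ B₁ w0 M l)).card = gG A₁ B₁ l := by
  have hcop : Nat.Coprime M (l^2) := by
    refine Nat.Coprime.pow_right 2 ?_
    rw [Nat.coprime_comm, hl.coprime_iff_not_dvd]
    exact hM
  have h1 := card_affine M w0 (l^2) hcop (EG A₁ B₁ 0 1 l)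
    (fun x => EG_per A₁ B₁ 0 1 l x)
  have h2 : (range (l^2)).filter (EG A₁ B₁ w0 M l) =
      (range (l^2)).filter (fun j => EG A₁ B₁ 0 1 l (w0 + M * j)) := by
    refine filter_congr fun j _ => ?_
    unfold EG
    rw [zero_add, one_mul]
  rw [h2, h1]
  have h4 : Nat.Coprime 4 l := by
    rw [show (4:ℕ) = 2^2 by norm_num]
    refine Nat.Coprime.pow_left 2 ?_
    rw [Nat.coprime_primes Nat.prime_two hl]
    omega
  have hcA := card_mul_eq_one l 4 (by omega) h4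
  have hcB := card_exact l (by omega)
  have hdis : Disjoint ((range (l^2)).filter (fun x => A₁ l ∧ (4 * x) % l = 1))
      ((range (l^2)).filter (fun x => B₁ l ∧ l ∣ x ∧ ¬ l^2 ∣ x)) := by
    rw [disjoint_filter]
    rintro x _ ⟨_, h5⟩ ⟨_, h6, _⟩
    rw [Nat.mod_eq_zero_of_dvd (dvd_mul_of_dvd_right h6 4)] at h5
    omega
  have hsplit : (range (l^2)).filter (EG A₁ B₁ 0 1 l) =
      (range (l^2)).filter (fun x => A₁ l ∧ (4 * x) % l = 1) ∪
      (range (l^2)).filter (fun x => B₁ l ∧ l ∣ x ∧ ¬ l^2 ∣ x) := by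
    rw [← filter_or]
    refine filter_congr fun x _ => ?_
    unfold EG
    rw [zero_add, one_mul]
  rw [hsplit, card_union_of_disjoint hdis]
  unfold gG
  congr 1
  · by_cases hA : A₁ l
    · simp only [hA, true_and, if_true]
      exact hcA
    · simp [hA]
  · by_cases hB : B₁ l
    · simp only [hB, true_and, if_true]
      exact hcB
    · simp [hB]

lemma gG_le (A₁ B₁ : ℕ → Prop) (l : ℕ) (hl3 : 3 ≤ l) :
    gG A₁ B₁ l ≤ 2 * l ∧ 4 * gG A₁ B₁ l ≤ 3 * l^2 := by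
  have h1 : gG A₁ B₁ l + 1 ≤ 2 * l := by
    unfold gG
    split_ifs <;> omega
  refine ⟨by omega, ?_⟩
  nlinarith

lemma gG_ge (A₁ B₁ : ℕ → Prop) (l : ℕ) (hl : 3 ≤ l) :
    ((if A₁ l then (1:ℝ) else 0) + (if B₁ l then 1 else 0)) / l ≤
      (gG A₁ B₁ l : ℝ) / (l:ℝ)^2 + 1 / (l:ℝ)^2 := by
  have hl0 : (0:ℝ) < l := by exact_mod_cast (by omega : 0 < l)
  rw [← add_div, div_le_div_iff₀ hl0 (by positivity)]
  have hge : ((if A₁ l then (1:ℝ) else 0) + (if B₁ l then 1 else 0)) * l ≤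
      (gG A₁ B₁ l : ℝ) + 1 := by
    unfold gG
    rw [Nat.cast_add]
    split_ifs
    · rw [Nat.cast_sub (by omega)]; push_cast; linarith
    · push_cast; linarith
    · rw [Nat.cast_sub (by omega)]; push_cast; linarith
    · push_cast; linarith
  calc ((if A₁ l then (1:ℝ) else 0) + (if B₁ l then 1 else 0)) * (l:ℝ)^2 =
        (((if A₁ l then (1:ℝ) else 0) + (if B₁ l then 1 else 0)) * l) * l := by ring
    _ ≤ ((gG A₁ B₁ l : ℝ) + 1) * l := mul_le_mul_of_nonneg_right hge hl0.le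

/-- two solutions are congruent modulo `P q` -/
lemma cong_PQ (P q w ws : ℕ) (hP : Odd P) (hPq : Nat.Coprime P q) (hw : 1 ≤ w) (hws : 1 ≤ ws)
    (h1 : P ∣ 4 * w - 1) (h2 : P ∣ 4 * ws - 1) (h3 : q ∣ w) (h4 : q ∣ ws) :
    w = ws % (P * q) + (P * q) * (w / (P * q)) := by
  have h1' : (P:ℤ) ∣ (w:ℤ) - ws := by
    have a1 : (P:ℤ) ∣ 4 * (w:ℤ) - 1 := by
      have := Int.natCast_dvd_natCast.mpr h1
      rwa [Nat.cast_sub (by omega), Nat.cast_mul, Nat.cast_one] at this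
    have a2 : (P:ℤ) ∣ 4 * (ws:ℤ) - 1 := by
      have := Int.natCast_dvd_natCast.mpr h2
      rwa [Nat.cast_sub (by omega), Nat.cast_mul, Nat.cast_one] at this
    have a3 : (P:ℤ) ∣ 4 * ((w:ℤ) - ws) := by
      have := dvd_sub a1 a2
      rwa [show 4 * (w:ℤ) - 1 - (4 * ws - 1) = 4 * ((w:ℤ) - ws) by ring] at this
    refine (IsCoprime.dvd_of_dvd_mul_left ?_ a3)
    have : Nat.Coprime P 4 := by
      rw [show (4:ℕ) = 2^2 by norm_num]
      exact Nat.Coprime.pow_right 2 hP.coprime_two_right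
    exact_mod_cast this.isCoprime
  have h2' : (q:ℤ) ∣ (w:ℤ) - ws :=
    dvd_sub (Int.natCast_dvd_natCast.mpr h3) (Int.natCast_dvd_natCast.mpr h4)
  have h3' : ((P * q : ℕ):ℤ) ∣ (w:ℤ) - ws := by
    rw [Nat.cast_mul]
    exact IsCoprime.mul_dvd (by exact_mod_cast hPq.isCoprime) h1' h2'
  have h4' : ws % (P * q) = w % (P * q) := (Nat.modEq_iff_dvd).mpr h3'
  rw [h4']
  exact (Nat.mod_add_div w (P * q)).symm

/-- M9: the sieve for `w` with `P ∣ 4w-1`, `q ∣ w` -/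
theorem countG_of_blk (hblk : ∃ C : ℝ, 0 < C ∧ ∀ k : ℕ,
      |∑ l ∈ PB k, (1:ℝ) / l - Real.log 2| ≤ C / 2 ^ k) :
    ∃ (A : ℕ) (C : ℝ), 0 < C ∧ ∀ (P q W K : ℕ) (A₁ B₁ : ℕ → Prop), Odd P → 0 < q →
    Nat.Coprime P q → (bb K)^A * (P * q) ≤ W →
    (((Icc 1 W).filter (fun w => P ∣ 4 * w - 1 ∧ q ∣ w ∧
      (∀ l : ℕ, l.Prime → l ≤ bb K → A₁ l → ¬ l ∣ 2 * P * q → ¬ l ∣ 4 * w - 1) ∧
      (∀ l : ℕ, l.Prime → l ≤ bb K → B₁ l → ¬ l ∣ 2 * P * q → ¬ (l ∣ w ∧ ¬ l^2 ∣ w)))).card : ℝ) ≤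
      C * (W / (P * q)) * Real.exp (- ∑ k ∈ range K, ∑ l ∈ PB k,
        (if l ∣ 2 * P * q then (0:ℝ) else (if A₁ l then 1 else 0) + (if B₁ l then 1 else 0)) / l) := by
  obtain ⟨A, C, hC, hs⟩ := sieve_of_blk hblk
  refine ⟨A, 2 * C * Real.exp 1, by positivity, ?_⟩
  intro P q W K A₁ B₁ hP hq hPq hW
  set S := (Icc 1 W).filter (fun w => P ∣ 4 * w - 1 ∧ q ∣ w ∧
      (∀ l : ℕ, l.Prime → l ≤ bb K → A₁ l → ¬ l ∣ 2 * P * q → ¬ l ∣ 4 * w - 1) ∧
      (∀ l : ℕ, l.Prime → l ≤ bb K → B₁ l → ¬ l ∣ 2 * P * q → ¬ (l ∣ w ∧ ¬ l^2 ∣ w))) with hS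
  rcases S.eq_empty_or_nonempty with hemp | ⟨ws, hws⟩
  · rw [hemp, card_empty, Nat.cast_zero]; positivity
  have hPpos : 0 < P := hP.pos
  set M := P * q with hM
  have hMpos : 0 < M := Nat.mul_pos hPpos hq
  have hws' := hws
  rw [hS, mem_filter, mem_Icc] at hws'
  set w0 := ws % M with hw0
  have hcong : ∀ w ∈ S, w = w0 + M * (w / M) := by
    intro w hw
    rw [hS, mem_filter, mem_Icc] at hw
    exact cong_PQ P q w ws hP hPq hw.1.1 hws'.1.1 hw.2.1 hws'.2.1 hw.2.2.1 hws'.2.2.1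
  set J := W / M + 1 with hJ
  set Ps := (range (bb K + 1)).filter (fun l => l.Prime ∧ ¬ l ∣ 2 * P * q) with hPs
  have hPs1 : ∀ l ∈ Ps, l.Prime ∧ l ≤ bb K ∧ ¬ l ∣ 2 * P * q ∧ 3 ≤ l := by
    intro l hl
    rw [hPs, mem_filter, mem_range] at hl
    refine ⟨hl.2.1, by omega, hl.2.2, ?_⟩
    have h2 := hl.2.1.two_le
    rcases Nat.eq_or_lt_of_le h2 with h | h
    · exact absurd (h ▸ (⟨P * q, by ring⟩ : 2 ∣ 2 * P * q)) hl.2.2
    · exact h
  have hJA : (bb K)^A ≤ J := by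
    have : (bb K)^A ≤ W / M := by
      rw [Nat.le_div_iff_mul_le hMpos]; exact hW
    omega
  have hfin := hs Ps (bb K) J (EG A₁ B₁ w0 M) (gG A₁ B₁) (two_le_bb K) hJA
    (fun l hl => ⟨(hPs1 l hl).1, (hPs1 l hl).2.1⟩) (fun l _ j => EG_per A₁ B₁ w0 M l j)
    (fun l hl => EG_card A₁ B₁ w0 M l (hPs1 l hl).1 (hPs1 l hl).2.2.2 (fun h =>
      (hPs1 l hl).2.2.1 (by rw [mul_assoc]; exact dvd_mul_of_dvd_right h 2)))
    (fun l hl => gG_le A₁ B₁ l (hPs1 l hl).2.2.2)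
  -- the count of `S`
  have hScard : (S.card : ℝ) ≤
      (((range J).filter (fun j => ∀ p ∈ Ps, ¬ EG A₁ B₁ w0 M p j)).card : ℝ) := by
    refine Nat.cast_le.mpr ?_
    refine card_le_card_of_injOn (fun w => w / M) ?_ ?_
    · intro w hw
      have hwS := hw
      rw [mem_coe] at hwS
      have hwe := hcong w hwS
      rw [mem_coe, hS, mem_filter, mem_Icc] at hw
      rw [mem_coe, mem_filter, mem_range]
      refine ⟨?_, ?_⟩
      · have : w / M ≤ W / M := Nat.div_le_div_right hw.1.2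
        show w / M < J
        omega
      · intro l hl
        obtain ⟨hlp, hlK, hld, hl3⟩ := hPs1 l hl
        unfold EG
        rw [← hwe]
        rintro (⟨hA, h4⟩ | ⟨hB, h5⟩)
        · refine hw.2.2.2.1 l hlp hlK hA hld ?_
          have : (l:ℤ) ∣ 4 * (w:ℤ) - 1 := by
            have h6 : 1 ≡ 4 * w [MOD l] := by
              rw [Nat.ModEq, h4, Nat.mod_eq_of_lt (by omega)]
            have h7 := (Nat.modEq_iff_dvd).mp h6
            push_cast at h7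
            exact h7
          have h8 : ((4 * w - 1 : ℕ) : ℤ) = 4 * (w:ℤ) - 1 := by
            rw [Nat.cast_sub (by omega), Nat.cast_mul]; norm_num
          exact Int.natCast_dvd_natCast.mp (by rw [h8]; exact this)
        · exact hw.2.2.2.2 l hlp hlK hB hld h5
    · intro w hw w' hw' hww
      rw [mem_coe] at hw hw'
      have h1 := hcong w hw
      have h2 := hcong w' hw'
      simp only at hww
      rw [h1, h2, hww]
  have hsum : ∑ k ∈ range K, ∑ l ∈ PB k,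
        (if l ∣ 2 * P * q then (0:ℝ) else (if A₁ l then 1 else 0) + (if B₁ l then 1 else 0)) / l
      ≤ ∑ l ∈ Ps, (gG A₁ B₁ l : ℝ) / (l:ℝ)^2 + 1 := by
    have h0 : ∀ l : ℕ, 0 ≤ (if l ∣ 2 * P * q then (0:ℝ) else (if A₁ l then 1 else 0) +
        (if B₁ l then 1 else 0)) / l := by
      intro l
      have : (0:ℝ) ≤ (if l ∣ 2 * P * q then (0:ℝ) else (if A₁ l then 1 else 0) +
        (if B₁ l then 1 else 0)) := by
        split_ifs <;> norm_num
      positivity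
    refine (block_sum_le K _ h0).trans ?_
    have h1 : ∑ l ∈ (range (bb K + 1)).filter Nat.Prime, (if l ∣ 2 * P * q then (0:ℝ) else
        (if A₁ l then 1 else 0) + (if B₁ l then 1 else 0)) / l =
        ∑ l ∈ Ps, ((if A₁ l then (1:ℝ) else 0) + (if B₁ l then 1 else 0)) / l := by
      rw [hPs, ← filter_filter, sum_filter (fun l => ¬ l ∣ 2 * P * q)]
      refine sum_congr rfl fun l _ => ?_
      by_cases h : l ∣ 2 * P * q
      · simp [h]
      · simp [h]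
    rw [h1]
    calc ∑ l ∈ Ps, ((if A₁ l then (1:ℝ) else 0) + (if B₁ l then 1 else 0)) / l
        ≤ ∑ l ∈ Ps, ((gG A₁ B₁ l : ℝ) / (l:ℝ)^2 + 1 / (l:ℝ)^2) :=
          sum_le_sum fun l hl => gG_ge A₁ B₁ l (hPs1 l hl).2.2.2
      _ = ∑ l ∈ Ps, (gG A₁ B₁ l : ℝ) / (l:ℝ)^2 + ∑ l ∈ Ps, 1 / (l:ℝ)^2 := sum_add_distrib
      _ ≤ ∑ l ∈ Ps, (gG A₁ B₁ l : ℝ) / (l:ℝ)^2 + 1 := by
          have := sum_inv_sq_le Ps (fun l hl => by have := (hPs1 l hl).2.2.2; omega)
          linarith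
  have hJr : (J:ℝ) ≤ 2 * (W / (P * q)) := by
    have h1 : (1:ℝ) ≤ (W:ℝ) / (P * q) := by
      rw [le_div_iff₀ (by exact_mod_cast hMpos), one_mul]
      have h2 : P * q ≤ W := by
        refine le_trans ?_ hW
        exact Nat.le_mul_of_pos_left _ (pow_pos (bb_pos K) _)
      exact_mod_cast h2
    have h3 : ((W / M : ℕ) : ℝ) ≤ (W:ℝ) / (M:ℝ) := Nat.cast_div_le
    rw [hJ, Nat.cast_add, Nat.cast_one]
    rw [hM, Nat.cast_mul] at h3
    linarith
  refine hScard.trans (hfin.trans ?_)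
  have he : Real.exp (- ∑ l ∈ Ps, (gG A₁ B₁ l : ℝ) / (l:ℝ)^2) ≤ Real.exp 1 *
      Real.exp (- ∑ k ∈ range K, ∑ l ∈ PB k,
        (if l ∣ 2 * P * q then (0:ℝ) else (if A₁ l then 1 else 0) + (if B₁ l then 1 else 0)) / l) := by
    rw [← Real.exp_add]
    apply Real.exp_le_exp.mpr
    linarith
  calc C * J * Real.exp (- ∑ l ∈ Ps, (gG A₁ B₁ l : ℝ) / (l:ℝ)^2)
      ≤ C * (2 * (W / (P * q))) * (Real.exp 1 * Real.exp (- ∑ k ∈ range K, ∑ l ∈ PB k,
        (if l ∣ 2 * P * q then (0:ℝ) else (if A₁ l then 1 else 0) + (if B₁ l then 1 else 0)) / l)) := by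
        refine mul_le_mul (mul_le_mul_of_nonneg_left hJr hC.le) he (Real.exp_pos _).le ?_
        positivity
    _ = _ := by ring

/-- the number of residues excluded by `l` in `countRough` -/
noncomputable def gR (Q : Finset ℕ) (l : ℕ) : ℕ := l + (if l ∈ Q then l else 0)

/-- the events of `countRough` -/
def ER (Q : Finset ℕ) (a l j : ℕ) : Prop := j % l = 0 ∨ (l ∈ Q ∧ (a * j) % l = 1)

lemma ER_per (Q : Finset ℕ) (a l j : ℕ) : ER Q a l j ↔ ER Q a l (j % l^2) := by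
  have hmod : j ≡ j % l^2 [MOD l] := ((Nat.mod_modEq j (l^2)).symm).of_dvd ⟨l, by ring⟩
  unfold ER
  have e1 : j % l = (j % l^2) % l := hmod
  have e2 : (a * j) % l = (a * (j % l^2)) % l := hmod.mul_left a
  rw [e2, ← e1]

lemma ER_card (Q : Finset ℕ) (a l : ℕ) (hl : 2 ≤ l) (hQ : l ∈ Q → Nat.Coprime a l) :
    ((range (l^2)).filter (ER Q a l)).card = gR Q l := by
  have hdis : Disjoint ((range (l^2)).filter (fun x => x % l = 0))
      ((range (l^2)).filter (fun x => l ∈ Q ∧ (a * x) % l = 1)) := by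
    rw [disjoint_filter]
    rintro x _ h5 ⟨_, h6⟩
    rw [Nat.mul_mod, h5, mul_zero, Nat.zero_mod] at h6
    omega
  have hsplit : (range (l^2)).filter (ER Q a l) = (range (l^2)).filter (fun x => x % l = 0) ∪
      (range (l^2)).filter (fun x => l ∈ Q ∧ (a * x) % l = 1) := by
    rw [← filter_or]
    refine filter_congr fun x _ => ?_
    rfl
  rw [hsplit, card_union_of_disjoint hdis, card_mod_eq l 0 (by omega)]
  unfold gR
  congr 1
  by_cases hlQ : l ∈ Q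
  · simp only [hlQ, true_and, if_true]
    exact card_mul_eq_one l a hl (hQ hlQ)
  · simp [hlQ]

/-- M10: the sieve for `t ≤ T` without prime factors `≤ bb K`, with `4u²t - 1` avoiding `Q` -/
theorem countRough_of_blk (hblk : ∃ C : ℝ, 0 < C ∧ ∀ k : ℕ,
      |∑ l ∈ PB k, (1:ℝ) / l - Real.log 2| ≤ C / 2 ^ k) :
    ∃ (A : ℕ) (C : ℝ), 0 < C ∧ ∀ (u T K : ℕ) (Q : Finset ℕ), 0 < u →
    (∀ l ∈ Q, l.Prime ∧ ¬ l ∣ 2 * u ∧ l ≤ bb K) → (bb K)^A ≤ T →
    (((Icc 1 T).filter (fun t => (∀ l : ℕ, l.Prime → l ≤ bb K → ¬ l ∣ t) ∧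
      ∀ l ∈ Q, ¬ l ∣ 4 * u^2 * t - 1)).card : ℝ) ≤
      C * T * Real.exp (- ∑ k ∈ range K, ∑ l ∈ PB k, (1:ℝ)/l) *
        Real.exp (- ∑ l ∈ Q, (1:ℝ)/l) := by
  obtain ⟨A, C, hC, hs⟩ := sieve_of_blk hblk
  refine ⟨A, 2 * C, by positivity, ?_⟩
  intro u T K Q hu hQ hT
  set Ps := (range (bb K + 1)).filter Nat.Prime with hPs
  have hPs1 : ∀ l ∈ Ps, l.Prime ∧ l ≤ bb K := by
    intro l hl
    rw [hPs, mem_filter, mem_range] at hl
    exact ⟨hl.2, by omega⟩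
  have hQP : Q ⊆ Ps := by
    intro l hl
    rw [hPs, mem_filter, mem_range]
    have := (hQ l hl).2.2
    exact ⟨by omega, (hQ l hl).1⟩
  have hQ3 : ∀ l ∈ Q, 3 ≤ l := by
    intro l hl
    have h2 := (hQ l hl).1.two_le
    rcases Nat.eq_or_lt_of_le h2 with h | h
    · exact absurd (h ▸ (dvd_mul_right 2 u)) (hQ l hl).2.1
    · exact h
  have hQc : ∀ l ∈ Q, Nat.Coprime (4 * u^2) l := by
    intro l hl
    rw [Nat.coprime_comm, (hQ l hl).1.coprime_iff_not_dvd]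
    intro h
    have h4 : l ∣ (2 * u)^2 := by rw [show (2 * u)^2 = 4 * u^2 by ring]; exact h
    exact (hQ l hl).2.1 ((hQ l hl).1.dvd_of_dvd_pow h4)
  have hgb : ∀ l ∈ Ps, gR Q l ≤ 2 * l ∧ 4 * gR Q l ≤ 3 * l^2 := by
    intro l hl
    obtain ⟨hlp, hlK⟩ := hPs1 l hl
    have h2 := hlp.two_le
    unfold gR
    by_cases hlQ : l ∈ Q
    · have h3 := hQ3 l hlQ
      simp only [hlQ, if_true]
      exact ⟨by omega, by nlinarith⟩
    · simp only [hlQ, if_false]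
      exact ⟨by omega, by nlinarith⟩
  have hfin := hs Ps (bb K) (T + 1) (ER Q (4 * u^2)) (gR Q) (two_le_bb K) (by omega)
    hPs1 (fun l _ j => ER_per Q (4 * u^2) l j)
    (fun l hl => ER_card Q (4 * u^2) l (hPs1 l hl).1.two_le (fun h => hQc l h)) hgb
  have hcard : (((Icc 1 T).filter (fun t => (∀ l : ℕ, l.Prime → l ≤ bb K → ¬ l ∣ t) ∧
      ∀ l ∈ Q, ¬ l ∣ 4 * u^2 * t - 1)).card : ℝ) ≤
      (((range (T + 1)).filter (fun j => ∀ p ∈ Ps, ¬ ER Q (4 * u^2) p j)).card : ℝ) := by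
    refine Nat.cast_le.mpr (card_le_card fun t ht => ?_)
    rw [mem_filter, mem_Icc] at ht
    rw [mem_filter, mem_range]
    refine ⟨by omega, fun l hl => ?_⟩
    obtain ⟨hlp, hlK⟩ := hPs1 l hl
    unfold ER
    rintro (h | ⟨h, h4⟩)
    · exact ht.2.1 l hlp hlK (Nat.dvd_of_mod_eq_zero h)
    · refine ht.2.2 l h ?_
      have h3 := hQ3 l h
      have h5 : 1 ≤ 4 * u^2 * t := Nat.mul_pos (by positivity) (by omega)
      have : (l:ℤ) ∣ ((4 * u^2 * t : ℕ) : ℤ) - 1 := by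
        have h6 : 1 ≡ 4 * u^2 * t [MOD l] := by
          rw [Nat.ModEq, h4, Nat.mod_eq_of_lt (by omega)]
        have h7 := (Nat.modEq_iff_dvd).mp h6
        rw [Nat.cast_one] at h7
        exact h7
      have h8 : ((4 * u^2 * t - 1 : ℕ) : ℤ) = ((4 * u^2 * t : ℕ) : ℤ) - 1 := by
        rw [Nat.cast_sub h5, Nat.cast_one]
      exact Int.natCast_dvd_natCast.mp (by rw [h8]; exact this)
  have hsum : ∑ k ∈ range K, ∑ l ∈ PB k, (1:ℝ)/l + ∑ l ∈ Q, (1:ℝ)/l ≤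
      ∑ l ∈ Ps, (gR Q l : ℝ) / (l:ℝ)^2 := by
    have h1 : ∑ l ∈ Ps, (gR Q l : ℝ) / (l:ℝ)^2 = ∑ l ∈ Ps, (1:ℝ)/l + ∑ l ∈ Q, (1:ℝ)/l := by
      have h2 : ∑ l ∈ Q, (1:ℝ)/l = ∑ l ∈ Ps, (if l ∈ Q then (1:ℝ)/l else 0) := by
        rw [← sum_filter]
        congr 1
        ext l
        rw [mem_filter]
        exact ⟨fun h => ⟨hQP h, h⟩, fun h => h.2⟩
      rw [h2, ← sum_add_distrib]
      refine sum_congr rfl fun l hl => ?_
      have hl0 : (0:ℝ) < l := by exact_mod_cast (hPs1 l hl).1.pos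
      unfold gR
      split_ifs
      · push_cast; field_simp
      · push_cast; field_simp
        norm_num
    rw [h1]
    have := block_sum_le K (fun l => (1:ℝ)/l) (fun l => by positivity)
    linarith
  have hT1 : (((T + 1 : ℕ) : ℝ)) ≤ 2 * T := by
    have h1 : 1 ≤ T := le_trans (Nat.one_le_pow _ _ (bb_pos K)) hT
    have : (1:ℝ) ≤ T := by exact_mod_cast h1
    push_cast; linarith
  refine hcard.trans (hfin.trans ?_)
  have he : Real.exp (- ∑ l ∈ Ps, (gR Q l : ℝ) / (l:ℝ)^2) ≤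
      Real.exp (- ∑ k ∈ range K, ∑ l ∈ PB k, (1:ℝ)/l) * Real.exp (- ∑ l ∈ Q, (1:ℝ)/l) := by
    rw [← Real.exp_add]
    apply Real.exp_le_exp.mpr
    linarith
  calc C * ((T + 1 : ℕ) : ℝ) * Real.exp (- ∑ l ∈ Ps, (gR Q l : ℝ) / (l:ℝ)^2)
      ≤ C * (2 * T) * (Real.exp (- ∑ k ∈ range K, ∑ l ∈ PB k, (1:ℝ)/l) *
          Real.exp (- ∑ l ∈ Q, (1:ℝ)/l)) := by
        refine mul_le_mul (mul_le_mul_of_nonneg_left hT1 hC.le) he (Real.exp_pos _).le ?_
        positivity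
    _ = _ := by ring

end Pool.Agent.H95.Gol
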