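import Mathlib
import Pool.Agent.H95.Gol.Count

/-!
Lower bounds for the exponent of the sieve, quadratic reciprocity, and the quadratic residue form
of the condition `Good`.
-/

namespace Pool.Agent.H95.Gol

open Finset Classical NumberTheorySymbols

lemma F_prime_nat (q l : ℕ) (hl : l.Prime) (hl2 : l ≠ 2) (hlq : ¬ l ∣ q) :
    F (q : ℤ) l = if IsSquare ((q : ℕ) : ZMod l) then 1 else -1 := by
  have : Fact l.Prime := ⟨hl⟩
  have hodd : Odd l := hl.odd_of_ne_two hl2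
  unfold F
  rw [if_pos hodd, ← jacobiSym.legendreSym.to_jacobiSym]
  have h0 : ((q : ℕ) : ZMod l) ≠ 0 := by rwa [Ne, ZMod.natCast_eq_zero_iff]
  by_cases h : IsSquare ((q : ℕ) : ZMod l)
  · rw [if_pos h, (legendreSym.eq_one_iff' l h0).mpr h]; norm_num
  · rw [if_neg h, (legendreSym.eq_neg_one_iff' l).mpr h]; norm_num

/-- quadratic reciprocity: the character `l ↦ (l|p)` is `F (± p)` -/
lemma recip (p : ℕ) (hp : p.Prime) (hp2 : p ≠ 2) : ∃ s : ℤ, (s = 1 ∨ s = -1) ∧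
    ∀ l : ℕ, l.Prime → l ≠ 2 → l ≠ p →
      F (s * p) l = if IsSquare ((l : ℕ) : ZMod p) then 1 else -1 := by
  have hf : Fact p.Prime := ⟨hp⟩
  have hpo : Odd p := hp.odd_of_ne_two hp2
  have key : ∀ l : ℕ, l.Prime → l ≠ p → ∀ x : ℤ, x = jacobiSym (l : ℤ) p →
      ((x : ℤ) : ℝ) = @ite ℝ (IsSquare ((l : ℕ) : ZMod p)) (propDecidable _) 1 (-1) := by
    intro l hl hlp x hx
    rw [hx, ← jacobiSym.legendreSym.to_jacobiSym]
    have h0 : ((l : ℕ) : ZMod p) ≠ 0 := by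
      rw [Ne, ZMod.natCast_eq_zero_iff]
      intro h
      exact hlp ((Nat.prime_dvd_prime_iff_eq hp hl).mp h).symm
    by_cases h : IsSquare ((l : ℕ) : ZMod p)
    · rw [if_pos h, (legendreSym.eq_one_iff' p h0).mpr h]; norm_num
    · rw [if_neg h, (legendreSym.eq_neg_one_iff' p).mpr h]; norm_num
  have hcase : p % 4 = 1 ∨ p % 4 = 3 := by
    have := Nat.odd_iff.mp hpo
    omega
  rcases hcase with h4 | h4
  · refine ⟨1, Or.inl rfl, fun l hl hl2 hlp => ?_⟩
    have hlo : Odd l := hl.odd_of_ne_two hl2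
    have h5 : jacobiSym (1 * (p:ℤ)) l = jacobiSym (l : ℤ) p := by
      rw [one_mul, jacobiSym.quadratic_reciprocity_one_mod_four h4 hlo]
    have h6 := key l hl hlp _ h5
    unfold F
    rw [if_pos hlo]
    convert h6 using 1
  · refine ⟨-1, Or.inr rfl, fun l hl hl2 hlp => ?_⟩
    have hlo : Odd l := hl.odd_of_ne_two hl2
    have h5 : jacobiSym (-1 * (p:ℤ)) l = jacobiSym (l : ℤ) p := by
      rw [jacobiSym.mul_left, jacobiSym.at_neg_one hlo]
      have hl4 : l % 4 = 1 ∨ l % 4 = 3 := by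
        have := Nat.odd_iff.mp hlo
        omega
      rcases hl4 with h | h
      · rw [ZMod.χ₄_nat_one_mod_four h, one_mul,
          jacobiSym.quadratic_reciprocity_one_mod_four' hpo h]
      · rw [ZMod.χ₄_nat_three_mod_four h, jacobiSym.quadratic_reciprocity_three_mod_four h4 h]
        simp
    have h6 := key l hl hlp _ h5
    unfold F
    rw [if_pos hlo]
    convert h6 using 1

lemma good_sq {w p q : ℕ} (hG : Good w) (hp : p.Prime) (hpw : p ∣ 4 * w - 1)
    (hq : q.Prime) (hqw : Odd (padicValNat q w)) : IsSquare ((q : ℕ) : ZMod p) := by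
  have hf : Fact p.Prime := ⟨hp⟩
  by_contra hcon
  have h0 : ((q : ℕ) : ZMod p) ≠ 0 := by
    intro h
    rw [h] at hcon
    exact hcon (IsSquare.zero)
  have h1 := ZMod.euler_criterion p h0
  have h2 : ((q : ℕ) : ZMod p) ^ (p / 2) ≠ 1 := fun h => hcon (h1.mpr h)
  rcases ZMod.pow_div_two_eq_neg_one_or_one p h0 with h | h
  · exact h2 h
  · exact hG p q hp hq hpw hqw (p / 2) h

lemma dvd_of_odd_val {w q : ℕ} (hqw : Odd (padicValNat q w)) : q ∣ w := by
  by_contra hcon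
  rw [padicValNat.eq_zero_of_not_dvd hcon] at hqw
  exact absurd hqw (by decide)

lemma odd_val_of_exact {w l : ℕ} (hl : l.Prime) (hw : 1 ≤ w) (h1 : l ∣ w) (h2 : ¬ l^2 ∣ w) :
    Odd (padicValNat l w) := by
  have hf : Fact l.Prime := ⟨hl⟩
  have h3 : padicValNat l w = 1 := by
    apply le_antisymm
    · by_contra hcon
      push Not at hcon
      exact h2 ((padicValNat_dvd_iff_le (by omega)).mpr hcon)
    · exact one_le_padicValNat_of_dvd (by omega) h1
  rw [h3]; exact odd_one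

lemma not_dvd_both {w l : ℕ} (hl : l.Prime) (hw : 1 ≤ w) (h1 : l ∣ w) : ¬ l ∣ 4 * w - 1 := by
  intro h2
  have h3 : l ∣ 4 * w := Dvd.dvd.mul_left h1 4
  have h4 := Nat.dvd_sub h3 h2
  rw [show 4 * w - (4 * w - 1) = 1 by omega] at h4
  exact hl.one_lt.ne' (Nat.dvd_one.mp h4)

/-- the primes dividing `N` contribute little -/
lemma excl_sum (N : ℕ) (hN : N ≠ 0) (K : ℕ) :
    ∑ k ∈ range K, ∑ l ∈ PB k, (if l ∣ N then (1:ℝ) else 0) / l ≤ N.primeFactors.card := by
  refine (block_sum_le K (fun l => (if l ∣ N then (1:ℝ) else 0) / l) (fun l => by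
    split_ifs <;> positivity)).trans ?_
  calc ∑ l ∈ (range (bb K + 1)).filter Nat.Prime, (if l ∣ N then (1:ℝ) else 0) / l
      ≤ ∑ l ∈ (range (bb K + 1)).filter Nat.Prime, (if l ∈ N.primeFactors then (1:ℝ) else 0) := by
        refine sum_le_sum fun l hl => ?_
        have hlp := (mem_filter.mp hl).2
        have hl1 : (1:ℝ) ≤ l := by exact_mod_cast hlp.one_lt.le
        by_cases h : l ∣ N
        · rw [if_pos h, if_pos (Nat.mem_primeFactors.mpr ⟨hlp, h, hN⟩), div_le_one (by linarith)]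
          exact hl1
        · rw [if_neg h, zero_div]
          split_ifs <;> norm_num
    _ = (((range (bb K + 1)).filter Nat.Prime).filter (fun l => l ∈ N.primeFactors)).card := by
        rw [card_filter]; push_cast; rfl
    _ ≤ N.primeFactors.card := by
        refine Nat.cast_le.mpr (card_le_card fun l hl => ?_)
        exact (mem_filter.mp hl).2

/-- lower bound for a part of the exponent -/
lemma expo_lower (N : ℕ) (hN : N ≠ 0) (K : ℕ) (A : ℕ → Prop) (h : ℕ → ℕ → ℝ)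
    (hle : ∀ k < K, ∀ l ∈ PB k, ¬ l ∣ N → h k l ≤ if A l then 1 else 0) (h1 : ∀ k l, h k l ≤ 1) :
    ∑ k ∈ range K, ∑ l ∈ PB k, h k l / l - N.primeFactors.card ≤
    ∑ k ∈ range K, ∑ l ∈ PB k, (if l ∣ N then (0:ℝ) else (if A l then 1 else 0)) / l := by
  have h2 := excl_sum N hN K
  have h3 : ∑ k ∈ range K, ∑ l ∈ PB k, h k l / l ≤
      ∑ k ∈ range K, ∑ l ∈ PB k, (if l ∣ N then (0:ℝ) else (if A l then 1 else 0)) / l +
      ∑ k ∈ range K, ∑ l ∈ PB k, (if l ∣ N then (1:ℝ) else 0) / l := by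
    rw [← sum_add_distrib]
    refine sum_le_sum fun k hk => ?_
    rw [← sum_add_distrib]
    refine sum_le_sum fun l hl => ?_
    have hl0 : (0:ℝ) ≤ l := Nat.cast_nonneg l
    rw [← add_div]
    refine div_le_div_of_nonneg_right ?_ hl0
    by_cases hlN : l ∣ N
    · rw [if_pos hlN, if_pos hlN, zero_add]; exact h1 k l
    · rw [if_neg hlN, if_neg hlN, add_zero]
      exact hle k (mem_range.mp hk) l hl hlN
  linarith

lemma abs_F_le_one (D : ℤ) (n : ℕ) : |F D n| ≤ 1 := by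
  unfold F
  split_ifs
  · rcases jacobiSym.trichotomy D n with h | h | h <;> simp [h]
  · simp

/-- evaluation of the lower bound with full blocks `G` and one character -/
lemma sumA {C0 : ℝ} (hb : ∀ k : ℕ, |∑ l ∈ PB k, (1:ℝ) / l - Real.log 2| ≤ C0 / 2 ^ k)
    (K : ℕ) (G : Finset ℕ) (hG : G ⊆ range K) (D : ℤ) (R : ℝ)
    (hR : ∑ k ∈ range K \ G, Dk D k ≤ R) :
    ((K : ℝ) + G.card) / 2 * Real.log 2 - 2 * C0 - R / 2 ≤
      ∑ k ∈ range K, ∑ l ∈ PB k, (if k ∈ G then (1:ℝ) else (1 - F D l) / 2) / l := by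
  have hC0 : 0 ≤ C0 := by
    have := (abs_nonneg _).trans (hb 0)
    rwa [pow_zero, div_one] at this
  have hlow : ∀ k, Real.log 2 - C0 * (1 / 2 ^ k) ≤ ∑ l ∈ PB k, (1:ℝ) / l := fun k => by
    have := (abs_le.mp (hb k)).1
    rw [mul_one_div]
    linarith
  have hsumlow : ∀ T : Finset ℕ, T ⊆ range K → (T.card : ℝ) * Real.log 2 - 2 * C0 ≤
      ∑ k ∈ T, ∑ l ∈ PB k, (1:ℝ) / l := by
    intro T hT
    calc (T.card : ℝ) * Real.log 2 - 2 * C0 ≤
          (T.card : ℝ) * Real.log 2 - C0 * ∑ k ∈ T, (1:ℝ) / 2 ^ k := by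
          have h1 : ∑ k ∈ T, (1:ℝ) / 2 ^ k ≤ 2 := by
            refine (sum_le_sum_of_subset_of_nonneg hT fun _ _ _ => by positivity).trans ?_
            have := geom_half' 0 K
            rw [pow_zero, div_one, Nat.Ico_zero_eq_range] at this
            exact this
          nlinarith
      _ = ∑ k ∈ T, (Real.log 2 - C0 * (1 / 2 ^ k)) := by
          rw [sum_sub_distrib, sum_const, nsmul_eq_mul, mul_sum]
      _ ≤ _ := sum_le_sum fun k _ => hlow k
  have h1 : ∀ k, ∑ l ∈ PB k, (if k ∈ G then (1:ℝ) else (1 - F D l) / 2) / l =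
      (∑ l ∈ PB k, (1:ℝ) / l) / 2 + (if k ∈ G then (∑ l ∈ PB k, (1:ℝ) / l) / 2 else 0) -
      (if k ∈ G then 0 else Dk D k / 2) := by
    intro k
    by_cases hk : k ∈ G
    · simp only [hk, if_true]; ring
    · simp only [hk, if_false]
      unfold Dk
      rw [add_zero, sum_div, sum_div, ← sum_sub_distrib]
      exact sum_congr rfl fun l _ => by ring
  rw [sum_congr rfl fun k _ => h1 k, sum_sub_distrib, sum_add_distrib, ← sum_div]
  have h2 : ∑ k ∈ range K, (if k ∈ G then (∑ l ∈ PB k, (1:ℝ) / l) / 2 else 0) =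
      (∑ k ∈ G, ∑ l ∈ PB k, (1:ℝ) / l) / 2 := by
    rw [← sum_filter, sum_div]
    congr 1
    ext k
    rw [mem_filter]
    exact ⟨fun h => h.2, fun h => ⟨hG h, h⟩⟩
  have h3 : ∑ k ∈ range K, (if k ∈ G then 0 else Dk D k / 2) =
      (∑ k ∈ range K \ G, Dk D k) / 2 := by
    rw [sum_div, sdiff_eq_filter, sum_filter]
    refine sum_congr rfl fun k _ => ?_
    by_cases hk : k ∈ G
    · simp [hk]
    · simp [hk]
  rw [h2, h3]
  have h4 := hsumlow (range K) (subset_refl _)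
  have h5 := hsumlow G hG
  rw [card_range] at h4
  linarith

/-- evaluation of the lower bound with three characters -/
lemma sumB {C0 : ℝ} (hb : ∀ k : ℕ, |∑ l ∈ PB k, (1:ℝ) / l - Real.log 2| ≤ C0 / 2 ^ k)
    (K : ℕ) (D₁ D₂ D₃ : ℤ) (R₁ R₂ R₃ : ℝ)
    (hR₁ : ∑ k ∈ range K, Dk D₁ k ≤ R₁) (hR₂ : ∑ k ∈ range K, Dk D₂ k ≤ R₂)
    (hR₃ : ∑ k ∈ range K, Dk D₃ k ≤ R₃) :
    3 / 4 * (K * Real.log 2) - 2 * C0 - (R₁ + R₂ + R₃) / 4 ≤
      ∑ k ∈ range K, ∑ l ∈ PB k, (3 / 4 - (F D₁ l + F D₂ l + F D₃ l) / 4) / l := by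
  have hC0 : 0 ≤ C0 := by
    have := (abs_nonneg _).trans (hb 0)
    rwa [pow_zero, div_one] at this
  have hlow : ∀ k, Real.log 2 - C0 * (1 / 2 ^ k) ≤ ∑ l ∈ PB k, (1:ℝ) / l := fun k => by
    have := (abs_le.mp (hb k)).1
    rw [mul_one_div]
    linarith
  have hsumlow : (K : ℝ) * Real.log 2 - 2 * C0 ≤ ∑ k ∈ range K, ∑ l ∈ PB k, (1:ℝ) / l := by
    calc (K : ℝ) * Real.log 2 - 2 * C0 ≤
          (K : ℝ) * Real.log 2 - C0 * ∑ k ∈ range K, (1:ℝ) / 2 ^ k := by
          have h1 : ∑ k ∈ range K, (1:ℝ) / 2 ^ k ≤ 2 := by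
            have := geom_half' 0 K
            rw [pow_zero, div_one, Nat.Ico_zero_eq_range] at this
            exact this
          nlinarith
      _ = ∑ k ∈ range K, (Real.log 2 - C0 * (1 / 2 ^ k)) := by
          rw [sum_sub_distrib, sum_const, nsmul_eq_mul, mul_sum, card_range]
      _ ≤ _ := sum_le_sum fun k _ => hlow k
  have h1 : ∀ k, ∑ l ∈ PB k, (3 / 4 - (F D₁ l + F D₂ l + F D₃ l) / 4) / l =
      3 / 4 * (∑ l ∈ PB k, (1:ℝ) / l) - (Dk D₁ k + Dk D₂ k + Dk D₃ k) / 4 := by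
    intro k
    unfold Dk
    rw [mul_sum, ← sum_add_distrib, ← sum_add_distrib, sum_div, ← sum_sub_distrib]
    exact sum_congr rfl fun l _ => by ring
  rw [sum_congr rfl fun k _ => h1 k, sum_sub_distrib, ← mul_sum, ← sum_div, sum_add_distrib,
    sum_add_distrib]
  linarith

end Pool.Agent.H95.Gol
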