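import Mathlib
import Pool.Agent.H95.Gol.Expo

/-!
The number of `w` with least prime factor `p` of `4w-1` and least prime `q` dividing `w` to an odd
power.
-/

namespace Pool.Agent.H95.Gol

open Finset Classical

/-- the weight of a prime -/
noncomputable def tau (μ : ℕ → ℝ) (p : ℕ) : ℝ :=
  if p.Prime then Real.exp (μ p / 2) / (p * √(Real.log p)) else 0

lemma tau_nonneg (μ : ℕ → ℝ) (p : ℕ) : 0 ≤ tau μ p := by
  unfold tau
  split_ifs <;> positivity

/-- the `w ≤ W` with least prime factor `p` of `4w-1` and least odd-exponent prime `q` of `w` -/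
noncomputable def Nset (K W p q : ℕ) : Finset ℕ :=
  (Icc 1 W).filter (fun w => Good w ∧ ¬ (4 * w - 1).Prime ∧ (4 * w - 1).minFac = p ∧
    q.Prime ∧ q ≤ bb K ∧ Odd (padicValNat q w) ∧ ∀ l < q, l.Prime → ¬ Odd (padicValNat l w))

lemma idx_exists (p K A W : ℕ) (hp : 2 ≤ p) (hpW : p ≤ 4 * W) (hW : W < (bb (K+1))^A) :
    ∃ i ≤ K, (∀ k < i, bb (k+1) < p) ∧ Real.log p ≤ (2 + 2 * A) * 2^i := by
  have hex : ∃ i, p ≤ bb (i+1) := ⟨p, by
    unfold bb
    exact (Nat.lt_two_pow_self).le.trans (Nat.pow_le_pow_right (by norm_num)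
      ((Nat.lt_two_pow_self).le.trans (Nat.pow_le_pow_right (by norm_num) (by omega))))⟩
  have hspec := Nat.find_spec hex
  have hmin : ∀ k < Nat.find hex, bb (k+1) < p := fun k hk => by
    have := Nat.find_min hex hk
    push Not at this
    exact this
  set i0 := Nat.find hex with hi0
  have hl2 : Real.log 2 ≤ 1 := by
    have := Real.log_two_lt_d9
    linarith
  have hl20 : 0 ≤ Real.log 2 := Real.log_nonneg (by norm_num)
  have hp0 : (0:ℝ) < p := by exact_mod_cast (by omega : 0 < p)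
  rcases le_or_gt i0 K with h | h
  · refine ⟨i0, h, hmin, ?_⟩
    calc Real.log p ≤ Real.log (bb (i0+1)) := Real.log_le_log hp0 (by exact_mod_cast hspec)
      _ = 2^(i0+1) * Real.log 2 := log_bb _
      _ ≤ 2^(i0+1) * 1 := mul_le_mul_of_nonneg_left hl2 (by positivity)
      _ ≤ (2 + 2 * A) * 2^i0 := by
          rw [pow_succ]
          have : (0:ℝ) ≤ A * 2^i0 := by positivity
          nlinarith
  · refine ⟨K, le_refl _, fun k hk => hmin k (by omega), ?_⟩
    have hW0 : 0 < W := by omega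
    have h1 : (p:ℝ) ≤ 4 * (bb (K+1) : ℝ)^A := by
      have h2 : (p:ℝ) ≤ 4 * W := by exact_mod_cast hpW
      have h3 : (W:ℝ) ≤ (bb (K+1) : ℝ)^A := by exact_mod_cast hW.le
      linarith
    calc Real.log p ≤ Real.log (4 * (bb (K+1) : ℝ)^A) := Real.log_le_log hp0 h1
      _ = 2 * Real.log 2 + A * (2^(K+1) * Real.log 2) := by
          rw [Real.log_mul (by norm_num) (by have := bb_pos (K+1); positivity), Real.log_pow,
            log_bb, show (4:ℝ) = 2^2 by norm_num, Real.log_pow]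
          push_cast; ring
      _ ≤ 2 * 1 + A * (2^(K+1) * 1) := by gcongr
      _ ≤ (2 + 2 * A) * 2^K := by
          rw [pow_succ]
          have h4 : (1:ℝ) ≤ 2^K := one_le_pow₀ (by norm_num)
          have : (0:ℝ) ≤ A * 2^K := by positivity
          nlinarith

lemma half_exp (i : ℕ) (x c : ℝ) (hx : 0 < x) (hc : 0 < c) (h : x ≤ c * 2^i) :
    Real.exp (-(i * Real.log 2) / 2) ≤ √c / √x := by
  rw [Real.exp_half, ← Real.sqrt_div hc.le]
  apply Real.sqrt_le_sqrt
  rw [Real.exp_neg, Real.exp_nat_mul, Real.exp_log (by norm_num), inv_eq_one_div,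
    div_le_div_iff₀ (by positivity) hx, one_mul]
  exact h

lemma exp_split (a b c d e f : ℝ) : Real.exp (a + b + (c + d) + (e + f)) =
    Real.exp a * Real.exp b * (Real.exp c * Real.exp d) * (Real.exp e * Real.exp f) := by
  rw [Real.exp_add, Real.exp_add, Real.exp_add, Real.exp_add, Real.exp_add]

lemma range_sdiff (K i : ℕ) : range K \ range i = Ico i K := by
  ext k
  simp only [mem_sdiff, mem_range, mem_Ico]
  omega

theorem pair_bound (hblk : ∃ C : ℝ, 0 < C ∧ ∀ k : ℕ,
      |∑ l ∈ PB k, (1:ℝ) / l - Real.log 2| ≤ C / 2 ^ k) (μ : ℕ → ℝ)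
    (hμ : ∀ s : ℤ, (s = 1 ∨ s = -1) → ∀ p : ℕ, p.Prime → ∀ a b : ℕ, a ≤ b →
      |∑ k ∈ Ico a b, Dk (s * p) k| ≤ μ p) :
    ∃ A0 : ℕ, ∀ A ≥ A0, ∃ C : ℝ, 0 < C ∧ ∀ K W p q : ℕ, (bb K)^A ≤ W → W < (bb (K+1))^A →
      ((Nset K W p q).card : ℝ) ≤ C * (W / 2^K) * (tau μ p * tau μ q) := by
  obtain ⟨A1, C1, hC1, hcount⟩ := countG_of_blk hblk
  obtain ⟨C0, hC0, hb⟩ := hblk
  refine ⟨2 * A1 + 4, fun A hA => ⟨C1 * (2 + 2 * A) * Real.exp (6 + 4 * C0), by positivity, ?_⟩⟩
  intro K W p q hWl hWu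
  rcases (Nset K W p q).eq_empty_or_nonempty with hemp | ⟨ws, hws⟩
  · rw [hemp, card_empty, Nat.cast_zero]
    have := tau_nonneg μ p
    have := tau_nonneg μ q
    positivity
  unfold Nset at hws
  rw [mem_filter, mem_Icc] at hws
  obtain ⟨⟨hws1, hws2⟩, hG, hnp, hpm, hqp, hqK, hqo, hql⟩ := hws
  have hn1 : 4 * ws - 1 ≠ 1 := by omega
  have hpp : p.Prime := hpm ▸ Nat.minFac_prime hn1
  have hpd : p ∣ 4 * ws - 1 := hpm ▸ Nat.minFac_dvd _
  have hp2 : p ≠ 2 := by
    rintro rfl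
    omega
  have hqd : q ∣ ws := dvd_of_odd_val hqo
  have hpq : p ≠ q := by
    rintro rfl
    exact not_dvd_both hpp hws1 hqd hpd
  have hpodd : Odd p := hpp.odd_of_ne_two hp2
  have hpsq : p^2 ≤ 4 * ws - 1 := by
    have := Nat.minFac_sq_le_self (n := 4 * ws - 1) (by omega) hnp
    rwa [hpm] at this
  have hcop : Nat.Coprime p q := (Nat.coprime_primes hpp hqp).mpr hpq
  have hB2 := two_le_bb K
  have hsize : (bb K)^A1 * (p * q) ≤ W := by
    have h1 : ((bb K)^A1 * (p * q))^2 ≤ W^2 := by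
      calc ((bb K)^A1 * (p * q))^2 = (bb K)^(2*A1) * (p^2 * q^2) := by ring
        _ ≤ (bb K)^(2*A1) * ((4 * W) * (bb K)^2) := by
            refine Nat.mul_le_mul_left _ (Nat.mul_le_mul (by omega) (Nat.pow_le_pow_left hqK 2))
        _ ≤ (bb K)^(2*A1) * (((bb K)^2 * W) * (bb K)^2) := by
            refine Nat.mul_le_mul_left _ (Nat.mul_le_mul_right _ (Nat.mul_le_mul_right _ ?_))
            nlinarith
        _ = (bb K)^(2*A1+4) * W := by ring
        _ ≤ (bb K)^A * W := Nat.mul_le_mul_right _ (Nat.pow_le_pow_right (by omega) hA)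
        _ ≤ W * W := Nat.mul_le_mul_right _ hWl
        _ = W^2 := by ring
    exact (Nat.pow_le_pow_iff_left (by norm_num)).mp h1
  obtain ⟨s, hs, hrec⟩ := recip p hpp hp2
  obtain ⟨A₁, hA₁⟩ : ∃ A₁ : ℕ → Prop, ∀ l, A₁ l ↔ (l < p ∨ ¬ IsSquare ((q : ℕ) : ZMod l)) :=
    ⟨_, fun _ => Iff.rfl⟩
  obtain ⟨B₁, hB₁⟩ : ∃ B₁ : ℕ → Prop, ∀ l, B₁ l ↔ (l < q ∨ ¬ IsSquare ((l : ℕ) : ZMod p)) :=
    ⟨_, fun _ => Iff.rfl⟩
  have hcnt := hcount p q W K A₁ B₁ hpodd hqp.pos hcop hsize
  have hsub : ((Nset K W p q).card : ℝ) ≤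
    (((Icc 1 W).filter (fun w => p ∣ 4 * w - 1 ∧ q ∣ w ∧
      (∀ l : ℕ, l.Prime → l ≤ bb K → A₁ l → ¬ l ∣ 2 * p * q → ¬ l ∣ 4 * w - 1) ∧
      (∀ l : ℕ, l.Prime → l ≤ bb K → B₁ l → ¬ l ∣ 2 * p * q →
        ¬ (l ∣ w ∧ ¬ l^2 ∣ w)))).card : ℝ) := by
    refine Nat.cast_le.mpr (card_le_card fun w hw => ?_)
    unfold Nset at hw
    rw [mem_filter, mem_Icc] at hw
    obtain ⟨⟨hw1, hw2⟩, hG, hnp, hpm, hqp, hqK, hqo, hql⟩ := hw
    rw [mem_filter, mem_Icc]
    refine ⟨⟨hw1, hw2⟩, hpm ▸ Nat.minFac_dvd _, dvd_of_odd_val hqo, ?_, ?_⟩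
    · intro l hl _ hA _ hdvd
      rcases (hA₁ l).mp hA with h | h
      · have := Nat.minFac_le_of_dvd hl.two_le hdvd
        omega
      · exact h (good_sq hG hl hdvd hqp hqo)
    · intro l hl _ hB _ hdvd
      have hlo := odd_val_of_exact hl hw1 hdvd.1 hdvd.2
      rcases (hB₁ l).mp hB with h | h
      · exact hql l h hl hlo
      · exact h (good_sq hG hpp (hpm ▸ Nat.minFac_dvd _) hl hlo)
  -- block indices
  obtain ⟨i, hiK, hi, hilog⟩ := idx_exists p K A W hpp.two_le
    ((Nat.le_self_pow (n := 2) (by norm_num) p).trans (by omega)) hWu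
  obtain ⟨j, hjK, hj, hjlog⟩ := idx_exists q K A W hqp.two_le
    ((Nat.le_of_dvd (by omega) hqd).trans (by omega)) hWu
  have hN0 : 2 * p * q ≠ 0 := by
    have := hpp.pos
    have := hqp.pos
    positivity
  have hNf : ((2 * p * q).primeFactors.card : ℝ) ≤ 3 := by
    rw [Nat.primeFactors_mul (by have := hpp.pos; positivity) hqp.ne_zero,
      Nat.primeFactors_mul (by norm_num) hpp.ne_zero, Nat.prime_two.primeFactors,
      hpp.primeFactors, hqp.primeFactors]
    have h1 := card_union_le ({2} ∪ {p} : Finset ℕ) {q}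
    have h2 := card_union_le ({2} : Finset ℕ) {p}
    rw [card_singleton] at h1
    rw [card_singleton, card_singleton] at h2
    exact_mod_cast (by omega : (({2} ∪ {p} ∪ {q} : Finset ℕ)).card ≤ 3)
  -- the two parts
  have hpartA := expo_lower (2 * p * q) hN0 K A₁
    (fun k l => if k ∈ range i then (1:ℝ) else (1 - F (q:ℤ) l) / 2) (by
      intro k hk l hl hlN
      have hlp := (mem_PB.mp hl).2
      by_cases hki : k ∈ range i
      · rw [if_pos hki, if_pos]
        rw [hA₁]
        left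
        have := hi k (mem_range.mp hki)
        have := (mem_PB.mp hl).1.2
        omega
      · rw [if_neg hki]
        have hF := abs_le.mp (abs_F_le_one (q:ℤ) l)
        by_cases hAl : A₁ l
        · rw [if_pos hAl]; linarith
        · rw [if_neg hAl]
          have hl2 : l ≠ 2 := by
            rintro rfl
            exact hlN ⟨p * q, by ring⟩
          have hlq : ¬ l ∣ q := fun h => hlN (dvd_mul_of_dvd_right h _)
          have hsq : IsSquare ((q : ℕ) : ZMod l) := by
            by_contra hcon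
            exact hAl ((hA₁ l).mpr (Or.inr hcon))
          rw [F_prime_nat q l hlp hl2 hlq, if_pos hsq]
          norm_num) (by
      intro k l
      split_ifs
      · exact le_refl _
      · have := abs_le.mp (abs_F_le_one (q:ℤ) l)
        linarith)
  have hpartB := expo_lower (2 * p * q) hN0 K B₁
    (fun k l => if k ∈ range j then (1:ℝ) else (1 - F (s * (p:ℤ)) l) / 2) (by
      intro k hk l hl hlN
      have hlp := (mem_PB.mp hl).2
      by_cases hkj : k ∈ range j
      · rw [if_pos hkj, if_pos]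
        rw [hB₁]
        left
        have := hj k (mem_range.mp hkj)
        have := (mem_PB.mp hl).1.2
        omega
      · rw [if_neg hkj]
        have hF := abs_le.mp (abs_F_le_one (s * (p:ℤ)) l)
        by_cases hBl : B₁ l
        · rw [if_pos hBl]; linarith
        · rw [if_neg hBl]
          have hl2 : l ≠ 2 := by
            rintro rfl
            exact hlN ⟨p * q, by ring⟩
          have hlq : l ≠ p := by
            rintro rfl
            exact hlN ⟨2 * q, by ring⟩
          have hsq : IsSquare ((l : ℕ) : ZMod p) := by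
            by_contra hcon
            exact hBl ((hB₁ l).mpr (Or.inr hcon))
          rw [hrec l hlp hl2 hlq, if_pos hsq]
          norm_num) (by
      intro k l
      split_ifs
      · exact le_refl _
      · have := abs_le.mp (abs_F_le_one (s * (p:ℤ)) l)
        linarith)
  have hμq : ∑ k ∈ range K \ range i, Dk (q:ℤ) k ≤ μ q := by
    rw [range_sdiff]
    have := (abs_le.mp (hμ 1 (Or.inl rfl) q hqp i K hiK)).2
    rwa [one_mul] at this
  have hμp : ∑ k ∈ range K \ range j, Dk (s * (p:ℤ)) k ≤ μ p := by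
    rw [range_sdiff]
    exact (abs_le.mp (hμ s hs p hpp j K hjK)).2
  have hsA := sumA hb K (range i) (range_subset_range.mpr hiK) (q:ℤ) (μ q) hμq
  have hsB := sumA hb K (range j) (range_subset_range.mpr hjK) (s * (p:ℤ)) (μ p) hμp
  rw [card_range] at hsA hsB
  -- the total exponent
  have hE : (K : ℝ) * Real.log 2 + (i * Real.log 2) / 2 + (j * Real.log 2) / 2 - μ p / 2 - μ q / 2
      - (6 + 4 * C0) ≤ ∑ k ∈ range K, ∑ l ∈ PB k,
        (if l ∣ 2 * p * q then (0:ℝ) else (if A₁ l then 1 else 0) + (if B₁ l then 1 else 0)) / l := by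
    have hsplit : ∑ k ∈ range K, ∑ l ∈ PB k,
        (if l ∣ 2 * p * q then (0:ℝ) else (if A₁ l then 1 else 0) + (if B₁ l then 1 else 0)) / l =
        ∑ k ∈ range K, ∑ l ∈ PB k,
          (if l ∣ 2 * p * q then (0:ℝ) else (if A₁ l then 1 else 0)) / l +
        ∑ k ∈ range K, ∑ l ∈ PB k,
          (if l ∣ 2 * p * q then (0:ℝ) else (if B₁ l then 1 else 0)) / l := by
      rw [← sum_add_distrib]
      refine sum_congr rfl fun k _ => ?_
      rw [← sum_add_distrib]
      refine sum_congr rfl fun l _ => ?_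
      by_cases h : l ∣ 2 * p * q
      · simp [h]
      · simp only [h, if_false]; rw [add_div]
    rw [hsplit]
    linarith
  have hp1 : (1:ℝ) < p := by exact_mod_cast hpp.one_lt
  have hq1 : (1:ℝ) < q := by exact_mod_cast hqp.one_lt
  have hlp0 : 0 < Real.log p := Real.log_pos hp1
  have hlq0 : 0 < Real.log q := Real.log_pos hq1
  have hexpi := half_exp i (Real.log p) (2 + 2 * A) hlp0 (by positivity) hilog
  have hexpj := half_exp j (Real.log q) (2 + 2 * A) hlq0 (by positivity) hjlog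
  have hexpE : Real.exp (- ∑ k ∈ range K, ∑ l ∈ PB k,
        (if l ∣ 2 * p * q then (0:ℝ) else (if A₁ l then 1 else 0) + (if B₁ l then 1 else 0)) / l) ≤
      Real.exp (6 + 4 * C0) * (1 / 2^K) * ((√(2 + 2 * A) / √(Real.log p)) *
        (√(2 + 2 * A) / √(Real.log q))) * (Real.exp (μ p / 2) * Real.exp (μ q / 2)) := by
    have h1 : Real.exp (-(K * Real.log 2)) = 1 / 2^K := by
      rw [Real.exp_neg, Real.exp_nat_mul, Real.exp_log (by norm_num), inv_eq_one_div]
    calc _ ≤ Real.exp ((6 + 4 * C0) + (-(K * Real.log 2)) + ((-(i * Real.log 2) / 2) +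
          (-(j * Real.log 2) / 2)) + (μ p / 2 + μ q / 2)) := by
            apply Real.exp_le_exp.mpr
            linarith
      _ = Real.exp (6 + 4 * C0) * (1 / 2^K) * (Real.exp (-(i * Real.log 2) / 2) *
          Real.exp (-(j * Real.log 2) / 2)) * (Real.exp (μ p / 2) * Real.exp (μ q / 2)) := by
            rw [exp_split, h1]
      _ ≤ _ := by
            gcongr
  have hτ : tau μ p * tau μ q = Real.exp (μ p / 2) / (p * √(Real.log p)) *
      (Real.exp (μ q / 2) / (q * √(Real.log q))) := by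
    unfold tau
    rw [if_pos hpp, if_pos hqp]
  have hsc : √(2 + 2 * (A:ℝ)) * √(2 + 2 * (A:ℝ)) = 2 + 2 * A := Real.mul_self_sqrt (by positivity)
  refine hsub.trans (hcnt.trans ?_)
  calc C1 * (W / (p * q)) * Real.exp (- ∑ k ∈ range K, ∑ l ∈ PB k,
        (if l ∣ 2 * p * q then (0:ℝ) else (if A₁ l then 1 else 0) + (if B₁ l then 1 else 0)) / l)
      ≤ C1 * (W / (p * q)) * (Real.exp (6 + 4 * C0) * (1 / 2^K) *
        ((√(2 + 2 * A) / √(Real.log p)) * (√(2 + 2 * A) / √(Real.log q))) *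
          (Real.exp (μ p / 2) * Real.exp (μ q / 2))) :=
        mul_le_mul_of_nonneg_left hexpE (by positivity)
    _ = C1 * (√(2 + 2 * (A:ℝ)) * √(2 + 2 * (A:ℝ))) * Real.exp (6 + 4 * C0) * (W / 2^K) *
        (Real.exp (μ p / 2) / (p * √(Real.log p)) * (Real.exp (μ q / 2) / (q * √(Real.log q)))) := by
        field_simp
    _ = C1 * (2 + 2 * A) * Real.exp (6 + 4 * C0) * (W / 2 ^ K) * (tau μ p * tau μ q) := by
        rw [hsc, hτ]

end Pool.Agent.H95.Gol
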