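import Mathlib
import Pool.Agent.H95.Gol.Pair

/-!
For a fixed prime `p ∣ 4w-1` and a fixed prime `q` dividing `w` to an odd power, the number of
`w ≤ W` is `o(W / 2^K)`.
-/

namespace Pool.Agent.H95.Gol

open Finset Classical

/-- the statement of `countG` for given constants -/
def CountG (A1 : ℕ) (C1 : ℝ) : Prop :=
  ∀ (P q W K : ℕ) (A₁ B₁ : ℕ → Prop), Odd P → 0 < q →
    Nat.Coprime P q → (bb K)^A1 * (P * q) ≤ W →
    (((Icc 1 W).filter (fun w => P ∣ 4 * w - 1 ∧ q ∣ w ∧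
      (∀ l : ℕ, l.Prime → l ≤ bb K → A₁ l → ¬ l ∣ 2 * P * q → ¬ l ∣ 4 * w - 1) ∧
      (∀ l : ℕ, l.Prime → l ≤ bb K → B₁ l → ¬ l ∣ 2 * P * q → ¬ (l ∣ w ∧ ¬ l^2 ∣ w)))).card : ℝ) ≤
      C1 * (W / (P * q)) * Real.exp (- ∑ k ∈ range K, ∑ l ∈ PB k,
        (if l ∣ 2 * P * q then (0:ℝ) else (if A₁ l then 1 else 0) + (if B₁ l then 1 else 0)) / l)

lemma le_bb (K : ℕ) : K ≤ bb K := by
  unfold bb
  exact (Nat.lt_two_pow_self).le.trans (Nat.pow_le_pow_right (by norm_num)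
    (Nat.lt_two_pow_self).le)

lemma size_cond (A1 A K W N : ℕ) (hA : A1 + 1 ≤ A) (hN : N ≤ K) (hW : (bb K)^A ≤ W) :
    (bb K)^A1 * N ≤ W := by
  calc (bb K)^A1 * N ≤ (bb K)^A1 * bb K := Nat.mul_le_mul_left _ (hN.trans (le_bb K))
    _ = (bb K)^(A1+1) := by rw [pow_succ]
    _ ≤ (bb K)^A := Nat.pow_le_pow_right (bb_pos K) hA
    _ ≤ W := hW

lemma split_sum (K N : ℕ) (A₁ B₁ : ℕ → Prop) :
    ∑ k ∈ range K, ∑ l ∈ PB k,
        (if l ∣ N then (0:ℝ) else (if A₁ l then 1 else 0) + (if B₁ l then 1 else 0)) / l =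
        ∑ k ∈ range K, ∑ l ∈ PB k, (if l ∣ N then (0:ℝ) else (if A₁ l then 1 else 0)) / l +
        ∑ k ∈ range K, ∑ l ∈ PB k, (if l ∣ N then (0:ℝ) else (if B₁ l then 1 else 0)) / l := by
  rw [← sum_add_distrib]
  refine sum_congr rfl fun k _ => ?_
  rw [← sum_add_distrib]
  refine sum_congr rfl fun l _ => ?_
  by_cases h : l ∣ N
  · simp [h]
  · simp only [h, if_false]; rw [add_div]

lemma half_le_ind (x : ℝ) (hx : |x| ≤ 1) (A : Prop) (h : ¬ A → x = 1) :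
    (1 - x) / 2 ≤ if A then (1:ℝ) else 0 := by
  have := abs_le.mp hx
  by_cases hA : A
  · rw [if_pos hA]; linarith
  · rw [if_neg hA, h hA]; norm_num

lemma prime_not_sq (s : ℤ) (hs : s = 1 ∨ s = -1) (p : ℕ) (hp : p.Prime) :
    ¬ IsSquare (s * (p:ℤ)) := by
  rintro ⟨a, ha⟩
  have h1 : p = a.natAbs * a.natAbs := by
    have := congrArg Int.natAbs ha
    rw [Int.natAbs_mul, Int.natAbs_mul, Int.natAbs_natCast] at this
    rcases hs with h | h <;> subst h <;> simpa using this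
  have h2 : Irreducible p := hp
  exact h2.not_isSquare ⟨_, h1⟩

lemma two_prime_not_sq (s : ℤ) (hs : s = 1 ∨ s = -1) (p p' : ℕ) (hp : p.Prime) (hp' : p'.Prime)
    (hne : p ≠ p') : ¬ IsSquare (s * ((p:ℤ) * p')) := by
  rintro ⟨a, ha⟩
  have h1 : p * p' = a.natAbs * a.natAbs := by
    have := congrArg Int.natAbs ha
    rw [Int.natAbs_mul, Int.natAbs_mul, Int.natAbs_mul, Int.natAbs_natCast,
      Int.natAbs_natCast] at this
    rcases hs with h | h <;> subst h <;> simpa using this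
  have h2 : p ∣ a.natAbs := by
    have : p ∣ a.natAbs * a.natAbs := ⟨p', h1.symm⟩
    rcases hp.dvd_mul.mp this with h | h <;> exact h
  have h3 : p * p ∣ p * p' := by
    rw [h1]; exact Nat.mul_dvd_mul h2 h2
  have h4 : p ∣ p' := Nat.dvd_of_mul_dvd_mul_left hp.pos h3
  exact hne ((Nat.prime_dvd_prime_iff_eq hp hp').mp h4)

lemma card_pf_three (p q : ℕ) (hp : p.Prime) (hq : q.Prime) :
    ((2 * p * q).primeFactors.card : ℝ) ≤ 3 := by
  rw [Nat.primeFactors_mul (by have := hp.pos; positivity) hq.ne_zero,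
    Nat.primeFactors_mul (by norm_num) hp.ne_zero, Nat.prime_two.primeFactors,
    hp.primeFactors, hq.primeFactors]
  have h1 := card_union_le ({2} ∪ {p} : Finset ℕ) {q}
  have h2 := card_union_le ({2} : Finset ℕ) {p}
  rw [card_singleton] at h1
  rw [card_singleton, card_singleton] at h2
  exact_mod_cast (by omega : (({2} ∪ {p} ∪ {q} : Finset ℕ)).card ≤ 3)

lemma card_pf_four (p p' q : ℕ) (hp : p.Prime) (hp' : p'.Prime) (hq : q.Prime) :
    ((2 * (p * p') * q).primeFactors.card : ℝ) ≤ 4 := by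
  have := hp.pos
  have := hp'.pos
  rw [Nat.primeFactors_mul (by positivity) hq.ne_zero,
    Nat.primeFactors_mul (by norm_num) (by positivity), Nat.prime_two.primeFactors,
    Nat.primeFactors_mul hp.ne_zero hp'.ne_zero,
    hp.primeFactors, hp'.primeFactors, hq.primeFactors]
  have h1 := card_union_le ({2} ∪ ({p} ∪ {p'}) : Finset ℕ) {q}
  have h2 := card_union_le ({2} : Finset ℕ) ({p} ∪ {p'})
  have h3 := card_union_le ({p} : Finset ℕ) {p'}
  rw [card_singleton] at h1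
  rw [card_singleton] at h2
  rw [card_singleton, card_singleton] at h3
  exact_mod_cast (by omega : (({2} ∪ ({p} ∪ {p'}) ∪ {q} : Finset ℕ)).card ≤ 4)

lemma exp_K (K : ℕ) : Real.exp (-(K * Real.log 2)) = 1 / 2^K := by
  rw [Real.exp_neg, Real.exp_nat_mul, Real.exp_log (by norm_num), inv_eq_one_div]

/-- (i): `4w-1` has no prime factor in the blocks `[a, a+n)` -/
lemma fixed_i {A1 : ℕ} {C1 : ℝ} (hC1 : 0 < C1) (hcount : CountG A1 C1) {C0 : ℝ}
    (hb : ∀ k : ℕ, |∑ l ∈ PB k, (1:ℝ) / l - Real.log 2| ≤ C0 / 2 ^ k)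
    (p q : ℕ) (hp : p.Prime) (hp2 : p ≠ 2) (hq : q.Prime) (hpq : p ≠ q) (R : ℝ)
    (hRq : ∀ a b : ℕ, a ≤ b → |∑ k ∈ Ico a b, Dk (q:ℤ) k| ≤ R)
    (hRp : ∀ s : ℤ, (s = 1 ∨ s = -1) → ∀ a b : ℕ, a ≤ b → |∑ k ∈ Ico a b, Dk (s * (p:ℤ)) k| ≤ R) :
    ∃ C : ℝ, 0 < C ∧ ∀ a n A K W : ℕ, A1 + 1 ≤ A → p * q ≤ K → a + n ≤ K → (bb K)^A ≤ W →
    (((Icc 1 W).filter (fun w => Good w ∧ p ∣ 4 * w - 1 ∧ Odd (padicValNat q w) ∧
      ∀ k ∈ Ico a (a+n), ∀ l ∈ PB k, ¬ l ∣ 4 * w - 1)).card : ℝ) ≤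
      C * (W / 2^K) * Real.exp (-(n * Real.log 2) / 2) := by
  have hC0 : 0 ≤ C0 := by
    have := (abs_nonneg _).trans (hb 0)
    rwa [pow_zero, div_one] at this
  have hR0 : 0 ≤ R := (abs_nonneg _).trans (hRq 0 0 (le_refl _))
  refine ⟨C1 * Real.exp (6 + 4 * C0 + 2 * R), by positivity, ?_⟩
  intro a n A K W hA hpqK haK hW
  obtain ⟨s, hs, hrec⟩ := recip p hp hp2
  set G : Finset ℕ := Ico a (a+n) with hG
  have hGK : G ⊆ range K := by
    intro k hk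
    rw [hG, mem_Ico] at hk
    rw [mem_range]; omega
  obtain ⟨A₁, hA₁⟩ : ∃ A₁ : ℕ → Prop, ∀ l, A₁ l ↔
      ((∃ k ∈ G, l ∈ PB k) ∨ ¬ IsSquare ((q : ℕ) : ZMod l)) := ⟨_, fun _ => Iff.rfl⟩
  obtain ⟨B₁, hB₁⟩ : ∃ B₁ : ℕ → Prop, ∀ l, B₁ l ↔ (¬ IsSquare ((l : ℕ) : ZMod p)) :=
    ⟨_, fun _ => Iff.rfl⟩
  have hcop : Nat.Coprime p q := (Nat.coprime_primes hp hq).mpr hpq
  have hcnt := hcount p q W K A₁ B₁ (hp.odd_of_ne_two hp2) hq.pos hcop
    (size_cond A1 A K W (p * q) hA hpqK hW)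
  have hsub : (((Icc 1 W).filter (fun w => Good w ∧ p ∣ 4 * w - 1 ∧ Odd (padicValNat q w) ∧
      ∀ k ∈ G, ∀ l ∈ PB k, ¬ l ∣ 4 * w - 1)).card : ℝ) ≤
    (((Icc 1 W).filter (fun w => p ∣ 4 * w - 1 ∧ q ∣ w ∧
      (∀ l : ℕ, l.Prime → l ≤ bb K → A₁ l → ¬ l ∣ 2 * p * q → ¬ l ∣ 4 * w - 1) ∧
      (∀ l : ℕ, l.Prime → l ≤ bb K → B₁ l → ¬ l ∣ 2 * p * q →
        ¬ (l ∣ w ∧ ¬ l^2 ∣ w)))).card : ℝ) := by
    refine Nat.cast_le.mpr (card_le_card fun w hw => ?_)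
    rw [mem_filter, mem_Icc] at hw
    obtain ⟨⟨hw1, hw2⟩, hGw, hpd, hqo, hno⟩ := hw
    rw [mem_filter, mem_Icc]
    refine ⟨⟨hw1, hw2⟩, hpd, dvd_of_odd_val hqo, ?_, ?_⟩
    · intro l hl _ hA _ hdvd
      rcases (hA₁ l).mp hA with ⟨k, hk, hlk⟩ | h
      · exact hno k hk l hlk hdvd
      · exact h (good_sq hGw hl hdvd hq hqo)
    · intro l hl _ hB _ hdvd
      have hlo := odd_val_of_exact hl hw1 hdvd.1 hdvd.2
      exact (hB₁ l).mp hB (good_sq hGw hp hpd hl hlo)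
  have hN0 : 2 * p * q ≠ 0 := by
    have := hp.pos
    have := hq.pos
    positivity
  have hNf := card_pf_three p q hp hq
  have hpartA := expo_lower (2 * p * q) hN0 K A₁
    (fun k l => if k ∈ G then (1:ℝ) else (1 - F (q:ℤ) l) / 2) (by
      intro k hk l hl hlN
      have hlp := (mem_PB.mp hl).2
      by_cases hki : k ∈ G
      · rw [if_pos hki, if_pos]
        rw [hA₁]
        exact Or.inl ⟨k, hki, hl⟩
      · rw [if_neg hki]
        refine half_le_ind _ (abs_F_le_one _ _) _ fun hAl => ?_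
        have hl2 : l ≠ 2 := by
          rintro rfl
          exact hlN ⟨p * q, by ring⟩
        have hlq : ¬ l ∣ q := fun h => hlN (dvd_mul_of_dvd_right h _)
        have hsq : IsSquare ((q : ℕ) : ZMod l) := by
          by_contra hcon
          exact hAl ((hA₁ l).mpr (Or.inr hcon))
        rw [F_prime_nat q l hlp hl2 hlq, if_pos hsq]) (by
      intro k l
      split_ifs
      · exact le_refl _
      · have := abs_le.mp (abs_F_le_one (q:ℤ) l)
        linarith)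
  have hpartB := expo_lower (2 * p * q) hN0 K B₁
    (fun k l => if k ∈ (∅ : Finset ℕ) then (1:ℝ) else (1 - F (s * (p:ℤ)) l) / 2) (by
      intro k hk l hl hlN
      have hlp := (mem_PB.mp hl).2
      rw [if_neg (notMem_empty k)]
      refine half_le_ind _ (abs_F_le_one _ _) _ fun hBl => ?_
      have hl2 : l ≠ 2 := by
        rintro rfl
        exact hlN ⟨p * q, by ring⟩
      have hlq : l ≠ p := by
        rintro rfl
        exact hlN ⟨2 * q, by ring⟩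
      have hsq : IsSquare ((l : ℕ) : ZMod p) := by
        by_contra hcon
        exact hBl ((hB₁ l).mpr hcon)
      rw [hrec l hlp hl2 hlq, if_pos hsq]) (by
      intro k l
      split_ifs
      · exact le_refl _
      · have := abs_le.mp (abs_F_le_one (s * (p:ℤ)) l)
        linarith)
  have hRq' : ∑ k ∈ range K \ G, Dk (q:ℤ) k ≤ 2 * R := by
    have h1 : range K \ G = Ico 0 a ∪ Ico (a+n) K := by
      ext k
      simp only [hG, mem_sdiff, mem_range, mem_Ico, mem_union]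
      omega
    have h2 : Disjoint (Ico 0 a) (Ico (a+n) K) := by
      rw [disjoint_left]
      intro k h3 h4
      rw [mem_Ico] at h3 h4
      omega
    rw [h1, sum_union h2]
    have h3 := (abs_le.mp (hRq 0 a (by omega))).2
    have h4 := (abs_le.mp (hRq (a+n) K haK)).2
    linarith
  have hRp' : ∑ k ∈ range K \ ∅, Dk (s * (p:ℤ)) k ≤ R := by
    rw [sdiff_empty, ← Nat.Ico_zero_eq_range]
    exact (abs_le.mp (hRp s hs 0 K (by omega))).2
  have hsA := sumA hb K G hGK (q:ℤ) (2 * R) hRq'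
  have hsB := sumA hb K ∅ (empty_subset _) (s * (p:ℤ)) R hRp'
  have hGc : (G.card : ℝ) = n := by
    rw [hG, Nat.card_Ico]; congr 1; omega
  rw [hGc] at hsA
  rw [card_empty, Nat.cast_zero] at hsB
  have hE : (K : ℝ) * Real.log 2 + (n * Real.log 2) / 2 - (6 + 4 * C0 + 2 * R) ≤
      ∑ k ∈ range K, ∑ l ∈ PB k, (if l ∣ 2 * p * q then (0:ℝ) else
        (if A₁ l then 1 else 0) + (if B₁ l then 1 else 0)) / l := by
    rw [split_sum]
    linarith
  have hp1 : (1:ℝ) ≤ p := by exact_mod_cast hp.one_lt.le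
  have hq1 : (1:ℝ) ≤ q := by exact_mod_cast hq.one_lt.le
  have hexpE : Real.exp (- ∑ k ∈ range K, ∑ l ∈ PB k, (if l ∣ 2 * p * q then (0:ℝ) else
        (if A₁ l then 1 else 0) + (if B₁ l then 1 else 0)) / l) ≤
      Real.exp (6 + 4 * C0 + 2 * R) * (1 / 2^K) * Real.exp (-(n * Real.log 2) / 2) := by
    rw [← exp_K, ← Real.exp_add, ← Real.exp_add]
    apply Real.exp_le_exp.mpr
    linarith
  refine hsub.trans (hcnt.trans ?_)
  have hWpq : (W:ℝ) / (p * q) ≤ W := div_le_self (Nat.cast_nonneg _) (by nlinarith)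
  have hmul := mul_le_mul (mul_le_mul_of_nonneg_left hWpq hC1.le) hexpE (Real.exp_pos _).le
    (by positivity)
  refine hmul.trans (le_of_eq ?_)
  field_simp

/-- (ii): `4w-1` is divisible by two primes `p`, `p'` -/
lemma fixed_ii {A1 : ℕ} {C1 : ℝ} (hC1 : 0 < C1) (hcount : CountG A1 C1) {C0 : ℝ}
    (hb : ∀ k : ℕ, |∑ l ∈ PB k, (1:ℝ) / l - Real.log 2| ≤ C0 / 2 ^ k)
    (hfix : ∀ D : ℤ, ¬ IsSquare D → ∃ C : ℝ, ∀ a b : ℕ, a ≤ b → |∑ k ∈ Ico a b, Dk D k| ≤ C)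
    (p p' q : ℕ) (hp : p.Prime) (hp2 : p ≠ 2) (hp' : p'.Prime) (hp2' : p' ≠ 2) (hpp' : p ≠ p')
    (hq : q.Prime) (hpq : p ≠ q) (hpq' : p' ≠ q) :
    ∃ C : ℝ, 0 < C ∧ ∀ A K W : ℕ, A1 + 1 ≤ A → p * p' * q ≤ K → (bb K)^A ≤ W →
    (((Icc 1 W).filter (fun w => Good w ∧ p ∣ 4 * w - 1 ∧ p' ∣ 4 * w - 1 ∧
      Odd (padicValNat q w))).card : ℝ) ≤
      C * (W / 2^K) * Real.exp (-(K * Real.log 2) / 4) := by
  have hC0 : 0 ≤ C0 := by
    have := (abs_nonneg _).trans (hb 0)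
    rwa [pow_zero, div_one] at this
  obtain ⟨s, hs, hrec⟩ := recip p hp hp2
  obtain ⟨s', hs', hrec'⟩ := recip p' hp' hp2'
  have hss : s * s' = 1 ∨ s * s' = -1 := by
    rcases hs with h | h <;> rcases hs' with h' | h' <;> subst h <;> subst h' <;> simp
  obtain ⟨R₀, hR₀⟩ := hfix (q:ℤ) (by
    have := prime_not_sq 1 (Or.inl rfl) q hq
    rwa [one_mul] at this)
  obtain ⟨R₁, hR₁⟩ := hfix (s * (p:ℤ)) (prime_not_sq s hs p hp)
  obtain ⟨R₂, hR₂⟩ := hfix (s' * (p':ℤ)) (prime_not_sq s' hs' p' hp')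
  obtain ⟨R₃, hR₃⟩ := hfix (s * s' * ((p:ℤ) * p')) (two_prime_not_sq (s * s') hss p p' hp hp' hpp')
  set c : ℝ := 8 + 4 * C0 + R₀ / 2 + (R₁ + R₂ + R₃) / 4 with hc
  refine ⟨C1 * Real.exp c, by positivity, ?_⟩
  intro A K W hA hpqK hW
  obtain ⟨A₁, hA₁⟩ : ∃ A₁ : ℕ → Prop, ∀ l, A₁ l ↔ (¬ IsSquare ((q : ℕ) : ZMod l)) :=
    ⟨_, fun _ => Iff.rfl⟩
  obtain ⟨B₁, hB₁⟩ : ∃ B₁ : ℕ → Prop, ∀ l, B₁ l ↔
      (¬ IsSquare ((l : ℕ) : ZMod p) ∨ ¬ IsSquare ((l : ℕ) : ZMod p')) := ⟨_, fun _ => Iff.rfl⟩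
  have hcpp : Nat.Coprime p p' := (Nat.coprime_primes hp hp').mpr hpp'
  have hcop : Nat.Coprime (p * p') q :=
    Nat.Coprime.mul_left ((Nat.coprime_primes hp hq).mpr hpq) ((Nat.coprime_primes hp' hq).mpr hpq')
  have hcnt := hcount (p * p') q W K A₁ B₁
    ((hp.odd_of_ne_two hp2).mul (hp'.odd_of_ne_two hp2')) hq.pos hcop
    (size_cond A1 A K W (p * p' * q) hA hpqK hW)
  have hsub : (((Icc 1 W).filter (fun w => Good w ∧ p ∣ 4 * w - 1 ∧ p' ∣ 4 * w - 1 ∧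
      Odd (padicValNat q w))).card : ℝ) ≤
    (((Icc 1 W).filter (fun w => p * p' ∣ 4 * w - 1 ∧ q ∣ w ∧
      (∀ l : ℕ, l.Prime → l ≤ bb K → A₁ l → ¬ l ∣ 2 * (p * p') * q → ¬ l ∣ 4 * w - 1) ∧
      (∀ l : ℕ, l.Prime → l ≤ bb K → B₁ l → ¬ l ∣ 2 * (p * p') * q →
        ¬ (l ∣ w ∧ ¬ l^2 ∣ w)))).card : ℝ) := by
    refine Nat.cast_le.mpr (card_le_card fun w hw => ?_)
    rw [mem_filter, mem_Icc] at hw
    obtain ⟨⟨hw1, hw2⟩, hGw, hpd, hpd', hqo⟩ := hw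
    rw [mem_filter, mem_Icc]
    refine ⟨⟨hw1, hw2⟩, hcpp.mul_dvd_of_dvd_of_dvd hpd hpd', dvd_of_odd_val hqo, ?_, ?_⟩
    · intro l hl _ hA _ hdvd
      exact (hA₁ l).mp hA (good_sq hGw hl hdvd hq hqo)
    · intro l hl _ hB _ hdvd
      have hlo := odd_val_of_exact hl hw1 hdvd.1 hdvd.2
      rcases (hB₁ l).mp hB with h | h
      · exact h (good_sq hGw hp hpd hl hlo)
      · exact h (good_sq hGw hp' hpd' hl hlo)
  have hN0 : 2 * (p * p') * q ≠ 0 := by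
    have := hp.pos
    have := hp'.pos
    have := hq.pos
    positivity
  have hNf := card_pf_four p p' q hp hp' hq
  have hpartA := expo_lower (2 * (p * p') * q) hN0 K A₁
    (fun k l => if k ∈ (∅ : Finset ℕ) then (1:ℝ) else (1 - F (q:ℤ) l) / 2) (by
      intro k hk l hl hlN
      have hlp := (mem_PB.mp hl).2
      rw [if_neg (notMem_empty k)]
      refine half_le_ind _ (abs_F_le_one _ _) _ fun hAl => ?_
      have hl2 : l ≠ 2 := by
        rintro rfl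
        exact hlN ⟨p * p' * q, by ring⟩
      have hlq : ¬ l ∣ q := fun h => hlN (dvd_mul_of_dvd_right h _)
      have hsq : IsSquare ((q : ℕ) : ZMod l) := by
        by_contra hcon
        exact hAl ((hA₁ l).mpr hcon)
      rw [F_prime_nat q l hlp hl2 hlq, if_pos hsq]) (by
      intro k l
      split_ifs
      · exact le_refl _
      · have := abs_le.mp (abs_F_le_one (q:ℤ) l)
        linarith)
  have hF3 : ∀ l : ℕ, F (s * s' * ((p:ℤ) * p')) l = F (s * (p:ℤ)) l * F (s' * (p':ℤ)) l := by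
    intro l
    unfold F
    split_ifs
    · rw [show s * s' * ((p:ℤ) * p') = (s * p) * (s' * p') by ring, jacobiSym.mul_left,
        Int.cast_mul]
    · simp
  have hpartB := expo_lower (2 * (p * p') * q) hN0 K B₁
    (fun k l => 3 / 4 - (F (s * (p:ℤ)) l + F (s' * (p':ℤ)) l +
      F (s * s' * ((p:ℤ) * p')) l) / 4) (by
      intro k hk l hl hlN
      have hlp := (mem_PB.mp hl).2
      have hl2 : l ≠ 2 := by
        rintro rfl
        exact hlN ⟨p * p' * q, by ring⟩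
      have hlq : l ≠ p := by
        rintro rfl
        exact hlN ⟨2 * p' * q, by ring⟩
      have hlq' : l ≠ p' := by
        rintro rfl
        exact hlN ⟨2 * p * q, by ring⟩
      rw [hF3, hrec l hlp hl2 hlq, hrec' l hlp hl2 hlq']
      by_cases h1 : IsSquare ((l : ℕ) : ZMod p)
      · by_cases h2 : IsSquare ((l : ℕ) : ZMod p')
        · rw [if_pos h1, if_pos h2]
          split_ifs <;> norm_num
        · rw [if_pos h1, if_neg h2, if_pos ((hB₁ l).mpr (Or.inr h2))]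
          norm_num
      · rw [if_neg h1, if_pos ((hB₁ l).mpr (Or.inl h1))]
        split_ifs <;> norm_num) (by
      intro k l
      rw [hF3]
      have h1 : F (s * (p:ℤ)) l = -1 ∨ F (s * (p:ℤ)) l = 0 ∨ F (s * (p:ℤ)) l = 1 := by
        unfold F
        split_ifs
        · rcases jacobiSym.trichotomy (s * (p:ℤ)) l with h | h | h <;> simp [h]
        · simp
      have h2 := abs_le.mp (abs_F_le_one (s' * (p':ℤ)) l)
      rcases h1 with h | h | h <;> rw [h] <;> linarith)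
  have hR₀' : ∑ k ∈ range K \ ∅, Dk (q:ℤ) k ≤ R₀ := by
    rw [sdiff_empty, ← Nat.Ico_zero_eq_range]
    exact (abs_le.mp (hR₀ 0 K (by omega))).2
  have hrange : ∀ (D : ℤ) (R : ℝ), (∀ a b : ℕ, a ≤ b → |∑ k ∈ Ico a b, Dk D k| ≤ R) →
      ∑ k ∈ range K, Dk D k ≤ R := by
    intro D R h
    rw [← Nat.Ico_zero_eq_range]
    exact (abs_le.mp (h 0 K (by omega))).2
  have hsA := sumA hb K ∅ (empty_subset _) (q:ℤ) R₀ hR₀'
  have hsB := sumB hb K _ _ _ R₁ R₂ R₃ (hrange _ _ hR₁) (hrange _ _ hR₂) (hrange _ _ hR₃)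
  rw [card_empty, Nat.cast_zero] at hsA
  have hE : (K : ℝ) * Real.log 2 + (K * Real.log 2) / 4 - c ≤
      ∑ k ∈ range K, ∑ l ∈ PB k, (if l ∣ 2 * (p * p') * q then (0:ℝ) else
        (if A₁ l then 1 else 0) + (if B₁ l then 1 else 0)) / l := by
    rw [split_sum, hc]
    linarith
  have hp1 : (1:ℝ) ≤ p := by exact_mod_cast hp.one_lt.le
  have hp1' : (1:ℝ) ≤ p' := by exact_mod_cast hp'.one_lt.le
  have hq1 : (1:ℝ) ≤ q := by exact_mod_cast hq.one_lt.le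
  have hexpE : Real.exp (- ∑ k ∈ range K, ∑ l ∈ PB k, (if l ∣ 2 * (p * p') * q then (0:ℝ) else
        (if A₁ l then 1 else 0) + (if B₁ l then 1 else 0)) / l) ≤
      Real.exp c * (1 / 2^K) * Real.exp (-(K * Real.log 2) / 4) := by
    rw [← exp_K, ← Real.exp_add, ← Real.exp_add]
    apply Real.exp_le_exp.mpr
    linarith
  refine hsub.trans (hcnt.trans ?_)
  have hWpq : (W:ℝ) / ((p * p' : ℕ) * q) ≤ W := by
    refine div_le_self (Nat.cast_nonneg _) ?_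
    push_cast
    have : (1:ℝ) ≤ p * p' := by nlinarith
    nlinarith
  have hmul := mul_le_mul (mul_le_mul_of_nonneg_left hWpq hC1.le) hexpE (Real.exp_pos _).le
    (by positivity)
  refine hmul.trans (le_of_eq ?_)
  field_simp

/-- the `w ≤ W` with `p ∣ 4w-1` and `q` dividing `w` to an odd power -/
noncomputable def Mset (W p q : ℕ) : Finset ℕ :=
  (Icc 1 W).filter (fun w => Good w ∧ p.Prime ∧ p ∣ 4 * w - 1 ∧ q.Prime ∧
    Odd (padicValNat q w))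

lemma tendsto_exp_neg_mul (c : ℝ) (hc : 0 < c) (C ε : ℝ) (hC : 0 < C) (hε : 0 < ε) :
    ∃ n0 : ℕ, ∀ n ≥ n0, C * Real.exp (-(n * c)) ≤ ε := by
  obtain ⟨n0, hn0⟩ := exists_nat_ge (Real.log (C / ε) / c)
  refine ⟨n0, fun n hn => ?_⟩
  have h1 : Real.log (C / ε) ≤ n * c := by
    rw [div_le_iff₀ hc] at hn0
    have : (n0:ℝ) ≤ n := by exact_mod_cast hn
    nlinarith
  have h2 : C / ε ≤ Real.exp (n * c) := by
    rw [← Real.exp_log (show 0 < C / ε by positivity)]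
    exact Real.exp_le_exp.mpr h1
  rw [Real.exp_neg, ← div_eq_mul_inv, div_le_iff₀ (Real.exp_pos _)]
  rw [div_le_iff₀ hε] at h2
  linarith

theorem fixed_pair {A1 : ℕ} {C1 : ℝ} (hC1 : 0 < C1) (hcount : CountG A1 C1) {C0 : ℝ}
    (hb : ∀ k : ℕ, |∑ l ∈ PB k, (1:ℝ) / l - Real.log 2| ≤ C0 / 2 ^ k)
    (hfix : ∀ D : ℤ, ¬ IsSquare D → ∃ C : ℝ, ∀ a b : ℕ, a ≤ b → |∑ k ∈ Ico a b, Dk D k| ≤ C)
    (A : ℕ) (hA : A1 + 1 ≤ A) (p q : ℕ) (ε : ℝ) (hε : 0 < ε) :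
    ∃ K0 : ℕ, ∀ K ≥ K0, ∀ W : ℕ, (bb K)^A ≤ W → ((Mset W p q).card : ℝ) ≤ ε * (W / 2^K) := by
  by_cases htriv : p.Prime ∧ p ≠ 2 ∧ q.Prime ∧ p ≠ q
  swap
  · refine ⟨0, fun K _ W _ => ?_⟩
    have : Mset W p q = ∅ := by
      rw [Finset.eq_empty_iff_forall_notMem]
      intro w hw
      unfold Mset at hw
      rw [mem_filter, mem_Icc] at hw
      obtain ⟨⟨hw1, hw2⟩, hG, hp, hpd, hq, hqo⟩ := hw
      refine htriv ⟨hp, ?_, hq, ?_⟩
      · rintro rfl; omega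
      · rintro rfl
        exact not_dvd_both hp hw1 (dvd_of_odd_val hqo) hpd
    rw [this, card_empty, Nat.cast_zero]
    positivity
  obtain ⟨hp, hp2, hq, hpq⟩ := htriv
  -- the constant `R`
  obtain ⟨R₀, hR₀⟩ := hfix (q:ℤ) (by
    have := prime_not_sq 1 (Or.inl rfl) q hq
    rwa [one_mul] at this)
  obtain ⟨R₁, hR₁⟩ := hfix (1 * (p:ℤ)) (prime_not_sq 1 (Or.inl rfl) p hp)
  obtain ⟨R₂, hR₂⟩ := hfix (-1 * (p:ℤ)) (prime_not_sq (-1) (Or.inr rfl) p hp)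
  obtain ⟨C, hC, hi⟩ := fixed_i hC1 hcount hb p q hp hp2 hq hpq (max R₀ (max R₁ R₂))
    (fun a b hab => (hR₀ a b hab).trans (le_max_left _ _))
    (fun s hs a b hab => by
      rcases hs with h | h
      · subst h
        exact (hR₁ a b hab).trans ((le_max_left _ _).trans (le_max_right _ _))
      · subst h
        exact (hR₂ a b hab).trans ((le_max_right _ _).trans (le_max_right _ _)))
  have hl2 : 0 < Real.log 2 := Real.log_pos (by norm_num)
  obtain ⟨n, hn⟩ := tendsto_exp_neg_mul (Real.log 2 / 2) (by positivity) C (ε/2) hC (by positivity)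
  have hn' := hn n (le_refl n)
  set a := p + q with ha
  -- the primes in the blocks
  set H : Finset ℕ := (Ico a (a+n)).biUnion PB with hH
  have hHprop : ∀ p' ∈ H, p'.Prime ∧ p' ≠ 2 ∧ p ≠ p' ∧ p' ≠ q := by
    intro p' hp'
    obtain ⟨k, hk, hpk⟩ := mem_biUnion.mp hp'
    rw [mem_PB] at hpk
    rw [mem_Ico] at hk
    have h1 : a ≤ bb k := (hk.1).trans (le_bb k)
    have := hp.two_le
    have := hq.two_le
    exact ⟨hpk.2, by omega, by omega, by omega⟩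
  have hii : ∀ p' : ℕ, ∃ c : ℝ, 0 < c ∧ (p' ∈ H → ∀ A K W : ℕ, A1 + 1 ≤ A → p * p' * q ≤ K →
      (bb K)^A ≤ W → (((Icc 1 W).filter (fun w => Good w ∧ p ∣ 4 * w - 1 ∧ p' ∣ 4 * w - 1 ∧
      Odd (padicValNat q w))).card : ℝ) ≤ c * (W / 2^K) * Real.exp (-(K * Real.log 2) / 4)) := by
    intro p'
    by_cases h : p' ∈ H
    · obtain ⟨h1, h2, h3, h4⟩ := hHprop p' h
      obtain ⟨c, hc, hc'⟩ := fixed_ii hC1 hcount hb hfix p p' q hp hp2 h1 h2 h3 hq hpq h4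
      exact ⟨c, hc, fun _ => hc'⟩
    · exact ⟨1, one_pos, fun h' => absurd h' h⟩
  choose c hc hc' using hii
  set cs : ℝ := ∑ p' ∈ H, c p' + 1 with hcs
  have hcs0 : 0 < cs := by
    have : 0 ≤ ∑ p' ∈ H, c p' := sum_nonneg fun p' _ => (hc p').le
    linarith
  obtain ⟨m, hm⟩ := tendsto_exp_neg_mul (Real.log 2 / 4) (by positivity) cs (ε/2) hcs0
    (by positivity)
  set K1 : ℕ := ∑ p' ∈ H, p * p' * q with hK1
  refine ⟨m + K1 + p * q + (a + n), fun K hK W hW => ?_⟩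
  have hsplit : Mset W p q ⊆ ((Icc 1 W).filter (fun w => Good w ∧ p ∣ 4 * w - 1 ∧
      Odd (padicValNat q w) ∧ ∀ k ∈ Ico a (a+n), ∀ l ∈ PB k, ¬ l ∣ 4 * w - 1)) ∪
      H.biUnion (fun p' => (Icc 1 W).filter (fun w => Good w ∧ p ∣ 4 * w - 1 ∧ p' ∣ 4 * w - 1 ∧
      Odd (padicValNat q w))) := by
    intro w hw
    unfold Mset at hw
    rw [mem_filter] at hw
    obtain ⟨hwI, hG, _, hpd, _, hqo⟩ := hw
    rw [mem_union]
    by_cases h : ∀ k ∈ Ico a (a+n), ∀ l ∈ PB k, ¬ l ∣ 4 * w - 1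
    · left
      rw [mem_filter]
      exact ⟨hwI, hG, hpd, hqo, h⟩
    · right
      push Not at h
      obtain ⟨k, hk, l, hl, hld⟩ := h
      rw [mem_biUnion]
      refine ⟨l, mem_biUnion.mpr ⟨k, hk, hl⟩, ?_⟩
      rw [mem_filter]
      exact ⟨hwI, hG, hpd, hld, hqo⟩
  have hcard1 := hi a n A K W hA (by omega) (by omega) hW
  have hcard2 : ∀ p' ∈ H, (((Icc 1 W).filter (fun w => Good w ∧ p ∣ 4 * w - 1 ∧ p' ∣ 4 * w - 1 ∧
      Odd (padicValNat q w))).card : ℝ) ≤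
      c p' * (W / 2^K) * Real.exp (-(K * Real.log 2) / 4) := by
    intro p' hp'
    refine hc' p' hp' A K W hA ?_ hW
    have : p * p' * q ≤ K1 := by
      rw [hK1]
      exact single_le_sum (f := fun p' => p * p' * q) (fun _ _ => Nat.zero_le _) hp'
    omega
  have hWK : (0:ℝ) ≤ W / 2^K := by positivity
  have he1 : -((n:ℝ) * Real.log 2) / 2 = -(n * (Real.log 2 / 2)) := by ring
  have he2 : -((K:ℝ) * Real.log 2) / 4 = -(K * (Real.log 2 / 4)) := by ring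
  rw [he1] at hcard1
  have hmK := hm K (by omega)
  calc ((Mset W p q).card : ℝ) ≤ ((((Icc 1 W).filter (fun w => Good w ∧ p ∣ 4 * w - 1 ∧
      Odd (padicValNat q w) ∧ ∀ k ∈ Ico a (a+n), ∀ l ∈ PB k, ¬ l ∣ 4 * w - 1)) ∪
      H.biUnion (fun p' => (Icc 1 W).filter (fun w => Good w ∧ p ∣ 4 * w - 1 ∧ p' ∣ 4 * w - 1 ∧
      Odd (padicValNat q w)))).card : ℝ) := Nat.cast_le.mpr (card_le_card hsplit)
    _ ≤ (((Icc 1 W).filter (fun w => Good w ∧ p ∣ 4 * w - 1 ∧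
      Odd (padicValNat q w) ∧ ∀ k ∈ Ico a (a+n), ∀ l ∈ PB k, ¬ l ∣ 4 * w - 1)).card : ℝ) +
      ((H.biUnion (fun p' => (Icc 1 W).filter (fun w => Good w ∧ p ∣ 4 * w - 1 ∧ p' ∣ 4 * w - 1 ∧
      Odd (padicValNat q w)))).card : ℝ) := by exact_mod_cast card_union_le _ _
    _ ≤ C * (W / 2^K) * Real.exp (-(n * (Real.log 2 / 2))) +
        ∑ p' ∈ H, c p' * (W / 2^K) * Real.exp (-(K * Real.log 2) / 4) := by
        refine add_le_add hcard1 ?_
        refine le_trans ?_ (sum_le_sum hcard2)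
        exact_mod_cast card_biUnion_le
    _ = (C * Real.exp (-(n * (Real.log 2 / 2)))) * (W / 2^K) +
        ((∑ p' ∈ H, c p') * Real.exp (-(K * (Real.log 2 / 4)))) * (W / 2^K) := by
        rw [he2, ← sum_mul, ← sum_mul]; ring
    _ ≤ (ε / 2) * (W / 2^K) + (ε / 2) * (W / 2^K) := by
        refine add_le_add (mul_le_mul_of_nonneg_right hn' hWK)
          (mul_le_mul_of_nonneg_right (le_trans ?_ hmK) hWK)
        exact mul_le_mul_of_nonneg_right (by rw [hcs]; linarith) (Real.exp_pos _).le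
    _ = ε * (W / 2^K) := by ring

end Pool.Agent.H95.Gol
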