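import Mathlib
import Pool.Agent.H95.Gol.Fixed

/-!
The `w` all of whose prime divisors `≤ bb K` have even exponent.
-/

namespace Pool.Agent.H95.Gol

open Finset Classical

/-- the `w ≤ W` all of whose prime divisors `≤ bb K` have even exponent -/
noncomputable def Bset (K W : ℕ) : Finset ℕ :=
  (Icc 1 W).filter (fun w => Good w ∧ ∀ q : ℕ, q.Prime → q ≤ bb K → ¬ Odd (padicValNat q w))

/-- the statement of `countRough` for given constants -/
def CountR (A2 : ℕ) (C2 : ℝ) : Prop :=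
  ∀ (u T K : ℕ) (Q : Finset ℕ), 0 < u →
    (∀ l ∈ Q, l.Prime ∧ ¬ l ∣ 2 * u ∧ l ≤ bb K) → (bb K)^A2 ≤ T →
    (((Icc 1 T).filter (fun t => (∀ l : ℕ, l.Prime → l ≤ bb K → ¬ l ∣ t) ∧
      ∀ l ∈ Q, ¬ l ∣ 4 * u^2 * t - 1)).card : ℝ) ≤
      C2 * T * Real.exp (- ∑ k ∈ range K, ∑ l ∈ PB k, (1:ℝ)/l) *
        Real.exp (- ∑ l ∈ Q, (1:ℝ)/l)

/-- if `-1` is not a power of `x` modulo `l`, then `x` has odd order -/
lemma odd_order {l : ℕ} (hl : l.Prime) (x : ZMod l) (hx : x ≠ 0) (h : ∀ m : ℕ, x ^ m ≠ -1) :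
    ∃ N : ℕ, Odd N ∧ x ^ N = 1 := by
  have hf : Fact l.Prime := ⟨hl⟩
  refine ⟨orderOf x, ?_, pow_orderOf_eq_one x⟩
  have hpos : 0 < orderOf x := by
    rw [orderOf_pos_iff, isOfFinOrder_iff_pow_eq_one]
    exact ⟨l - 1, by have := hl.two_le; omega, ZMod.pow_card_sub_one_eq_one hx⟩
  rw [← Nat.not_even_iff_odd]
  rintro ⟨m, hm⟩
  have h1 : (x ^ m) ^ 2 = 1 := by
    rw [← pow_mul, mul_two, ← hm]; exact pow_orderOf_eq_one x
  rcases sq_eq_one_iff.mp h1 with h2 | h2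
  · have := orderOf_le_of_pow_eq_one (by omega) h2
    omega
  · exact h m h2

lemma odd_order_prod {l : ℕ} (L : List ℕ) (h : ∀ q ∈ L, ∃ N : ℕ, Odd N ∧ ((q : ℕ) : ZMod l) ^ N = 1) :
    ∃ N : ℕ, Odd N ∧ ((L.prod : ℕ) : ZMod l) ^ N = 1 := by
  induction L with
  | nil => exact ⟨1, odd_one, by simp⟩
  | cons a L ih =>
    obtain ⟨N, hN, hN1⟩ := h a (by simp)
    obtain ⟨M, hM, hM1⟩ := ih fun q hq => h q (by simp [hq])
    refine ⟨N * M, hN.mul hM, ?_⟩
    rw [List.prod_cons, Nat.cast_mul, mul_pow, pow_mul, hN1, one_pow, one_mul, mul_comm N M,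
      pow_mul, hM1, one_pow]

/-- decomposition of the elements of `Bset` -/
lemma Bset_decomp {K W w : ℕ} (hw : w ∈ Bset K W) : ∃ u t : ℕ, 1 ≤ u ∧ 1 ≤ t ∧ w = u^2 * t ∧
    (∀ l : ℕ, l.Prime → l ≤ bb K → ¬ l ∣ t) ∧
    ∀ l : ℕ, l.Prime → (∃ m : ℕ, ((4 * u^2 : ℕ) : ZMod l)^m = -1) → ¬ l ∣ 4 * u^2 * t - 1 := by
  unfold Bset at hw
  rw [mem_filter, mem_Icc] at hw
  obtain ⟨⟨hw1, hw2⟩, hG, hno⟩ := hw
  obtain ⟨t, u, hut, hsq⟩ := Nat.sq_mul_squarefree w
  have hu : 1 ≤ u := by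
    rcases Nat.eq_zero_or_pos u with h | h
    · subst h; simp at hut; omega
    · exact h
  have ht : 1 ≤ t := by
    rcases Nat.eq_zero_or_pos t with h | h
    · subst h; simp at hut; omega
    · exact h
  have hval : ∀ q : ℕ, q.Prime → q ∣ t → Odd (padicValNat q w) := by
    intro q hq hqt
    have hf : Fact q.Prime := ⟨hq⟩
    rw [← hut, padicValNat.mul (by positivity) (by omega), padicValNat.pow]
    have h1 : padicValNat q t = 1 := by
      apply le_antisymm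
      · by_contra hcon
        push Not at hcon
        have h2 : q ^ 2 ∣ t := (padicValNat_dvd_iff_le (by omega)).mpr hcon
        rw [sq] at h2
        exact hq.one_lt.ne' (Nat.isUnit_iff.mp (hsq q h2))
      · exact one_le_padicValNat_of_dvd (by omega) hqt
    rw [h1]
    exact ⟨padicValNat q u, rfl⟩
  refine ⟨u, t, hu, ht, hut.symm, ?_, ?_⟩
  · intro l hl hlK hlt
    exact hno l hl hlK (hval l hl hlt)
  · rintro l hl ⟨m, hm⟩ hdvd
    have hf : Fact l.Prime := ⟨hl⟩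
    have h4w : 4 * u^2 * t - 1 = 4 * w - 1 := by rw [← hut]; congr 1; ring
    rw [h4w] at hdvd
    have hl2 : l ≠ 2 := by
      rintro rfl; omega
    have hlw : ∀ q : ℕ, q.Prime → q ∣ w → ((q : ℕ) : ZMod l) ≠ 0 := by
      intro q hq hqw h
      rw [ZMod.natCast_eq_zero_iff] at h
      have := (Nat.prime_dvd_prime_iff_eq hl hq).mp h
      subst this
      exact not_dvd_both hl hw1 hqw hdvd
    obtain ⟨N, hN, hN1⟩ := odd_order_prod (l := l) t.primeFactorsList (by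
      intro q hq
      have hqp := Nat.prime_of_mem_primeFactorsList hq
      have hqt := Nat.dvd_of_mem_primeFactorsList hq
      have hqw : q ∣ w := by rw [← hut]; exact dvd_mul_of_dvd_right hqt _
      exact odd_order hl _ (hlw q hqp hqw)
        (fun m => hG l q hl hqp hdvd (hval q hqp hqt) m))
    rw [Nat.prod_primeFactorsList (by omega)] at hN1
    have h1 : ((4 * u^2 : ℕ) : ZMod l) * ((t : ℕ) : ZMod l) = 1 := by
      rw [← Nat.cast_mul, show 4 * u^2 * t = (4 * w - 1) + 1 by rw [← h4w]; have : 1 ≤ 4 * u^2 * t := Nat.mul_pos (by positivity) ht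
                                                                omega,
        Nat.cast_add, (ZMod.natCast_eq_zero_iff _ _).mpr hdvd, Nat.cast_one, zero_add]
    have h2 : ((4 * u^2 : ℕ) : ZMod l)^N = 1 := by
      have h3 : (((4 * u^2 : ℕ) : ZMod l) * ((t : ℕ) : ZMod l))^N = 1 := by rw [h1, one_pow]
      rwa [mul_pow, hN1, mul_one] at h3
    have h3 : (-1 : ZMod l)^N = 1 := by
      rw [← hm, ← pow_mul, mul_comm m N, pow_mul, h2, one_pow]
    rw [hN.neg_one_pow] at h3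
    have h4 : ((2:ℕ) : ZMod l) = 0 := by
      push_cast
      have : (1 : ZMod l) + 1 = 0 := by
        nth_rewrite 1 [← h3]; ring
      rw [← this]; norm_num
    rw [ZMod.natCast_eq_zero_iff] at h4
    exact hl2 ((Nat.prime_dvd_prime_iff_eq hl Nat.prime_two).mp h4)

/-- the `t` in the decomposition for a given `u` -/
noncomputable def Rset (K T u : ℕ) (Q : Finset ℕ) : Finset ℕ :=
  (Icc 1 T).filter (fun t => (∀ l : ℕ, l.Prime → l ≤ bb K → ¬ l ∣ t) ∧
      ∀ l ∈ Q, ¬ l ∣ 4 * u^2 * t - 1)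

lemma Bset_cover (K W V : ℕ) (Q : ℕ → Finset ℕ)
    (hQ : ∀ u, 1 ≤ u → ∀ l ∈ Q u, l.Prime ∧ ∃ m : ℕ, ((4 * u^2 : ℕ) : ZMod l)^m = -1) :
    Bset K W ⊆ ((Icc 1 V).biUnion fun u => (Rset K (W / u^2) u (Q u)).image (fun t => u^2 * t)) ∪
      ((Ioc V (Nat.sqrt W)).biUnion fun u => (Ioc 0 W).filter (fun w => u^2 ∣ w)) := by
  intro w hw
  obtain ⟨u, t, hu, ht, hwut, h1, h2⟩ := Bset_decomp hw
  unfold Bset at hw
  rw [mem_filter, mem_Icc] at hw
  obtain ⟨⟨hw1, hw2⟩, hG, hno⟩ := hw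
  have hu2 : 0 < u^2 := by positivity
  rw [mem_union]
  rcases le_or_gt u V with h | h
  · left
    rw [mem_biUnion]
    refine ⟨u, mem_Icc.mpr ⟨hu, h⟩, mem_image.mpr ⟨t, ?_, hwut.symm⟩⟩
    unfold Rset
    rw [mem_filter, mem_Icc]
    refine ⟨⟨ht, ?_⟩, h1, fun l hl => ?_⟩
    · rw [Nat.le_div_iff_mul_le hu2, mul_comm]
      rw [← hwut]; exact hw2
    · obtain ⟨h3, h4⟩ := hQ u hu l hl
      exact h2 l h3 h4
  · right
    rw [mem_biUnion]
    refine ⟨u, mem_Ioc.mpr ⟨h, ?_⟩, ?_⟩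
    · rw [Nat.le_sqrt']
      calc u^2 ≤ u^2 * t := Nat.le_mul_of_pos_right _ ht
        _ = w := hwut.symm
        _ ≤ W := hw2
    · rw [mem_filter, mem_Ioc]
      exact ⟨⟨by omega, hw2⟩, ⟨t, hwut⟩⟩

lemma sum_inv_sq_Ioc (V N : ℕ) (hV : 1 ≤ V) : ∑ u ∈ Ioc V N, (1:ℝ) / (u:ℝ)^2 ≤ 1 / V := by
  rcases le_or_gt V N with h | h
  · have h1 := sum_Ioc_inv_sq_le_sub (α := ℝ) (k := V) (n := N) (by omega) h
    have h2 : (0:ℝ) ≤ (N:ℝ)⁻¹ := by positivity
    calc ∑ u ∈ Ioc V N, (1:ℝ) / (u:ℝ)^2 = ∑ u ∈ Ioc V N, ((u:ℝ)^2)⁻¹ :=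
          sum_congr rfl fun u _ => by rw [one_div]
      _ ≤ (V:ℝ)⁻¹ - (N:ℝ)⁻¹ := h1
      _ ≤ 1 / V := by rw [one_div]; linarith
  · rw [Ioc_eq_empty (by omega), sum_empty]; positivity

theorem caseB {A2 : ℕ} {C2 : ℝ} (hC2 : 0 < C2) (hcount : CountR A2 C2) {C0 : ℝ}
    (hb : ∀ k : ℕ, |∑ l ∈ PB k, (1:ℝ) / l - Real.log 2| ≤ C0 / 2 ^ k)
    (heven : ∀ u : ℕ, 0 < u → ∀ C : ℝ, ∃ Q : Finset ℕ,
      (∀ l ∈ Q, l.Prime ∧ ¬ l ∣ 2 * u ∧ ∃ m : ℕ, ((4 * u^2 : ℕ) : ZMod l)^m = -1) ∧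
      C < ∑ l ∈ Q, (1:ℝ)/l)
    (A : ℕ) (hA : 2 * A2 + 4 ≤ A) (ε : ℝ) (hε : 0 < ε) :
    ∃ K0 : ℕ, ∀ K ≥ K0, ∀ W : ℕ, (bb K)^A ≤ W → ((Bset K W).card : ℝ) ≤ ε * (W / 2^K) := by
  have hC0 : 0 ≤ C0 := by
    have := (abs_nonneg _).trans (hb 0)
    rwa [pow_zero, div_one] at this
  -- parameters
  set D : ℝ := C2 * Real.exp (2 * C0) with hD
  have hD0 : 0 < D := by positivity
  obtain ⟨U, hU⟩ := exists_nat_ge (3 * D / ε)
  obtain ⟨R, hR⟩ := exists_nat_ge (Real.log (6 * D / ε))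
  have hQex : ∀ u : ℕ, ∃ Q : Finset ℕ, (0 < u → (∀ l ∈ Q, l.Prime ∧ ¬ l ∣ 2 * u ∧
      ∃ m : ℕ, ((4 * u^2 : ℕ) : ZMod l)^m = -1) ∧ (R:ℝ) < ∑ l ∈ Q, (1:ℝ)/l) := by
    intro u
    rcases Nat.eq_zero_or_pos u with h | h
    · exact ⟨∅, fun h' => by omega⟩
    · obtain ⟨Q, hQ⟩ := heven u h R
      exact ⟨Q, fun _ => hQ⟩
  choose Qf hQf using hQex
  set Q : ℕ → Finset ℕ := fun u => if u ≤ U then Qf u else ∅ with hQ
  set B : ℕ := ∑ u ∈ range (U+1), ∑ l ∈ Qf u, l with hB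
  obtain ⟨m, hm⟩ := tendsto_exp_neg_mul (Real.log 2) (Real.log_pos (by norm_num)) 1 (ε/3) one_pos
    (by positivity)
  refine ⟨B + m + U + 1, fun K hK W hW => ?_⟩
  have hB2 := two_le_bb K
  have hA4 : (bb K)^4 ≤ W := (Nat.pow_le_pow_right (bb_pos K) (by omega)).trans hW
  have hA22 : (bb K)^(2*A2) ≤ W := (Nat.pow_le_pow_right (bb_pos K) (by omega)).trans hW
  set S := Nat.sqrt W with hS
  set V := Nat.sqrt S with hV
  have hVS : V^2 ≤ S := Nat.sqrt_le' S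
  have hSW : S^2 ≤ W := Nat.sqrt_le' W
  have hbS : (bb K)^2 ≤ S := by
    rw [hS, Nat.le_sqrt']
    calc ((bb K)^2)^2 = (bb K)^4 := by ring
      _ ≤ W := hA4
  have hbV : bb K ≤ V := by
    rw [hV, Nat.le_sqrt']; exact hbS
  have hbA2 : (bb K)^A2 ≤ S := by
    rw [hS, Nat.le_sqrt']
    calc ((bb K)^A2)^2 = (bb K)^(2*A2) := by rw [← pow_mul, mul_comm]
      _ ≤ W := hA22
  have hUV : U ≤ V := by
    have := le_bb K
    omega
  have hV1 : 1 ≤ V := by omega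
  -- properties of `Q`
  have hQ1 : ∀ u, 1 ≤ u → ∀ l ∈ Q u, l.Prime ∧ ∃ m : ℕ, ((4 * u^2 : ℕ) : ZMod l)^m = -1 := by
    intro u hu l hl
    simp only [hQ] at hl
    split_ifs at hl with h
    · have := (hQf u hu).1 l hl
      exact ⟨this.1, this.2.2⟩
    · exact absurd hl (notMem_empty l)
  have hQ2 : ∀ u, 1 ≤ u → ∀ l ∈ Q u, l.Prime ∧ ¬ l ∣ 2 * u ∧ l ≤ bb K := by
    intro u hu l hl
    simp only [hQ] at hl
    split_ifs at hl with h
    · have h1 := (hQf u hu).1 l hl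
      refine ⟨h1.1, h1.2.1, ?_⟩
      have h2 : l ≤ ∑ l ∈ Qf u, l := single_le_sum (f := fun l => l) (fun _ _ => Nat.zero_le _) hl
      have h3 : ∑ l ∈ Qf u, l ≤ B :=
        single_le_sum (f := fun u => ∑ l ∈ Qf u, l) (fun _ _ => Nat.zero_le _)
          (mem_range.mpr (by omega))
      have := le_bb K
      omega
    · exact absurd hl (notMem_empty l)
  -- the main sum over the blocks
  have hWK : (0:ℝ) ≤ W / 2^K := by positivity
  have hmain : Real.exp (- ∑ k ∈ range K, ∑ l ∈ PB k, (1:ℝ)/l) ≤ Real.exp (2 * C0) * (1 / 2^K) := by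
    rw [← exp_K, ← Real.exp_add]
    apply Real.exp_le_exp.mpr
    have h1 : (K : ℝ) * Real.log 2 - 2 * C0 ≤ ∑ k ∈ range K, ∑ l ∈ PB k, (1:ℝ) / l := by
      calc (K : ℝ) * Real.log 2 - 2 * C0 ≤
            (K : ℝ) * Real.log 2 - C0 * ∑ k ∈ range K, (1:ℝ) / 2 ^ k := by
            have h1 : ∑ k ∈ range K, (1:ℝ) / 2 ^ k ≤ 2 := by
              have := geom_half' 0 K
              rw [pow_zero, div_one, Nat.Ico_zero_eq_range] at this
              exact this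
            nlinarith
        _ = ∑ k ∈ range K, (Real.log 2 - C0 * (1 / 2 ^ k)) := by
            rw [sum_sub_distrib, sum_const, nsmul_eq_mul, mul_sum, card_range]
        _ ≤ _ := sum_le_sum fun k _ => by
            have := (abs_le.mp (hb k)).1
            rw [mul_one_div]
            linarith
    linarith
  have hRset : ∀ u ∈ Icc 1 V, ((Rset K (W / u^2) u (Q u)).card : ℝ) ≤
      D * (W / 2^K) * (1 / (u:ℝ)^2) * Real.exp (- ∑ l ∈ Q u, (1:ℝ)/l) := by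
    intro u hu
    rw [mem_Icc] at hu
    have hu2 : u^2 ≤ S := (Nat.pow_le_pow_left hu.2 2).trans hVS
    have hu0 : 0 < u^2 := by have := hu.1; positivity
    have hT : S ≤ W / u^2 := by
      rw [Nat.le_div_iff_mul_le hu0]
      calc S * u^2 ≤ S * S := Nat.mul_le_mul_left _ hu2
        _ = S^2 := by ring
        _ ≤ W := hSW
    have h1 := hcount u (W / u^2) K (Q u) (by omega) (hQ2 u hu.1) (hbA2.trans hT)
    have h2 : ((W / u^2 : ℕ) : ℝ) ≤ W / (u:ℝ)^2 := by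
      have := @Nat.cast_div_le ℝ _ _ _ W (u^2)
      rwa [Nat.cast_pow] at this
    unfold Rset
    refine h1.trans ?_
    calc C2 * ((W / u^2 : ℕ) : ℝ) * Real.exp (- ∑ k ∈ range K, ∑ l ∈ PB k, (1:ℝ)/l) *
          Real.exp (- ∑ l ∈ Q u, (1:ℝ)/l)
        ≤ C2 * (W / (u:ℝ)^2) * (Real.exp (2 * C0) * (1 / 2^K)) *
          Real.exp (- ∑ l ∈ Q u, (1:ℝ)/l) := by
          gcongr
      _ = _ := by rw [hD]; ring
  have hη : ∀ u ∈ Icc 1 U, Real.exp (- ∑ l ∈ Q u, (1:ℝ)/l) ≤ ε / (6 * D) := by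
    intro u hu
    rw [mem_Icc] at hu
    have h1 := (hQf u hu.1).2
    have h2 : Q u = Qf u := by simp only [hQ, hu.2, if_true]
    rw [h2]
    calc Real.exp (- ∑ l ∈ Qf u, (1:ℝ)/l) ≤ Real.exp (- Real.log (6 * D / ε)) :=
          Real.exp_le_exp.mpr (by linarith)
      _ = ε / (6 * D) := by
          rw [Real.exp_neg, Real.exp_log (by positivity), inv_div]
  have hsumU : ∑ u ∈ Icc 1 U, ((Rset K (W / u^2) u (Q u)).card : ℝ) ≤ ε / 3 * (W / 2^K) := by
    calc ∑ u ∈ Icc 1 U, ((Rset K (W / u^2) u (Q u)).card : ℝ)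
        ≤ ∑ u ∈ Icc 1 U, D * (W / 2^K) * (1 / (u:ℝ)^2) * (ε / (6 * D)) := by
          refine sum_le_sum fun u hu => ?_
          refine (hRset u (Icc_subset_Icc_right hUV hu)).trans ?_
          exact mul_le_mul_of_nonneg_left (hη u hu) (by positivity)
      _ = D * (W / 2^K) * (∑ u ∈ Icc 1 U, 1 / (u:ℝ)^2) * (ε / (6 * D)) := by
          rw [← sum_mul, ← mul_sum]
      _ ≤ D * (W / 2^K) * 2 * (ε / (6 * D)) := by
          have h1 : ∑ u ∈ Icc 1 U, (1:ℝ) / (u:ℝ)^2 ≤ 2 := by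
            have h2 : Icc 1 U ⊆ insert 1 (Ioc 1 U) := by
              intro u hu
              rw [mem_Icc] at hu
              rw [mem_insert, mem_Ioc]
              omega
            calc ∑ u ∈ Icc 1 U, (1:ℝ) / (u:ℝ)^2 ≤ ∑ u ∈ insert 1 (Ioc 1 U), (1:ℝ) / (u:ℝ)^2 :=
                  sum_le_sum_of_subset_of_nonneg h2 fun _ _ _ => by positivity
              _ = 1 / ((1:ℕ):ℝ)^2 + ∑ u ∈ Ioc 1 U, (1:ℝ) / (u:ℝ)^2 := sum_insert (by simp)
              _ ≤ 1 + 1 / ((1:ℕ):ℝ) := by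
                  have := sum_inv_sq_Ioc 1 U (le_refl _)
                  have h3 : (1:ℝ) / ((1:ℕ):ℝ)^2 = 1 := by norm_num
                  rw [h3]; linarith
              _ = 2 := by norm_num
          gcongr
      _ = ε / 3 * (W / 2^K) := by field_simp; ring
  have hsumV : ∑ u ∈ Ioc U V, ((Rset K (W / u^2) u (Q u)).card : ℝ) ≤ ε / 3 * (W / 2^K) := by
    rcases Nat.eq_zero_or_pos U with hU0 | hU0
    · -- impossible, since `3 D / ε > 0`
      rw [hU0, Nat.cast_zero] at hU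
      have : 0 < 3 * D / ε := by positivity
      linarith
    · calc ∑ u ∈ Ioc U V, ((Rset K (W / u^2) u (Q u)).card : ℝ)
          ≤ ∑ u ∈ Ioc U V, D * (W / 2^K) * (1 / (u:ℝ)^2) := by
            refine sum_le_sum fun u hu => ?_
            rw [mem_Ioc] at hu
            refine (hRset u (mem_Icc.mpr ⟨by omega, hu.2⟩)).trans ?_
            have h1 : Real.exp (- ∑ l ∈ Q u, (1:ℝ)/l) ≤ 1 := by
              apply Real.exp_le_one_iff.mpr
              have : 0 ≤ ∑ l ∈ Q u, (1:ℝ)/l := sum_nonneg fun _ _ => by positivity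
              linarith
            exact mul_le_of_le_one_right (by positivity) h1
        _ = D * (W / 2^K) * ∑ u ∈ Ioc U V, 1 / (u:ℝ)^2 := by rw [mul_sum]
        _ ≤ D * (W / 2^K) * (1 / U) :=
            mul_le_mul_of_nonneg_left (sum_inv_sq_Ioc U V hU0) (by positivity)
        _ = (D / U) * (W / 2^K) := by ring
        _ ≤ ε / 3 * (W / 2^K) := by
            refine mul_le_mul_of_nonneg_right ?_ hWK
            have hU' : (0:ℝ) < U := by exact_mod_cast hU0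
            rw [div_le_iff₀ hε] at hU
            rw [div_le_div_iff₀ hU' (by norm_num)]
            linarith
  have hsumS : ∑ u ∈ Ioc V S, (((Ioc 0 W).filter (fun w => u^2 ∣ w)).card : ℝ) ≤
      ε / 3 * (W / 2^K) := by
    calc ∑ u ∈ Ioc V S, (((Ioc 0 W).filter (fun w => u^2 ∣ w)).card : ℝ)
        ≤ ∑ u ∈ Ioc V S, (W:ℝ) * (1 / (u:ℝ)^2) := by
          refine sum_le_sum fun u _ => ?_
          have h1 := Nat.Ioc_filter_dvd_card_eq_div W (u^2)
          have h2 : (((Ioc 0 W).filter (fun w => u^2 ∣ w)).card : ℝ) = ((W / u^2 : ℕ) : ℝ) := by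
            rw [← h1]
          rw [h2, mul_one_div]
          have := @Nat.cast_div_le ℝ _ _ _ W (u^2)
          rwa [Nat.cast_pow] at this
      _ = W * ∑ u ∈ Ioc V S, 1 / (u:ℝ)^2 := by rw [mul_sum]
      _ ≤ W * (1 / V) := mul_le_mul_of_nonneg_left (sum_inv_sq_Ioc V S hV1) (Nat.cast_nonneg _)
      _ ≤ W * (1 / 4^K) := by
          refine mul_le_mul_of_nonneg_left ?_ (Nat.cast_nonneg _)
          refine one_div_le_one_div_of_le (by positivity) ?_
          exact_mod_cast (four_pow_le_bb K).trans hbV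
      _ = (1 / 2^K) * (W / 2^K) := by
          rw [show (4:ℝ)^K = 2^K * 2^K by rw [← mul_pow]; norm_num]
          field_simp
      _ ≤ ε / 3 * (W / 2^K) := by
          refine mul_le_mul_of_nonneg_right ?_ hWK
          have := hm K (by omega)
          rw [one_mul, exp_K] at this
          exact this
  -- assembly
  have hcov := card_le_card (Bset_cover K W V Q hQ1)
  have h1 : ((Bset K W).card : ℝ) ≤
      ∑ u ∈ Icc 1 V, ((Rset K (W / u^2) u (Q u)).card : ℝ) +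
      ∑ u ∈ Ioc V S, (((Ioc 0 W).filter (fun w => u^2 ∣ w)).card : ℝ) := by
    have h2 : (((Icc 1 V).biUnion fun u =>
        (Rset K (W / u^2) u (Q u)).image (fun t => u^2 * t)).card : ℝ) ≤
        ∑ u ∈ Icc 1 V, ((Rset K (W / u^2) u (Q u)).card : ℝ) := by
      refine le_trans (Nat.cast_le.mpr card_biUnion_le) ?_
      rw [Nat.cast_sum]
      exact sum_le_sum fun u _ => Nat.cast_le.mpr card_image_le
    have h3 : (((Ioc V S).biUnion fun u => (Ioc 0 W).filter (fun w => u^2 ∣ w)).card : ℝ) ≤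
        ∑ u ∈ Ioc V S, (((Ioc 0 W).filter (fun w => u^2 ∣ w)).card : ℝ) := by
      refine le_trans (Nat.cast_le.mpr card_biUnion_le) ?_
      rw [Nat.cast_sum]
    have h4 := (Nat.cast_le (α := ℝ)).mpr (hcov.trans (card_union_le _ _))
    rw [Nat.cast_add] at h4
    linarith
  have hsplitV : ∑ u ∈ Icc 1 V, ((Rset K (W / u^2) u (Q u)).card : ℝ) =
      ∑ u ∈ Icc 1 U, ((Rset K (W / u^2) u (Q u)).card : ℝ) +
      ∑ u ∈ Ioc U V, ((Rset K (W / u^2) u (Q u)).card : ℝ) := by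
    rw [← sum_union]
    · congr 1
      ext u
      simp only [mem_union, mem_Icc, mem_Ioc]
      omega
    · rw [disjoint_left]
      intro u hu hu'
      rw [mem_Icc] at hu
      rw [mem_Ioc] at hu'
      omega
  calc ((Bset K W).card : ℝ) ≤ _ := h1
    _ ≤ ε / 3 * (W / 2^K) + ε / 3 * (W / 2^K) + ε / 3 * (W / 2^K) := by
        rw [hsplitV]; linarith
    _ = ε * (W / 2^K) := by ring

end Pool.Agent.H95.Gol
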