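import Mathlib
import Pool.Agent.H95.Gol.CaseB

/-!
Assembly: the `w ≤ W` with `Good w` and `4w-1` composite are `o(W / log W)`, given Mertens in
blocks, the summable weight, the bound for a fixed character, and the primes modulo which `4u²` has
even order.
-/

namespace Pool.Agent.H95.Gol

open Finset Classical Filter

/-- the exceptional set -/
noncomputable def Sset (W : ℕ) : Finset ℕ :=
  (Icc 1 W).filter (fun w => Good w ∧ ¬ (4 * w - 1).Prime)

lemma Sset_cover (K W : ℕ) : Sset W ⊆ Bset K W ∪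
    ((range (4 * W + 1)) ×ˢ (range (bb K + 1))).biUnion (fun x => Nset K W x.1 x.2) := by
  intro w hw
  unfold Sset at hw
  rw [mem_filter, mem_Icc] at hw
  obtain ⟨⟨hw1, hw2⟩, hG, hnp⟩ := hw
  rw [mem_union]
  by_cases h : ∀ q : ℕ, q.Prime → q ≤ bb K → ¬ Odd (padicValNat q w)
  · left
    unfold Bset
    rw [mem_filter, mem_Icc]
    exact ⟨⟨hw1, hw2⟩, hG, h⟩
  · right
    push Not at h
    have hex : ∃ q : ℕ, q.Prime ∧ q ≤ bb K ∧ Odd (padicValNat q w) := h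
    have hspec := Nat.find_spec hex
    set q := Nat.find hex with hq
    rw [mem_biUnion]
    refine ⟨((4 * w - 1).minFac, q), ?_, ?_⟩
    · rw [mem_product, mem_range, mem_range]
      have h1 := Nat.minFac_le (n := 4 * w - 1) (by omega)
      have h2 := hspec.2.1
      exact ⟨by show (4 * w - 1).minFac < 4 * W + 1; omega, by show q < bb K + 1; omega⟩
    · unfold Nset
      rw [mem_filter, mem_Icc]
      refine ⟨⟨hw1, hw2⟩, hG, hnp, rfl, hspec.1, hspec.2.1, hspec.2.2, ?_⟩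
      intro l hl hlp hlo
      have := Nat.find_min hex hl
      exact this ⟨hlp, (hl.le).trans hspec.2.1, hlo⟩

lemma Nset_subset_Mset (K W p q : ℕ) : Nset K W p q ⊆ Mset W p q := by
  intro w hw
  unfold Nset at hw
  unfold Mset
  rw [mem_filter, mem_Icc] at hw ⊢
  obtain ⟨⟨hw1, hw2⟩, hG, hnp, hpm, hqp, hqK, hqo, hql⟩ := hw
  have hn1 : 4 * w - 1 ≠ 1 := by omega
  exact ⟨⟨hw1, hw2⟩, hG, hpm ▸ Nat.minFac_prime hn1, hpm ▸ Nat.minFac_dvd _, hqp, hqo⟩

theorem main_scale (hblk : ∃ C : ℝ, 0 < C ∧ ∀ k : ℕ,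
      |∑ l ∈ PB k, (1:ℝ) / l - Real.log 2| ≤ C / 2 ^ k)
    (hweight : ∀ s : ℤ, (s = 1 ∨ s = -1) → ∃ μ : ℕ → ℝ,
      (∀ p : ℕ, p.Prime → ∀ a b : ℕ, a ≤ b → |∑ k ∈ Ico a b, Dk (s * p) k| ≤ μ p) ∧
      Summable (fun p : ℕ => if p.Prime then Real.exp (μ p / 2) / (p * √(Real.log p)) else 0))
    (hfix : ∀ D : ℤ, ¬ IsSquare D → ∃ C : ℝ, ∀ a b : ℕ, a ≤ b → |∑ k ∈ Ico a b, Dk D k| ≤ C)
    (heven : ∀ u : ℕ, 0 < u → ∀ C : ℝ, ∃ Q : Finset ℕ,
      (∀ l ∈ Q, l.Prime ∧ ¬ l ∣ 2 * u ∧ ∃ m : ℕ, ((4 * u^2 : ℕ) : ZMod l)^m = -1) ∧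
      C < ∑ l ∈ Q, (1:ℝ)/l) :
    ∃ A : ℕ, 0 < A ∧ ∀ ε : ℝ, 0 < ε → ∃ K0 : ℕ, ∀ K ≥ K0, ∀ W : ℕ, (bb K)^A ≤ W →
      W < (bb (K+1))^A → ((Sset W).card : ℝ) ≤ ε * (W / 2^K) := by
  obtain ⟨μ₁, hμ₁, hs₁⟩ := hweight 1 (Or.inl rfl)
  obtain ⟨μ₂, hμ₂, hs₂⟩ := hweight (-1) (Or.inr rfl)
  set μ : ℕ → ℝ := fun p => max (μ₁ p) (μ₂ p) with hμ
  have hμb : ∀ s : ℤ, (s = 1 ∨ s = -1) → ∀ p : ℕ, p.Prime → ∀ a b : ℕ, a ≤ b →
      |∑ k ∈ Ico a b, Dk (s * p) k| ≤ μ p := by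
    intro s hs p hp a b hab
    rcases hs with h | h
    · subst h; exact (hμ₁ p hp a b hab).trans (le_max_left _ _)
    · subst h; exact (hμ₂ p hp a b hab).trans (le_max_right _ _)
  have hsum : Summable (tau μ) := by
    refine Summable.of_nonneg_of_le (tau_nonneg μ) (fun p => ?_) (hs₁.add hs₂)
    unfold tau
    by_cases hp : p.Prime
    · simp only [hp, if_true]
      rw [← add_div]
      refine div_le_div_of_nonneg_right ?_ (by positivity)
      simp only [hμ]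
      rcases le_total (μ₁ p) (μ₂ p) with h | h
      · rw [max_eq_right h]
        have := Real.exp_pos (μ₁ p / 2)
        linarith
      · rw [max_eq_left h]
        have := Real.exp_pos (μ₂ p / 2)
        linarith
    · simp [hp]
  obtain ⟨A1, C1, hC1, hcountG⟩ := countG_of_blk hblk
  obtain ⟨A2, C2, hC2, hcountR⟩ := countRough_of_blk hblk
  obtain ⟨A0, hpair⟩ := pair_bound hblk μ hμb
  obtain ⟨C0, hC0, hb⟩ := hblk
  set A : ℕ := A0 + (A1 + 1) + (2 * A2 + 4) with hA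
  obtain ⟨C, hC, hpairA⟩ := hpair A (by omega)
  refine ⟨A, by omega, fun ε hε => ?_⟩
  -- total and tail of the weights
  set T : ℝ := ∑' p, tau μ p + 1 with hT
  have hT0 : 0 < T := by
    have : 0 ≤ ∑' p, tau μ p := tsum_nonneg (tau_nonneg μ)
    linarith
  have hTb : ∀ s : Finset ℕ, ∑ p ∈ s, tau μ p ≤ T := fun s => by
    have := hsum.sum_le_tsum s (fun p _ => tau_nonneg μ p)
    linarith
  obtain ⟨s0, hs0⟩ := summable_iff_vanishing_norm.mp hsum (ε / (6 * C * T)) (by positivity)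
  set Y : ℕ := s0.sup id with hY
  have htail : ∀ s : Finset ℕ, (∀ p ∈ s, Y < p) → ∑ p ∈ s, tau μ p ≤ ε / (6 * C * T) := by
    intro s hs
    have h1 : Disjoint s s0 := by
      rw [disjoint_left]
      intro p hp hp0
      have h2 := le_sup (f := id) hp0
      have h3 := hs p hp
      simp only [id] at h2
      omega
    exact (le_abs_self _).trans (hs0 s h1).le
  -- the finitely many pairs
  have hfp : ∀ x : ℕ × ℕ, ∃ K0 : ℕ, ∀ K ≥ K0, ∀ W : ℕ, (bb K)^A ≤ W →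
      ((Mset W x.1 x.2).card : ℝ) ≤ (ε / (3 * (Y+1)^2)) * (W / 2^K) := fun x =>
    fixed_pair hC1 hcountG hb hfix A (by omega) x.1 x.2 _ (by positivity)
  choose Kf hKf using hfp
  obtain ⟨KB, hKB⟩ := caseB hC2 hcountR hb heven A (by omega) (ε/3) (by positivity)
  set PP := (range (Y+1)) ×ˢ (range (Y+1)) with hPP
  refine ⟨KB + ∑ x ∈ PP, Kf x, fun K hK W hW1 hW2 => ?_⟩
  have hWK : (0:ℝ) ≤ W / 2^K := by positivity
  set Rg := (range (4 * W + 1)) ×ˢ (range (bb K + 1)) with hRg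
  have hcov : ((Sset W).card : ℝ) ≤ ((Bset K W).card : ℝ) +
      ∑ x ∈ Rg, ((Nset K W x.1 x.2).card : ℝ) := by
    have h1 := (card_le_card (Sset_cover K W)).trans (card_union_le _ _)
    have h2 : ((Rg.biUnion (fun x => Nset K W x.1 x.2)).card : ℝ) ≤
        ∑ x ∈ Rg, ((Nset K W x.1 x.2).card : ℝ) := by
      refine le_trans (Nat.cast_le.mpr card_biUnion_le) ?_
      rw [Nat.cast_sum]
    have h3 := (Nat.cast_le (α := ℝ)).mpr h1
    rw [Nat.cast_add] at h3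
    linarith
  have hsplit : ∑ x ∈ Rg, ((Nset K W x.1 x.2).card : ℝ) =
      ∑ x ∈ Rg.filter (fun x => x.1 ≤ Y ∧ x.2 ≤ Y), ((Nset K W x.1 x.2).card : ℝ) +
      ∑ x ∈ Rg.filter (fun x => ¬ (x.1 ≤ Y ∧ x.2 ≤ Y)), ((Nset K W x.1 x.2).card : ℝ) :=
    (sum_filter_add_sum_filter_not Rg _ _).symm
  have hsmall : ∑ x ∈ Rg.filter (fun x => x.1 ≤ Y ∧ x.2 ≤ Y), ((Nset K W x.1 x.2).card : ℝ) ≤
      ε / 3 * (W / 2^K) := by
    calc ∑ x ∈ Rg.filter (fun x => x.1 ≤ Y ∧ x.2 ≤ Y), ((Nset K W x.1 x.2).card : ℝ)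
        ≤ ∑ x ∈ Rg.filter (fun x => x.1 ≤ Y ∧ x.2 ≤ Y), ((Mset W x.1 x.2).card : ℝ) :=
          sum_le_sum fun x _ => Nat.cast_le.mpr (card_le_card (Nset_subset_Mset K W x.1 x.2))
      _ ≤ ∑ x ∈ PP, ((Mset W x.1 x.2).card : ℝ) := by
          refine sum_le_sum_of_subset_of_nonneg (fun x hx => ?_) fun _ _ _ => Nat.cast_nonneg _
          rw [mem_filter] at hx
          rw [hPP, mem_product, mem_range, mem_range]
          omega
      _ ≤ ∑ x ∈ PP, (ε / (3 * (Y+1)^2)) * (W / 2^K) := by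
          refine sum_le_sum fun x hx => hKf x K ?_ W hW1
          have : Kf x ≤ ∑ x ∈ PP, Kf x := single_le_sum (f := Kf) (fun _ _ => Nat.zero_le _) hx
          omega
      _ = ε / 3 * (W / 2^K) := by
          rw [sum_const, hPP, card_product, card_range, nsmul_eq_mul]
          push_cast
          have : (0:ℝ) < (Y:ℝ) + 1 := by positivity
          field_simp
  have hlarge : ∑ x ∈ Rg.filter (fun x => ¬ (x.1 ≤ Y ∧ x.2 ≤ Y)),
      ((Nset K W x.1 x.2).card : ℝ) ≤ ε / 3 * (W / 2^K) := by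
    set g : ℕ × ℕ → ℝ := fun x => tau μ x.1 * tau μ x.2 with hg
    have hg0 : ∀ x, 0 ≤ g x := fun x => mul_nonneg (tau_nonneg _ _) (tau_nonneg _ _)
    have h1 : ∑ x ∈ Rg.filter (fun x => ¬ (x.1 ≤ Y ∧ x.2 ≤ Y)), g x ≤
        2 * (T * (ε / (6 * C * T))) := by
      have hsub : Rg.filter (fun x => ¬ (x.1 ≤ Y ∧ x.2 ≤ Y)) ⊆
          (((range (4 * W + 1)).filter (fun p => Y < p)) ×ˢ (range (bb K + 1))) ∪
          ((range (4 * W + 1)) ×ˢ ((range (bb K + 1)).filter (fun p => Y < p))) := by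
        intro x hx
        rw [mem_filter, hRg, mem_product] at hx
        rw [mem_union, mem_product, mem_product, mem_filter, mem_filter]
        rcases le_or_gt x.1 Y with h | h
        · right
          exact ⟨hx.1.1, hx.1.2, by
            by_contra hcon
            exact hx.2 ⟨h, by omega⟩⟩
        · left
          exact ⟨⟨hx.1.1, h⟩, hx.1.2⟩
      refine (sum_le_sum_of_subset_of_nonneg hsub fun _ _ _ => hg0 _).trans ?_
      have h2 : ∀ a b : Finset (ℕ × ℕ), ∑ x ∈ a ∪ b, g x ≤ ∑ x ∈ a, g x + ∑ x ∈ b, g x := by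
        intro a b
        rw [← sum_union_inter]
        have : 0 ≤ ∑ x ∈ a ∩ b, g x := sum_nonneg fun _ _ => hg0 _
        linarith
      refine (h2 _ _).trans ?_
      have h3 : ∀ a b : Finset ℕ, ∑ x ∈ a ×ˢ b, g x = (∑ p ∈ a, tau μ p) * ∑ q ∈ b, tau μ q := by
        intro a b
        rw [sum_product, sum_mul_sum]
      rw [h3, h3]
      have h4 := htail ((range (4 * W + 1)).filter (fun p => Y < p))
        (fun p hp => (mem_filter.mp hp).2)
      have h5 := htail ((range (bb K + 1)).filter (fun p => Y < p))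
        (fun p hp => (mem_filter.mp hp).2)
      have h6 := hTb (range (4 * W + 1))
      have h7 := hTb (range (bb K + 1))
      have h8 : ∀ a : Finset ℕ, 0 ≤ ∑ p ∈ a, tau μ p := fun a => sum_nonneg fun p _ => tau_nonneg μ p
      have h9 : 0 ≤ ε / (6 * C * T) := by positivity
      have h10 := mul_le_mul h4 h7 (h8 _) h9
      have h11 := mul_le_mul h6 h5 (h8 _) hT0.le
      linarith
    calc ∑ x ∈ Rg.filter (fun x => ¬ (x.1 ≤ Y ∧ x.2 ≤ Y)), ((Nset K W x.1 x.2).card : ℝ)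
        ≤ ∑ x ∈ Rg.filter (fun x => ¬ (x.1 ≤ Y ∧ x.2 ≤ Y)), C * (W / 2^K) * g x :=
          sum_le_sum fun x _ => hpairA K W x.1 x.2 hW1 hW2
      _ = C * (W / 2^K) * ∑ x ∈ Rg.filter (fun x => ¬ (x.1 ≤ Y ∧ x.2 ≤ Y)), g x := by
          rw [mul_sum]
      _ ≤ C * (W / 2^K) * (2 * (T * (ε / (6 * C * T)))) :=
          mul_le_mul_of_nonneg_left h1 (by positivity)
      _ = ε / 3 * (W / 2^K) := by field_simp; ring
  have hBs := hKB K (by omega) W hW1
  calc ((Sset W).card : ℝ) ≤ _ := hcov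
    _ ≤ ε / 3 * (W / 2^K) + (ε / 3 * (W / 2^K) + ε / 3 * (W / 2^K)) := by
        rw [hsplit]; linarith
    _ = ε * (W / 2^K) := by ring

/-- from the scales to all `W` -/
theorem main_of_scale (A : ℕ) (hA : 0 < A) (S : ℕ → ℝ)
    (h : ∀ ε : ℝ, 0 < ε → ∃ K0 : ℕ, ∀ K ≥ K0, ∀ W : ℕ, (bb K)^A ≤ W →
      W < (bb (K+1))^A → S W ≤ ε * (W / 2^K)) (ε : ℝ) (hε : 0 < ε) :
    ∀ᶠ W : ℕ in atTop, S W ≤ ε * W / Real.log W := by
  have hA' : (0:ℝ) < A := by exact_mod_cast hA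
  obtain ⟨K0, hK0⟩ := h (ε / (2 * A)) (by positivity)
  filter_upwards [eventually_ge_atTop ((bb K0)^A)] with W hW
  have hex : ∃ K, W < (bb (K+1))^A := ⟨W, by
    have h1 : W + 1 ≤ bb (W + 1) := le_bb (W+1)
    have h2 : bb (W+1) ≤ (bb (W+1))^A := Nat.le_self_pow (by omega) _
    omega⟩
  have hspec := Nat.find_spec hex
  set K := Nat.find hex with hK
  have hKK0 : K0 ≤ K := by
    by_contra hcon
    push Not at hcon
    have h1 : (bb (K+1))^A ≤ (bb K0)^A := Nat.pow_le_pow_left (bb_mono (by omega)) A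
    omega
  have hlow : (bb K)^A ≤ W := by
    rcases Nat.eq_zero_or_pos K with h0 | h0
    · have h1 : K0 = K := by omega
      rw [← h1]; exact hW
    · have := Nat.find_min hex (m := K - 1) (by omega)
      push Not at this
      rwa [Nat.sub_add_cancel h0] at this
  have h1 := hK0 K hKK0 W hlow hspec
  refine h1.trans ?_
  have hW2 : 2 ≤ W := by
    have h2 : 2 ≤ bb K := two_le_bb K
    have h3 : bb K ≤ (bb K)^A := Nat.le_self_pow (by omega) _
    omega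
  have hW1 : (1:ℝ) < W := by exact_mod_cast (by omega : 1 < W)
  have hlogW : 0 < Real.log W := Real.log_pos hW1
  have hlog : Real.log W ≤ 2 * A * 2^K := by
    have h2 : (W:ℝ) ≤ (bb (K+1) : ℝ)^A := by exact_mod_cast hspec.le
    calc Real.log W ≤ Real.log ((bb (K+1) : ℝ)^A) := Real.log_le_log (by linarith) h2
      _ = A * (2^(K+1) * Real.log 2) := by rw [Real.log_pow, log_bb]
      _ ≤ A * (2^(K+1) * 1) := by
          have := Real.log_two_lt_d9
          gcongr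
          linarith
      _ = 2 * A * 2^K := by rw [pow_succ]; ring
  rw [div_mul_div_comm, div_le_div_iff₀ (by positivity) hlogW]
  have : ε * W * Real.log W ≤ ε * W * (2 * A * 2^K) :=
    mul_le_mul_of_nonneg_left hlog (by positivity)
  linarith

end Pool.Agent.H95.Gol
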